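import Pool.Agent.H46LT.Comp

/-! Discriminants of Galois closures. -/

set_option autoImplicit false

namespace Pool.Agent.H46LT

open NumberField Finset IntermediateField
open scoped Classical nonZeroDivisors

variable {L : Type} [Field L] [NumberField L]

/-- a conjugate subgroup -/
def conjS {G : Type} [Group G] (V : Subgroup G) (y : G) : Subgroup G :=
  V.map (MulAut.conj y).toMonoidHom

theorem mem_conjS {G : Type} [Group G] (V : Subgroup G) (y g : G) :
    g ∈ conjS V y ↔ y⁻¹ * g * y ∈ V := by
  rw [conjS, Subgroup.mem_map]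
  constructor
  · rintro ⟨v, hv, rfl⟩
    simpa [mul_assoc] using hv
  · intro h
    exact ⟨y⁻¹ * g * y, h, by simp [mul_assoc]⟩

/-- conjugate fields have the same discriminant -/
theorem discr_conj (V : Subgroup Gal(L/ℚ)) (y : Gal(L/ℚ)) :
    discr (IntermediateField.fixedField (conjS V y)) = discr (IntermediateField.fixedField V) := by
  have h1 : IntermediateField.fixedField (conjS V y) =
      (IntermediateField.fixedField V).map (y : L →ₐ[ℚ] L) := by
    ext z
    rw [IntermediateField.mem_fixedField_iff, IntermediateField.mem_map]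
    constructor
    · intro h
      refine ⟨y⁻¹ z, ?_, ?_⟩
      · rw [IntermediateField.mem_fixedField_iff]
        intro v hv
        have h2 := h (y * v * y⁻¹) (by
          rw [mem_conjS]
          simpa [mul_assoc] using hv)
        have h3 : y (v (y⁻¹ z)) = z := h2
        have h4 : y⁻¹ (y (v (y⁻¹ z))) = y⁻¹ z := by rw [h3]
        have h5 : y⁻¹ (y (v (y⁻¹ z))) = v (y⁻¹ z) := by
          change (y⁻¹ * y) (v (y⁻¹ z)) = _
          rw [inv_mul_cancel]; rfl
        rw [h5] at h4
        exact h4
      · change (y * y⁻¹) z = z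
        rw [mul_inv_cancel]; rfl
    · rintro ⟨w, hw, rfl⟩ f hf
      rw [IntermediateField.mem_fixedField_iff] at hw
      rw [mem_conjS] at hf
      have h2 := hw _ hf
      have h3 : y ((y⁻¹ * f * y) w) = y w := by rw [h2]
      have h4 : y ((y⁻¹ * f * y) w) = f (y w) := by
        change (y * (y⁻¹ * f * y)) w = (f * y) w
        congr 1
        group
      rw [h4] at h3
      exact h3
  rw [h1]
  exact (discr_eq_discr_of_algEquiv _
    (IntermediateField.equivMap (IntermediateField.fixedField V) (y : L →ₐ[ℚ] L))).symm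

theorem mem_inf_conjS {G : Type} [Group G] (V : Subgroup G) (s : Finset G) (g : G) :
    g ∈ s.inf (conjS V) ↔ ∀ y ∈ s, g ∈ conjS V y := by
  induction s using Finset.induction_on with
  | empty => simp
  | insert y s hy ih => rw [Finset.inf_insert, Subgroup.mem_inf, ih]; simp

theorem inf_conjS {G : Type} [Group G] [Fintype G] (V : Subgroup G) :
    (Finset.univ : Finset G).inf (conjS V) = V.normalCore := by
  ext g
  rw [mem_inf_conjS]
  constructor
  · intro h b
    have := (mem_conjS V b⁻¹ g).mp (h b⁻¹ (mem_univ _))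
    simpa using this
  · intro h y _
    rw [mem_conjS]
    have := h y⁻¹
    simpa using this

theorem discr_top : |(discr (IntermediateField.fixedField (⊤ : Subgroup Gal(L/ℚ))) : ℝ)| ≤
    |(discr L : ℝ)| := by
  have := discr_le_of_le (le_top : IntermediateField.fixedField (⊤ : Subgroup Gal(L/ℚ)) ≤ ⊤)
  have h2 : discr (⊤ : IntermediateField ℚ L) = discr L :=
    discr_eq_discr_of_algEquiv _ IntermediateField.topEquiv
  rwa [h2] at this

theorem discr_fixed_top [IsGalois ℚ L] :
    |(discr (IntermediateField.fixedField (⊤ : Subgroup Gal(L/ℚ))) : ℝ)| = 1 := by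
  have h1 : IntermediateField.fixedField (⊤ : Subgroup Gal(L/ℚ)) = ⊥ :=
    IsGalois.fixedField_top
  rw [h1]
  have h2 : discr (⊥ : IntermediateField ℚ L) = discr ℚ :=
    discr_eq_discr_of_algEquiv _ (IntermediateField.botEquiv ℚ L)
  rw [h2, Rat.numberField_discr]
  simp

/-- the discriminant of the Galois closure of a subfield -/
theorem discr_core_le (g : ℕ) (hg : 1 ≤ g) : ∃ C : ℝ, 1 ≤ C ∧ ∃ e : ℕ, 1 ≤ e ∧
    ∀ (L : Type) [Field L] [NumberField L] [IsGalois ℚ L], Module.finrank ℚ L = g →
    ∀ V : Subgroup Gal(L/ℚ),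
    |(discr (IntermediateField.fixedField V.normalCore) : ℝ)| ≤
      (C * |(discr (IntermediateField.fixedField V) : ℝ)|) ^ e := by
  obtain ⟨C, hC1, hC⟩ := discr_inf_le g
  refine ⟨C, hC1, (3 * g ^ 2) ^ g, Nat.one_le_pow _ _ (by positivity), ?_⟩
  intro L _ _ _ hn V
  set d := |(discr (IntermediateField.fixedField V) : ℝ)| with hd
  have hd1 : 1 ≤ d := one_le_abs_discr _
  have hCd : 1 ≤ C * d := one_le_mul_of_one_le_of_one_le hC1 hd1
  have key : ∀ s : Finset Gal(L/ℚ),
      |(discr (IntermediateField.fixedField (s.inf (conjS V))) : ℝ)| ≤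
        (C * d) ^ ((3 * g ^ 2) ^ s.card) := by
    intro s
    induction s using Finset.induction_on with
    | empty =>
      rw [Finset.inf_empty, discr_fixed_top]
      exact one_le_pow₀ hCd
    | insert y s hy ih =>
      rw [Finset.inf_insert, Finset.card_insert_of_notMem hy]
      refine (hC L hn _ _).trans ?_
      rw [discr_conj, ← hd]
      set e := (3 * g ^ 2) ^ s.card with he
      have he1 : 1 ≤ e := Nat.one_le_pow _ _ (by positivity)
      calc C * (d * |(discr (IntermediateField.fixedField (s.inf (conjS V))) : ℝ)|) ^ (g ^ 2) ≤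
          (C * d) * ((C * d) * (C * d) ^ e) ^ (g ^ 2) := by
            gcongr
            · exact le_mul_of_one_le_right (by linarith) hd1
            · exact le_mul_of_one_le_left (by linarith) hC1
        _ = (C * d) ^ (1 + (1 + e) * g ^ 2) := by
            rw [← pow_succ', ← pow_mul, ← pow_succ']
            congr 1
            ring
        _ ≤ (C * d) ^ ((3 * g ^ 2) ^ (s.card + 1)) := by
            apply pow_le_pow_right₀ hCd
            rw [pow_succ (3 * g ^ 2) s.card, ← he]
            have h1 : 1 ≤ g ^ 2 := Nat.one_le_pow _ _ hg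
            nlinarith
  have h1 := key Finset.univ
  rw [inf_conjS, Finset.card_univ, ← Nat.card_eq_fintype_card, IsGalois.card_aut_eq_finrank, hn]
    at h1
  exact h1

/-- the number of automorphisms of the Galois closure -/
theorem card_le_factorial {G : Type} [Group G] [Finite G] (H : Subgroup G)
    (h : H.normalCore = ⊥) : Nat.card G ≤ (H.index).factorial := by
  have h1 : Function.Injective (MulAction.toPermHom G (G ⧸ H)) := by
    rw [← MonoidHom.ker_eq_bot_iff, ← Subgroup.normalCore_eq_ker, h]
  have h2 := Nat.card_le_card_of_injective _ h1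
  rw [Nat.card_perm] at h2
  exact h2

end Pool.Agent.H46LT
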