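import Pool.Agent.H46LT.Gal
import Pool.Agent.H46CN.Real

/-! The discriminant of a compositum. -/

set_option autoImplicit false

namespace Pool.Agent.H46LT

open NumberField Finset IntermediateField
open scoped Classical nonZeroDivisors

variable {K : Type} [Field K] [NumberField K]

theorem one_le_abs_discr (L : Type) [Field L] [NumberField L] : (1 : ℝ) ≤ |(discr L : ℝ)| := by
  have h2 : (1 : ℤ) ≤ |discr L| := Int.one_le_abs (discr_ne_zero L)
  exact_mod_cast h2

/-- a small integral generator of a subfield -/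
theorem exists_small_gen {n : ℕ} (hn : Module.finrank ℚ K = n) (E : IntermediateField ℚ K) :
    ∃ a : 𝓞 K, ℚ⟮(a : K)⟯ = E ∧
      ∀ w : InfinitePlace K, w (a : K) ≤ 2 ^ (n + 2) * √|(discr E : ℝ)| := by
  set d := Module.finrank ℚ E with hd
  have hdn : d ≤ n := by
    rw [← hn, hd]
    exact Submodule.finrank_le (Subalgebra.toSubmodule E.toSubalgebra)
  have hs1 : 1 ≤ √|(discr E : ℝ)| := by
    rw [Real.one_le_sqrt]
    exact one_le_abs_discr E
  set M : ℕ := ⌊2 ^ n * √|(discr E : ℝ)|⌋₊ + 1 with hM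
  have hM1 : 2 ^ d * √|(discr E : ℝ)| < M := by
    rw [hM]; push_cast
    refine lt_of_le_of_lt ?_ (Nat.lt_floor_add_one _)
    have : (2 : ℝ) ^ d ≤ 2 ^ n := pow_le_pow_right₀ (by norm_num) hdn
    gcongr
  have hM2 : (M : ℝ) ≤ 2 ^ (n + 1) * √|(discr E : ℝ)| := by
    rw [hM]; push_cast
    have h1 := Nat.floor_le (show 0 ≤ 2 ^ n * √|(discr E : ℝ)| by positivity)
    have h2 : (1 : ℝ) ≤ 2 ^ n * √|(discr E : ℝ)| :=
      one_le_mul_of_one_le_of_one_le (one_le_pow₀ (by norm_num)) hs1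
    rw [pow_succ]
    linarith
  obtain ⟨a, ha, haw⟩ := Pool.Agent.H46CN.exists_primitive (K := E) rfl M hM1
  refine ⟨algebraMap (𝓞 E) (𝓞 K) a, ?_, ?_⟩
  · have h0 : ((algebraMap (𝓞 E) (𝓞 K) a : 𝓞 K) : K) = ((a : E) : K) := rfl
    rw [h0]
    have ha' : @IntermediateField.adjoin ℚ _ E _ (IntermediateField.algebra' E) {(a : E)} =
        @Top.top _ _ := adjoin_top_transfer _ _ (a : E) ha
    have h1 : IntermediateField.map E.val (@IntermediateField.adjoin ℚ _ E _
        (IntermediateField.algebra' E) {(a : E)}) = ℚ⟮((a : E) : K)⟯ := by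
      rw [IntermediateField.adjoin_map, Set.image_singleton]
      rfl
    rw [← h1, ha']
    ext x
    simp [IntermediateField.mem_map]
  · intro w
    have h1 := haw (w.comap (algebraMap E K))
    rw [InfinitePlace.comap_apply] at h1
    have h2 : w ((algebraMap (𝓞 E) (𝓞 K) a : 𝓞 K) : K) ≤ 2 * M := h1
    refine h2.trans ?_
    calc 2 * (M : ℝ) ≤ 2 * (2 ^ (n + 1) * √|(discr E : ℝ)|) := by gcongr
      _ = _ := by rw [pow_succ]; ring

theorem mem_fixing_iff (α : K) (σ : Gal(K/ℚ)) : σ ∈ (ℚ⟮α⟯).fixingSubgroup ↔ σ α = α := by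
  rw [IntermediateField.mem_fixingSubgroup_iff]
  constructor
  · intro h
    exact h α (IntermediateField.mem_adjoin_simple_self ℚ α)
  · intro h x hx
    have h1 : ℚ⟮α⟯ ≤ IntermediateField.fixedField (Subgroup.zpowers σ) := by
      rw [IntermediateField.adjoin_simple_le_iff, IntermediateField.mem_fixedField_iff]
      intro f hf
      have h2 : Subgroup.zpowers σ ≤ MulAction.stabilizer Gal(K/ℚ) α := by
        rw [Subgroup.zpowers_le]
        exact h
      exact h2 hf
    have h2 := h1 hx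
    rw [IntermediateField.mem_fixedField_iff] at h2
    exact h2 σ (Subgroup.mem_zpowers σ)

/-- the discriminant of a compositum of fixed fields -/
theorem discr_inf_le (n : ℕ) : ∃ C : ℝ, 1 ≤ C ∧
    ∀ (K : Type) [Field K] [NumberField K] [IsGalois ℚ K], Module.finrank ℚ K = n →
    ∀ N₁ N₂ : Subgroup Gal(K/ℚ),
    |(discr (IntermediateField.fixedField (N₁ ⊓ N₂)) : ℝ)| ≤
      C * (|(discr (IntermediateField.fixedField N₁) : ℝ)| *
        |(discr (IntermediateField.fixedField N₂) : ℝ)|) ^ (n ^ 2) := by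
  refine ⟨((n + 1) * 2 ^ (n + 3)) ^ (n * (n - 1)), ?_, ?_⟩
  · refine one_le_pow₀ (one_le_mul_of_one_le_of_one_le ?_ (one_le_pow₀ (by norm_num)))
    have : (0 : ℝ) ≤ n := by positivity
    linarith
  intro K _ _ _ hn N₁ N₂
  set D₁ := |(discr (IntermediateField.fixedField N₁) : ℝ)| with hD₁
  set D₂ := |(discr (IntermediateField.fixedField N₂) : ℝ)| with hD₂
  have h1D₁ : 1 ≤ D₁ := one_le_abs_discr _
  have h1D₂ : 1 ≤ D₂ := one_le_abs_discr _
  obtain ⟨a₁, ha₁, hw₁⟩ := exists_small_gen hn (IntermediateField.fixedField N₁)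
  obtain ⟨a₂, ha₂, hw₂⟩ := exists_small_gen hn (IntermediateField.fixedField N₂)
  rw [← hD₁] at hw₁
  rw [← hD₂] at hw₂
  have hf₁ : ∀ σ : Gal(K/ℚ), σ (a₁ : K) = a₁ ↔ σ ∈ N₁ := by
    intro σ
    rw [← mem_fixing_iff, ha₁, IntermediateField.fixingSubgroup_fixedField]
  have hf₂ : ∀ σ : Gal(K/ℚ), σ (a₂ : K) = a₂ ↔ σ ∈ N₂ := by
    intro σ
    rw [← mem_fixing_iff, ha₂, IntermediateField.fixingSubgroup_fixedField]
  -- a good combination
  have hex : ∃ t : ℕ, t ≤ n ∧ ∀ σ : Gal(K/ℚ), σ ((a₁ : K) + t * (a₂ : K)) = (a₁ : K) + t * (a₂ : K) →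
      σ ∈ N₁ ⊓ N₂ := by
    by_contra hcon
    push Not at hcon
    choose! σ hσ1 hσ2 using hcon
    have hinj : ∀ t ≤ n, ∀ t' ≤ n, σ t = σ t' → t = t' := by
      intro t ht t' ht' h
      by_contra hne
      apply hσ2 t ht
      have e1 := hσ1 t ht
      have e2 := hσ1 t' ht'
      rw [← h] at e2
      simp only [map_add, map_mul, map_natCast] at e1 e2
      have e3 : ((t : K) - t') * (σ t (a₂ : K) - a₂) = 0 := by linear_combination e1 - e2
      have e4 : (t : K) - t' ≠ 0 := by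
        rw [sub_ne_zero]
        exact_mod_cast hne
      have e5 : σ t (a₂ : K) = a₂ := by
        rcases mul_eq_zero.mp e3 with h | h
        · exact absurd h e4
        · exact sub_eq_zero.mp h
      have e6 : σ t (a₁ : K) = a₁ := by rw [e5] at e1; linear_combination e1
      exact Subgroup.mem_inf.mpr ⟨(hf₁ _).mp e6, (hf₂ _).mp e5⟩
    have hcard : (Finset.range (n + 1)).card ≤ Fintype.card Gal(K/ℚ) := by
      rw [← Finset.card_univ]
      refine Finset.card_le_card_of_injOn σ (fun _ _ => Finset.mem_coe.mpr (Finset.mem_univ _)) ?_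
      intro t ht t' ht' h
      rw [Finset.mem_coe, mem_range] at ht ht'
      exact hinj t (by omega) t' (by omega) h
    rw [Finset.card_range, ← Nat.card_eq_fintype_card, IsGalois.card_aut_eq_finrank, hn] at hcard
    omega
  obtain ⟨t, htn, ht⟩ := hex
  set α : 𝓞 K := a₁ + t * a₂ with hα
  have hαK : (α : K) = (a₁ : K) + t * (a₂ : K) := by rw [hα]; push_cast; rfl
  have hfield : ℚ⟮(α : K)⟯ = IntermediateField.fixedField (N₁ ⊓ N₂) := by
    have h1 : (ℚ⟮(α : K)⟯).fixingSubgroup = N₁ ⊓ N₂ := by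
      ext σ
      rw [mem_fixing_iff]
      constructor
      · intro h
        rw [hαK] at h
        exact ht σ h
      · intro h
        obtain ⟨h1, h2⟩ := Subgroup.mem_inf.mp h
        rw [hαK, map_add, map_mul, map_natCast, (hf₁ σ).mpr h1, (hf₂ σ).mpr h2]
    rw [← h1, IsGalois.fixedField_fixingSubgroup]
  set R : ℝ := (n + 1) * 2 ^ (n + 2) * (D₁ * D₂) with hR
  have hDD : 1 ≤ D₁ * D₂ := one_le_mul_of_one_le_of_one_le h1D₁ h1D₂
  have hsq₁ : √D₁ ≤ D₁ * D₂ := by
    calc √D₁ ≤ D₁ := Real.sqrt_le_iff.mpr ⟨by linarith, by nlinarith⟩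
      _ ≤ D₁ * D₂ := le_mul_of_one_le_right (by linarith) h1D₂
  have hsq₂ : √D₂ ≤ D₁ * D₂ := by
    calc √D₂ ≤ D₂ := Real.sqrt_le_iff.mpr ⟨by linarith, by nlinarith⟩
      _ ≤ D₁ * D₂ := le_mul_of_one_le_left (by linarith) h1D₁
  have htr : (t : ℝ) ≤ n := by exact_mod_cast htn
  have key := disc_bound_sub hn (α : K) ⊤ top_ne_bot (fun b _ => ⟨α * b, by push_cast; rfl⟩)
    (R := R) (by
      rw [hR]
      have h1 : (1 : ℝ) ≤ (n + 1) * 2 ^ (n + 2) :=
        one_le_mul_of_one_le_of_one_le (by have : (0 : ℝ) ≤ n := by positivity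
                                           linarith) (one_le_pow₀ (by norm_num))
      have h2 : (1 : ℝ) ≤ (n + 1) * 2 ^ (n + 2) * (D₁ * D₂) := one_le_mul_of_one_le_of_one_le h1 hDD
      linarith) (by
      intro w
      rw [hαK]
      calc w ((a₁ : K) + t * (a₂ : K)) ≤ w (a₁ : K) + w ((t : K) * (a₂ : K)) := w.1.add_le' _ _
        _ = w (a₁ : K) + t * w (a₂ : K) := by
            rw [map_mul]
            congr 2
            rw [← InfinitePlace.norm_embedding_eq, map_natCast, Complex.norm_natCast]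
        _ ≤ 2 ^ (n + 2) * √D₁ + n * (2 ^ (n + 2) * √D₂) := by
            have := hw₁ w
            have := hw₂ w
            gcongr
        _ ≤ 2 ^ (n + 2) * (D₁ * D₂) + n * (2 ^ (n + 2) * (D₁ * D₂)) := by gcongr
        _ = R := by rw [hR]; ring)
  rw [Ideal.absNorm_top, Nat.cast_one, one_pow, one_mul] at key
  have hfin : |(discr (IntermediateField.fixedField (N₁ ⊓ N₂)) : ℝ)| ≤ (2 * R) ^ (n * (n - 1)) := by
    rw [← hfield]
    exact key
  refine hfin.trans ?_
  have e1 : 2 * R = ((n + 1) * 2 ^ (n + 3)) * (D₁ * D₂) := by rw [hR]; ring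
  rw [e1, mul_pow]
  have h2 : (D₁ * D₂) ^ (n * (n - 1)) ≤ (D₁ * D₂) ^ (n ^ 2) := by
    refine pow_le_pow_right₀ hDD ?_
    rw [sq]
    exact Nat.mul_le_mul_left _ (by omega)
  have h3 : (0 : ℝ) ≤ ((n + 1) * 2 ^ (n + 3)) ^ (n * (n - 1)) := by positivity
  gcongr

end Pool.Agent.H46LT
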