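import Mathlib

/-! The number of primes up to a bound that do not divide a given integer. -/

set_option autoImplicit false

namespace Pool.Agent.H46LT

open Finset Real Chebyshev
open scoped Classical Nat.Prime

/-- the primes up to `Z` not dividing `D` -/
noncomputable def goodP (D : ℕ) (Z : ℝ) : Finset ℕ :=
  (Finset.Icc 1 ⌊Z⌋₊).filter (fun p => p.Prime ∧ ¬ p ∣ D)

theorem mem_goodP {D : ℕ} {Z : ℝ} (hZ : 0 ≤ Z) {p : ℕ} :
    p ∈ goodP D Z ↔ p.Prime ∧ ¬ p ∣ D ∧ (p : ℝ) ≤ Z := by
  rw [goodP, mem_filter, mem_Icc]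
  constructor
  · rintro ⟨⟨_, h2⟩, h3, h4⟩
    exact ⟨h3, h4, (Nat.le_floor_iff hZ).mp h2⟩
  · rintro ⟨h1, h2, h3⟩
    exact ⟨⟨h1.one_lt.le, (Nat.le_floor_iff hZ).mpr h3⟩, h1, h2⟩

theorem card_primeFactors_le {D : ℕ} (hD : D ≠ 0) :
    (D.primeFactors.card : ℝ) ≤ 2 * Real.log D := by
  have h1 : 2 ^ D.primeFactors.card ≤ D := by
    calc 2 ^ D.primeFactors.card = ∏ p ∈ D.primeFactors, 2 := by rw [Finset.prod_const]
      _ ≤ ∏ p ∈ D.primeFactors, p := Finset.prod_le_prod' fun p hp =>
          (Nat.prime_of_mem_primeFactors hp).two_le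
      _ ≤ D := Nat.le_of_dvd (Nat.pos_of_ne_zero hD) (Nat.prod_primeFactors_dvd D)
  have h2 : (D.primeFactors.card : ℝ) * Real.log 2 ≤ Real.log D := by
    rw [← Real.log_pow]
    exact Real.log_le_log (by positivity) (by exact_mod_cast h1)
  have h3 : (0.6931471803 : ℝ) < Real.log 2 := Real.log_two_gt_d9
  have h4 : (0 : ℝ) ≤ D.primeFactors.card := by positivity
  nlinarith

theorem ten_le {m : ℕ} (hm : 2 ≤ m) : (m : ℝ) ≤ 10 * ((Nat.primeCounting m : ℝ) * Real.log m) := by
  have h1 := Chebyshev.psi_ge m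
  have h2 := Chebyshev.psi_le_primeCounting_mul_log m
  have hmr : (2 : ℝ) ≤ m := by exact_mod_cast hm
  have h3 : Real.log 3 ≤ 1.1363 := by
    have e1 : (3 : ℝ) = 2 * 2 * (3 / 4) := by norm_num
    have e2 := Real.log_le_sub_one_of_pos (show (0 : ℝ) < 3 / 4 by norm_num)
    have e3 := Real.log_two_lt_d9
    rw [e1, Real.log_mul (by norm_num) (by norm_num), Real.log_mul (by norm_num) (by norm_num)]
    linarith
  have h4 : Real.log (m + 1) ≤ (m : ℝ) / 3 + 0.4697 := by
    have e1 : (m : ℝ) + 1 = 3 * (((m : ℝ) + 1) / 3) := by ring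
    have e2 := Real.log_le_sub_one_of_pos (show (0 : ℝ) < ((m : ℝ) + 1) / 3 by positivity)
    rw [e1, Real.log_mul (by norm_num) (by positivity)]
    linarith
  have h5 := Real.log_two_gt_d9
  nlinarith

theorem count_primes {D : ℕ} (hD : 3 ≤ D) {Z : ℝ} (hZ1 : 1 ≤ Z) (hZD : Z ≤ D) :
    Z ≤ 60 * (Real.log D) ^ 2 * ((goodP D Z).card + 1) := by
  have hDr : (3 : ℝ) ≤ D := by exact_mod_cast hD
  have hlD : 1 ≤ Real.log D := by
    rw [Real.le_log_iff_exp_le (by linarith)]
    have := Real.exp_one_lt_d9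
    linarith
  set s : ℝ := ((goodP D Z).card : ℝ) with hs
  have hs0 : 0 ≤ s := by positivity
  set m := ⌊Z⌋₊ with hm
  have hZm : Z < m + 1 := Nat.lt_floor_add_one Z
  have hmZ : (m : ℝ) ≤ Z := Nat.floor_le (by linarith)
  by_cases hm2 : 2 ≤ m
  · have hmr : (2 : ℝ) ≤ m := by exact_mod_cast hm2
    have h1 := ten_le hm2
    have h2 : Nat.primeCounting m ≤ (goodP D Z).card + D.primeFactors.card := by
      have h3 : Nat.primeCounting m = ((Finset.Icc 1 m).filter Nat.Prime).card := by
        rw [Nat.primeCounting, Nat.primeCounting', Nat.count_eq_card_filter_range]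
        congr 1
        ext p
        simp only [mem_filter, mem_range, mem_Icc]
        constructor
        · rintro ⟨h4, h5⟩
          exact ⟨⟨h5.one_lt.le, by omega⟩, h5⟩
        · rintro ⟨⟨h4, h5⟩, h6⟩
          exact ⟨by omega, h6⟩
      rw [h3]
      have hsub : (Finset.Icc 1 m).filter Nat.Prime ⊆ goodP D Z ∪ D.primeFactors := by
        intro p hp
        rw [mem_filter, mem_Icc] at hp
        rw [mem_union]
        by_cases hpD : p ∣ D
        · right
          exact Nat.mem_primeFactors.mpr ⟨hp.2, hpD, by omega⟩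
        · left
          rw [goodP, mem_filter, mem_Icc]
          exact ⟨⟨hp.1.1, hp.1.2⟩, hp.2, hpD⟩
      exact (Finset.card_le_card hsub).trans (Finset.card_union_le _ _)
    have h3 : (Nat.primeCounting m : ℝ) ≤ s + 2 * Real.log D := by
      have h4 : (Nat.primeCounting m : ℝ) ≤ s + D.primeFactors.card := by
        rw [hs]; exact_mod_cast h2
      have := card_primeFactors_le (show D ≠ 0 by omega)
      linarith
    have h4 : Real.log m ≤ Real.log D := Real.log_le_log (by linarith) (by linarith)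
    have h5 : 0 ≤ Real.log m := Real.log_nonneg (by linarith)
    have h6 : (Nat.primeCounting m : ℝ) * Real.log m ≤ (s + 2 * Real.log D) * Real.log D := by
      gcongr
    have h7 : (s + 2 * Real.log D) * Real.log D ≤ 3 * (Real.log D) ^ 2 * (s + 1) := by
      have e1 : 0 ≤ Real.log D * (Real.log D - 1) := by nlinarith
      nlinarith [mul_nonneg hs0 e1, mul_nonneg hs0 (sq_nonneg (Real.log D))]
    nlinarith
  · have : (m : ℝ) ≤ 1 := by exact_mod_cast (by omega : m ≤ 1)
    have h1 : (1 : ℝ) ≤ (Real.log D) ^ 2 := by nlinarith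
    nlinarith [mul_nonneg hs0 (sq_nonneg (Real.log D))]

end Pool.Agent.H46LT
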