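import Mathlib
import Pool.Agent.TH847.LG.Disc

/-! A lower bound for the height of a generator: the discriminant and the conjugates of a generator
with a given denominator ideal. -/

set_option autoImplicit false

namespace Pool.Agent.H46LT

open NumberField Finset IntermediateField Module
open scoped Classical nonZeroDivisors

variable {K : Type} [Field K] [NumberField K]

/-- If `α` generates `K`, `α B ⊆ 𝓞 K` and `|α| ≤ R` at all infinite places then
`|disc K| ≤ N(B) ^ (2 (n - 1)) (2 R) ^ (n (n - 1))`. -/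
theorem disc_bound_frac {n : ℕ} (hn : Module.finrank ℚ K = n) (α : K) (hα : ℚ⟮α⟯ = ⊤)
    (B : Ideal (𝓞 K)) (hB : B ≠ ⊥) (hαB : ∀ b ∈ B, ∃ c : 𝓞 K, α * (b : K) = (c : K)) {R : ℝ}
    (hR : ∀ w : InfinitePlace K, w α ≤ R) :
    |(discr K : ℝ)| ≤ (Ideal.absNorm B : ℝ) ^ (2 * (n - 1)) * (2 * R) ^ (n * (n - 1)) := by
  have hint : IsIntegral ℚ α := Algebra.IsIntegral.isIntegral _
  have htop : Algebra.adjoin ℚ {α} = ⊤ := by
    rw [← IntermediateField.adjoin_simple_toSubalgebra_of_isAlgebraic hint.isAlgebraic, hα]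
    rfl
  let pb : PowerBasis ℚ K := PowerBasis.ofAdjoinEqTop' hint htop
  have hgen : pb.gen = α := PowerBasis.ofAdjoinEqTop'_gen hint htop
  have hdim : pb.dim = n := by rw [← pb.finrank, hn]
  have hc : Fintype.card (Module.Free.ChooseBasisIndex ℤ (𝓞 K)) = pb.dim := by
    rw [← Module.finrank_eq_card_basis (RingOfIntegers.basis K), RingOfIntegers.rank, pb.finrank]
  let e : Module.Free.ChooseBasisIndex ℤ (𝓞 K) ≃ Fin pb.dim := Fintype.equivFinOfCardEq hc
  -- the fractional ideal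
  have hB0 : (B : FractionalIdeal (𝓞 K)⁰ K) ≠ 0 := by
    rw [Ne, FractionalIdeal.coeIdeal_eq_zero]
    exact hB
  set F : FractionalIdeal (𝓞 K)⁰ K := ((B : FractionalIdeal (𝓞 K)⁰ K)⁻¹) ^ (n - 1) with hF
  have hF0 : F ≠ 0 := pow_ne_zero _ (inv_ne_zero hB0)
  let I : (FractionalIdeal (𝓞 K)⁰ K)ˣ := Units.mk0 F hF0
  have hcI : Fintype.card (Module.Free.ChooseBasisIndex ℤ (𝓞 K)) =
      Fintype.card (Module.Free.ChooseBasisIndex ℤ I) := by
    rw [← Module.finrank_eq_card_chooseBasisIndex, ← Module.finrank_eq_card_chooseBasisIndex]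
    exact (fractionalIdeal_rank K I).symm
  let e' : Module.Free.ChooseBasisIndex ℤ (𝓞 K) ≃ Module.Free.ChooseBasisIndex ℤ I :=
    Fintype.equivOfCardEq hcI
  let b0 : Module.Basis (Module.Free.ChooseBasisIndex ℤ (𝓞 K)) ℚ K := integralBasis K
  let bI : Module.Basis (Module.Free.ChooseBasisIndex ℤ (𝓞 K)) ℚ K :=
    (basisOfFractionalIdeal K I).reindex e'.symm
  let v : Module.Free.ChooseBasisIndex ℤ (𝓞 K) → K := fun i => α ^ (e i : ℕ)
  -- powers of `α` lie in the fractional ideal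
  have hα1 : α ∈ ((B : FractionalIdeal (𝓞 K)⁰ K)⁻¹) := by
    rw [FractionalIdeal.mem_inv_iff hB0]
    intro y hy
    rw [FractionalIdeal.mem_coeIdeal] at hy
    obtain ⟨b, hb, rfl⟩ := hy
    obtain ⟨c, hc⟩ := hαB b hb
    rw [FractionalIdeal.mem_one_iff]
    exact ⟨c, hc.symm⟩
  have h1inv : (1 : FractionalIdeal (𝓞 K)⁰ K) ≤ (B : FractionalIdeal (𝓞 K)⁰ K)⁻¹ := by
    have h := FractionalIdeal.inv_anti_mono hB0 one_ne_zero
      (FractionalIdeal.coeIdeal_le_one (I := B) (P := K))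
    rwa [inv_one] at h
  have hpow : ∀ j : ℕ, j ≤ n - 1 → α ^ j ∈ F := by
    intro j hj
    have h1 : α ^ j ∈ ((B : FractionalIdeal (𝓞 K)⁰ K)⁻¹) ^ j := by
      induction j with
      | zero => rw [pow_zero, pow_zero]; exact FractionalIdeal.one_mem_one _
      | succ k ih =>
        rw [pow_succ, pow_succ]
        exact FractionalIdeal.mul_mem_mul (ih (by omega)) hα1
    exact (pow_le_pow_right₀ h1inv hj) h1
  -- the integer matrix
  have hmem : ∀ i j, ∃ m : ℤ, bI.repr (v j) i = (m : ℚ) := by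
    intro i j
    have hvI : v j ∈ Submodule.span ℤ (Set.range (basisOfFractionalIdeal K I)) := by
      rw [mem_span_basisOfFractionalIdeal]
      apply hpow
      have := (e j).2
      omega
    obtain ⟨m, hm⟩ := ((basisOfFractionalIdeal K I).mem_span_iff_repr_mem ℤ (v j)).1 hvI (e' i)
    refine ⟨m, ?_⟩
    rw [Module.Basis.repr_reindex_apply, Equiv.symm_symm, ← hm]
    simp
  choose M hM using hmem
  let MM : Matrix (Module.Free.ChooseBasisIndex ℤ (𝓞 K)) (Module.Free.ChooseBasisIndex ℤ (𝓞 K)) ℤ :=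
    fun i j => M i j
  have hMM : bI.toMatrix v = MM.map (Int.castRingHom ℚ) := by
    ext i j
    rw [Module.Basis.toMatrix_apply, Matrix.map_apply, hM]
    rfl
  have hdetM : (MM.map (Int.castRingHom ℚ)).det = (MM.det : ℚ) := by
    have := (RingHom.map_det (Int.castRingHom ℚ) MM)
    rw [RingHom.mapMatrix_apply] at this
    rw [← this]
    rfl
  have hdet : b0.det v = b0.det bI * (MM.det : ℚ) := by
    rw [Module.Basis.det_apply, Module.Basis.det_apply, ← hdetM, ← hMM, ← Matrix.det_mul,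
      Module.Basis.toMatrix_mul_toMatrix]
  have hnorm : |b0.det bI| = FractionalIdeal.absNorm F :=
    det_basisOfFractionalIdeal_eq_absNorm K I e'
  have hFn : (FractionalIdeal.absNorm F : ℚ) * (Ideal.absNorm B : ℚ) ^ (n - 1) = 1 := by
    have h1 : F * (B : FractionalIdeal (𝓞 K)⁰ K) ^ (n - 1) = 1 := by
      rw [hF, ← mul_pow, inv_mul_cancel₀ hB0, one_pow]
    have h2 := congrArg FractionalIdeal.absNorm h1
    have h3 : FractionalIdeal.absNorm ((B : FractionalIdeal (𝓞 K)⁰ K) ^ (n - 1)) =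
        (Ideal.absNorm B : ℚ) ^ (n - 1) := by
      rw [map_pow, FractionalIdeal.coeIdeal_absNorm]
    rw [map_mul, h3, map_one] at h2
    exact h2
  -- the discriminant of the powers
  have h1 : Algebra.discr ℚ pb.basis = (b0.det v) ^ 2 * (discr K : ℚ) := by
    have h2 := Algebra.discr_of_matrix_vecMul (A := ℚ) (b0 : _ → K) (b0.toMatrix v)
    rw [Module.Basis.toMatrix_map_vecMul] at h2
    have h4 : Algebra.discr ℚ (b0 : _ → K) = (discr K : ℚ) := by
      rw [coe_discr]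
    rw [h4] at h2
    rw [Module.Basis.det_apply, ← h2]
    have h5 := Algebra.discr_reindex ℚ (pb.basis) e.symm
    rw [← h5]
    congr 1
    ext i
    simp only [Function.comp_apply, pb.coe_basis, hgen, Equiv.symm_symm]
    rfl
  have hne : MM.det ≠ 0 := by
    intro h0
    have h2 := Algebra.discr_not_zero_of_basis ℚ pb.basis
    rw [h1, hdet, h0] at h2
    simp at h2
  generalize MM.det = m at hdet hne
  have hm1 : (1 : ℚ) ≤ |(m : ℚ)| := by
    rw [← Int.cast_abs]
    exact_mod_cast Int.one_le_abs hne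
  have hBn : (0 : ℚ) < (Ideal.absNorm B : ℚ) := by
    have : Ideal.absNorm B ≠ 0 := by rwa [Ne, Ideal.absNorm_eq_zero_iff]
    exact_mod_cast Nat.pos_of_ne_zero this
  have hD1 : |(discr K : ℚ)| ≤ (Ideal.absNorm B : ℚ) ^ (2 * (n - 1)) * |Algebra.discr ℚ pb.basis| := by
    rw [h1, hdet, abs_mul, abs_pow, abs_mul, hnorm]
    have hF1 : (FractionalIdeal.absNorm F : ℚ) = ((Ideal.absNorm B : ℚ) ^ (n - 1))⁻¹ :=
      eq_inv_of_mul_eq_one_left hFn
    rw [hF1, mul_pow, inv_pow, ← pow_mul, mul_comm (n - 1) 2]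
    set x := (Ideal.absNorm B : ℚ) ^ (2 * (n - 1)) with hx
    have hx0 : 0 < x := by positivity
    have : x * (x⁻¹ * |(m : ℚ)| ^ 2 * |(discr K : ℚ)|) = |(m : ℚ)| ^ 2 * |(discr K : ℚ)| := by
      field_simp
    rw [this]
    have h5 := abs_nonneg (discr K : ℚ)
    have h6 : (1 : ℚ) ≤ |(m : ℚ)| ^ 2 := one_le_pow₀ hm1
    nlinarith
  have h2 : |(discr K : ℝ)| ≤ (Ideal.absNorm B : ℝ) ^ (2 * (n - 1)) *
      ‖algebraMap ℚ ℂ (Algebra.discr ℚ pb.basis)‖ := by
    have h3 : ‖algebraMap ℚ ℂ (Algebra.discr ℚ pb.basis)‖ =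
        ((|Algebra.discr ℚ pb.basis| : ℚ) : ℝ) := by
      rw [eq_ratCast, Complex.norm_ratCast, Rat.cast_abs]
    rw [h3]
    have : ((|(discr K : ℚ)| : ℚ) : ℝ) ≤ (((Ideal.absNorm B : ℚ) ^ (2 * (n - 1)) *
      |Algebra.discr ℚ pb.basis| : ℚ) : ℝ) := by exact_mod_cast hD1
    push_cast at this
    exact_mod_cast this
  refine h2.trans (mul_le_mul_of_nonneg_left ?_ (by positivity))
  have hcard : Fintype.card (K →ₐ[ℚ] ℂ) = pb.dim := by
    rw [AlgHom.card, pb.finrank]
  let f : Fin pb.dim ≃ (K →ₐ[ℚ] ℂ) := (Fintype.equivFinOfCardEq hcard).symm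
  rw [Algebra.discr_powerBasis_eq_prod ℚ ℂ pb f, norm_prod]
  have hconj : ∀ i, ‖f i pb.gen‖ ≤ R := by
    intro i
    rw [hgen]
    have := hR (InfinitePlace.mk ((f i : K →ₐ[ℚ] ℂ) : K →+* ℂ))
    rw [InfinitePlace.apply] at this
    exact this
  calc ∏ i : Fin pb.dim, ‖∏ j ∈ Finset.Ioi i, (f j pb.gen - f i pb.gen) ^ 2‖
      ≤ ∏ i : Fin pb.dim, (2 * R) ^ (2 * (Finset.Ioi i).card) := by
        refine Finset.prod_le_prod (fun i _ => norm_nonneg _) fun i _ => ?_
        rw [norm_prod]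
        calc ∏ j ∈ Finset.Ioi i, ‖(f j pb.gen - f i pb.gen) ^ 2‖
            ≤ ∏ j ∈ Finset.Ioi i, (2 * R) ^ 2 := by
              refine Finset.prod_le_prod (fun j _ => norm_nonneg _) fun j _ => ?_
              rw [norm_pow]
              have h3 : ‖f j pb.gen - f i pb.gen‖ ≤ 2 * R := by
                refine (norm_sub_le _ _).trans ?_
                linarith [hconj i, hconj j]
              exact pow_le_pow_left₀ (norm_nonneg _) h3 2
          _ = (2 * R) ^ (2 * (Finset.Ioi i).card) := by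
              rw [Finset.prod_const, ← pow_mul]
    _ = (2 * R) ^ (n * (n - 1)) := by
        rw [Finset.prod_pow_eq_pow_sum, Pool.Agent.TH847.LG.sum_card_Ioi, hdim]

end Pool.Agent.H46LT
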