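import Mathlib
import Pool.Agent.H46LT.Disc2

/-! The discriminant of the field generated by an element of small height. -/

set_option autoImplicit false

namespace Pool.Agent.H46LT

open NumberField Finset IntermediateField Module
open scoped Classical nonZeroDivisors

variable {K : Type} [Field K] [NumberField K]

/-- the norm of the contraction of an ideal -/
theorem absNorm_comap_le (E : IntermediateField ℚ K) (B : Ideal (𝓞 K)) (hB : B ≠ ⊥) :
    Ideal.absNorm (B.comap (algebraMap (𝓞 E) (𝓞 K))) ≤ Ideal.absNorm B := by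
  have hinj : Function.Injective
      (Ideal.quotientMap B (algebraMap (𝓞 E) (𝓞 K)) (le_refl (B.comap (algebraMap (𝓞 E) (𝓞 K))))) :=
    Ideal.quotientMap_injective' (le_refl _)
  have hfin : Finite (𝓞 K ⧸ B) := Ideal.finiteQuotientOfFreeOfNeBot B hB
  rw [Ideal.absNorm_apply, Ideal.absNorm_apply, Submodule.cardQuot_apply, Submodule.cardQuot_apply]
  exact Nat.card_le_card_of_injective _ hinj

theorem adjoin_top_transfer {E : Type} [Field E] (i1 i2 : Algebra ℚ E) (a : E)
    (h : @IntermediateField.adjoin ℚ _ E _ i1 {a} = @Top.top _ _) :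
    @IntermediateField.adjoin ℚ _ E _ i2 {a} = @Top.top _ _ := by
  have : i1 = i2 := Subsingleton.elim _ _
  subst this
  exact h

theorem adjoin_self_top (α : K) :
    @IntermediateField.adjoin ℚ _ (ℚ⟮α⟯ : IntermediateField ℚ K) _ (IntermediateField.algebra' _)
      {(⟨α, IntermediateField.mem_adjoin_simple_self ℚ α⟩ : ℚ⟮α⟯)} = @Top.top _ _ := by
  have h1 : IntermediateField.map (ℚ⟮α⟯).val
      (@IntermediateField.adjoin ℚ _ (ℚ⟮α⟯ : IntermediateField ℚ K) _
        (IntermediateField.algebra' _)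
        {(⟨α, IntermediateField.mem_adjoin_simple_self ℚ α⟩ : ℚ⟮α⟯)}) = ℚ⟮α⟯ := by
    rw [IntermediateField.adjoin_map, Set.image_singleton]
    rfl
  apply IntermediateField.map_injective (ℚ⟮α⟯).val
  rw [h1]
  ext x
  simp [IntermediateField.mem_map]

/-- If `α B ⊆ 𝓞 K` and `|α| ≤ R` at all infinite places then the discriminant of the field
generated by `α` is at most `N(B) ^ (2 (n - 1)) (2 R) ^ (n (n - 1))`. -/
theorem disc_bound_sub {n : ℕ} (hn : Module.finrank ℚ K = n) (α : K)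
    (B : Ideal (𝓞 K)) (hB : B ≠ ⊥) (hαB : ∀ b ∈ B, ∃ c : 𝓞 K, α * (b : K) = (c : K)) {R : ℝ}
    (hR1 : 1 ≤ 2 * R) (hR : ∀ w : InfinitePlace K, w α ≤ R) :
    |(discr ↥(ℚ⟮α⟯) : ℝ)| ≤ (Ideal.absNorm B : ℝ) ^ (2 * (n - 1)) * (2 * R) ^ (n * (n - 1)) := by
  set E := ℚ⟮α⟯ with hE
  set m := Module.finrank ℚ E with hm
  have hm1 : 1 ≤ m := Module.finrank_pos
  have hmn : m ≤ n := by
    rw [← hn, hm]
    exact Submodule.finrank_le (Subalgebra.toSubmodule E.toSubalgebra)
  have hαE : α ∈ E := IntermediateField.mem_adjoin_simple_self ℚ α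
  let a : E := ⟨α, hαE⟩
  have ha : ℚ⟮a⟯ = ⊤ := adjoin_top_transfer _ _ a (adjoin_self_top α)
  set B' := B.comap (algebraMap (𝓞 E) (𝓞 K)) with hB'
  have hB'0 : B' ≠ ⊥ := by
    intro h
    have h1 : (Ideal.absNorm B : 𝓞 E) ∈ B' := by
      rw [hB', Ideal.mem_comap, map_natCast]
      exact Ideal.absNorm_mem B
    rw [h, Ideal.mem_bot] at h1
    have h2 : Ideal.absNorm B = 0 := by exact_mod_cast h1
    exact hB (Ideal.absNorm_eq_zero_iff.mp h2)
  have key := disc_bound_frac (K := E) (n := m) rfl a ha B' hB'0 (by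
    intro b hb
    obtain ⟨c, hc⟩ := hαB (algebraMap (𝓞 E) (𝓞 K) b) hb
    have h1 : IsIntegral ℤ (a * (b : E)) := by
      have h2 : IsIntegral ℤ (algebraMap E K (a * (b : E))) := by
        have h3 : algebraMap E K (a * (b : E)) = (c : K) := by
          rw [← hc, map_mul]
          rfl
        rw [h3]
        exact RingOfIntegers.isIntegral_coe c
      exact (isIntegral_algebraMap_iff (algebraMap E K).injective).mp h2
    exact ⟨⟨_, h1⟩, rfl⟩) (R := R) (by
    intro w
    obtain ⟨w', rfl⟩ := InfinitePlace.comap_surjective (K := K) w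
    rw [InfinitePlace.comap_apply]
    exact hR w')
  have hB1 : (1 : ℝ) ≤ Ideal.absNorm B := by
    have : Ideal.absNorm B ≠ 0 := by rwa [Ne, Ideal.absNorm_eq_zero_iff]
    exact_mod_cast Nat.one_le_iff_ne_zero.mpr this
  have h1 : (Ideal.absNorm B' : ℝ) ^ (2 * (m - 1)) ≤ (Ideal.absNorm B : ℝ) ^ (2 * (n - 1)) := by
    have h2 : (Ideal.absNorm B' : ℝ) ≤ Ideal.absNorm B := by
      exact_mod_cast absNorm_comap_le E B hB
    calc (Ideal.absNorm B' : ℝ) ^ (2 * (m - 1)) ≤ (Ideal.absNorm B : ℝ) ^ (2 * (m - 1)) := by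
          gcongr
      _ ≤ _ := pow_le_pow_right₀ hB1 (by omega)
  have h3 : (2 * R) ^ (m * (m - 1)) ≤ (2 * R) ^ (n * (n - 1)) :=
    pow_le_pow_right₀ hR1 (Nat.mul_le_mul hmn (by omega))
  calc |(discr E : ℝ)| ≤ (Ideal.absNorm B' : ℝ) ^ (2 * (m - 1)) * (2 * R) ^ (m * (m - 1)) := key
    _ ≤ _ := by
      have : (0 : ℝ) ≤ (2 * R) ^ (m * (m - 1)) := by positivity
      gcongr

end Pool.Agent.H46LT
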