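import Pool.Agent.TH847.LG.Fin
import Pool.Agent.H46LT.Sub

/-! The small ideals inequality: many ideals of small norm whose quotients do not lie in proper
subfields give a saving for the torsion of the class group. -/

set_option autoImplicit false

namespace Pool.Agent.H46LT

open NumberField Finset Pool.Agent.TH847.LS Pool.Agent.TH847.LG NumberField.InfinitePlace
open IntermediateField
open scoped Classical nonZeroDivisors

variable {K : Type} [Field K] [NumberField K]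

/-- the size of the quotient of two balanced elements -/
theorem quot_size {n : ℕ} (hn : Module.finrank ℚ K = n) {l : ℕ} (_hl : 1 ≤ l)
    {a b g g' : 𝓞 K} (ha : a ≠ 0) (hb : b ≠ 0) (hg : g ≠ 0) (hg' : g' ≠ 0)
    (hab : ∀ w : InfinitePlace K, |Lw w (a : K) - Lw w (b : K)| < 1)
    (hgb : ∀ w : InfinitePlace K, |Lw w (g : K)| ≤ 2 * l)
    (hgb' : ∀ w : InfinitePlace K, |Lw w (g' : K)| ≤ 2 * l)
    {P Q : Ideal (𝓞 K)} (hP : P ≠ ⊥) (hQ : Q ≠ ⊥)
    (hspan : Ideal.span {a ^ l * g'} * Q ^ l = Ideal.span {b ^ l * g} * P ^ l)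
    (hPQ : Ideal.absNorm P ≤ Ideal.absNorm Q) (w : InfinitePlace K) :
    w (((a ^ l * g' : 𝓞 K) : K) / ((b ^ l * g : 𝓞 K) : K)) ≤ Real.exp (5 * l) := by
  have hn0 : 0 < n := by rw [← hn]; exact (Module.finrank_pos (R := ℚ) (M := K))
  have hnr : (0 : ℝ) < n := by exact_mod_cast hn0
  have hlr : (0 : ℝ) ≤ l := by positivity
  have haK : (a : K) ≠ 0 := by exact_mod_cast ha
  have hbK : (b : K) ≠ 0 := by exact_mod_cast hb
  have hgK : (g : K) ≠ 0 := by exact_mod_cast hg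
  have hgK' : (g' : K) ≠ 0 := by exact_mod_cast hg'
  have hx0 : a ^ l * g' ≠ 0 := mul_ne_zero (pow_ne_zero _ ha) hg'
  have hy0 : b ^ l * g ≠ 0 := mul_ne_zero (pow_ne_zero _ hb) hg
  have hxK : (((a ^ l * g' : 𝓞 K)) : K) ≠ 0 := by exact_mod_cast hx0
  have hyK : (((b ^ l * g : 𝓞 K)) : K) ≠ 0 := by exact_mod_cast hy0
  -- norms
  have hN : (Algebra.norm ℤ (a ^ l * g')).natAbs * Ideal.absNorm Q ^ l =
      (Algebra.norm ℤ (b ^ l * g)).natAbs * Ideal.absNorm P ^ l := by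
    have := congrArg Ideal.absNorm hspan
    rwa [map_mul, map_mul, map_pow, map_pow, Ideal.absNorm_span_singleton,
      Ideal.absNorm_span_singleton] at this
  have hP0 : 0 < Ideal.absNorm P := Nat.pos_of_ne_zero (by rwa [Ne, Ideal.absNorm_eq_zero_iff])
  have hQ0 : 0 < Ideal.absNorm Q := Nat.pos_of_ne_zero (by rwa [Ne, Ideal.absNorm_eq_zero_iff])
  have hNle : (Algebra.norm ℤ (a ^ l * g')).natAbs ≤ (Algebra.norm ℤ (b ^ l * g)).natAbs := by
    have h1 : Ideal.absNorm P ^ l ≤ Ideal.absNorm Q ^ l := Nat.pow_le_pow_left hPQ l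
    have h2 : 0 < Ideal.absNorm Q ^ l := pow_pos hQ0 l
    by_contra hcon
    push Not at hcon
    have h3 : (Algebra.norm ℤ (b ^ l * g)).natAbs * Ideal.absNorm P ^ l <
        (Algebra.norm ℤ (a ^ l * g')).natAbs * Ideal.absNorm Q ^ l := by
      calc _ ≤ (Algebra.norm ℤ (b ^ l * g)).natAbs * Ideal.absNorm Q ^ l :=
            Nat.mul_le_mul_left _ h1
        _ < _ := Nat.mul_lt_mul_of_pos_right hcon h2
    omega
  have hnr' : ∀ x : 𝓞 K, |((Algebra.norm ℚ (x : K) : ℚ) : ℝ)| =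
      ((Algebra.norm ℤ x).natAbs : ℝ) := by
    intro x
    rw [← Algebra.coe_norm_int, Nat.cast_natAbs]
    push_cast
    rfl
  have hLdiff : Real.log |((Algebra.norm ℚ ((a ^ l * g' : 𝓞 K) : K) : ℚ) : ℝ)| ≤
      Real.log |((Algebra.norm ℚ ((b ^ l * g : 𝓞 K) : K) : ℚ) : ℝ)| := by
    rw [hnr', hnr']
    have h1 : (Algebra.norm ℤ (a ^ l * g')).natAbs ≠ 0 := by
      rw [Ne, Int.natAbs_eq_zero]
      exact Algebra.norm_ne_zero_iff.2 hx0
    refine Real.log_le_log (by exact_mod_cast Nat.pos_of_ne_zero h1) (by exact_mod_cast hNle)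
  -- the balanced sizes
  have e1 : Lw w ((a ^ l * g' : 𝓞 K) : K) = l * Lw w (a : K) + Lw w (g' : K) := by
    push_cast
    rw [Lw_mul w (pow_ne_zero _ haK) hgK', Lw_pow]
  have e2 : Lw w ((b ^ l * g : 𝓞 K) : K) = l * Lw w (b : K) + Lw w (g : K) := by
    push_cast
    rw [Lw_mul w (pow_ne_zero _ hbK) hgK, Lw_pow]
  have h2 := abs_lt.mp (hab w)
  have h3 := abs_le.mp (hgb w)
  have h4 := abs_le.mp (hgb' w)
  have h5 : (l : ℝ) * (Lw w (a : K) - Lw w (b : K)) ≤ l * 1 :=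
    mul_le_mul_of_nonneg_left h2.2.le hlr
  have h6 : Lw w ((a ^ l * g' : 𝓞 K) : K) - Lw w ((b ^ l * g : 𝓞 K) : K) ≤ 5 * l := by
    rw [e1, e2]
    nlinarith
  unfold Lw at h6
  rw [hn] at h6
  have h7 : (Real.log |((Algebra.norm ℚ ((a ^ l * g' : 𝓞 K) : K) : ℚ) : ℝ)|) / (n : ℝ) ≤
      (Real.log |((Algebra.norm ℚ ((b ^ l * g : 𝓞 K) : K) : ℚ) : ℝ)|) / n :=
    div_le_div_of_nonneg_right hLdiff hnr.le
  have hwx := w_pos w hxK
  have hwy := w_pos w hyK
  rw [map_div₀, ← Real.log_le_iff_le_exp (div_pos hwx hwy), Real.log_div hwx.ne' hwy.ne']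
  linarith

/-- the small ideals inequality -/
theorem ev3 {n : ℕ} (hn : Module.finrank ℚ K = n) {l : ℕ} (hl : 1 ≤ l) (N : ℕ)
    (hN : 2 ^ n * √|(discr K : ℝ)| < N) (ι : Type) [Fintype ι]
    (P : ι → (Ideal (𝓞 K))⁰) (Y : ℝ) (hY : ∀ i, (Ideal.absNorm (P i : Ideal (𝓞 K)) : ℝ) ≤ Y)
    (hgood : ∀ i j, i ≠ j → ∀ x y : 𝓞 K, x ≠ 0 → y ≠ 0 →
      Ideal.span {x} * (P j : Ideal (𝓞 K)) ^ l = Ideal.span {y} * (P i : Ideal (𝓞 K)) ^ l →
      Y ^ (2 * l * (n - 1)) * (2 * Real.exp (5 * l)) ^ (n * (n - 1)) <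
        |(discr ↥(ℚ⟮(x : K) / (y : K)⟯) : ℝ)|) :
    (Fintype.card ι : ℝ) * (Nat.card {c : ClassGroup (𝓞 K) // c ^ l = 1} : ℝ) ≤
      ∑ J ∈ FI K N, (1 + Real.log ((N : ℝ) / Ideal.absNorm J)) ^ n := by
  have hA : ∀ c : {c : ClassGroup (𝓞 K) // c ^ l = 1}, ∃ (A : (Ideal (𝓞 K))⁰)
      (γ : 𝓞 K), ClassGroup.mk0 A = c.1 ∧
      (A : Ideal (𝓞 K)) ^ l = Ideal.span {γ} ∧ γ ≠ 0 ∧
      ∀ w : InfinitePlace K, |Lw w (γ : K)| ≤ 2 * l :=
    fun c => exists_rep hl c.1 c.2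
  choose A γ hA1 hA2 hA3 hA4 using hA
  -- the key contradiction
  have key0 : ∀ (i j : ι) (c c' : {c : ClassGroup (𝓞 K) // c ^ l = 1}) (a b : 𝓞 K),
      a ≠ 0 → b ≠ 0 → i ≠ j →
      (∀ w : InfinitePlace K, |Lw w (a : K) - Lw w (b : K)| < 1) →
      Ideal.span {a ^ l * γ c'} * (P j : Ideal (𝓞 K)) ^ l =
        Ideal.span {b ^ l * γ c} * (P i : Ideal (𝓞 K)) ^ l →
      Ideal.absNorm (P i : Ideal (𝓞 K)) ≤ Ideal.absNorm (P j : Ideal (𝓞 K)) → False := by
    intro i j c c' a b ha hb hij hw hspan hle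
    have hx0 : a ^ l * γ c' ≠ 0 := mul_ne_zero (pow_ne_zero _ ha) (hA3 c')
    have hy0 : b ^ l * γ c ≠ 0 := mul_ne_zero (pow_ne_zero _ hb) (hA3 c)
    have htop := hgood i j hij _ _ hx0 hy0 hspan
    have hPi : (P i : Ideal (𝓞 K)) ≠ ⊥ := nonZeroDivisors.coe_ne_zero _
    have hPj : (P j : Ideal (𝓞 K)) ≠ ⊥ := nonZeroDivisors.coe_ne_zero _
    have hsize := quot_size hn hl ha hb (hA3 c) (hA3 c') hw (hA4 c) (hA4 c') hPi hPj hspan hle
    have hyK : (((b ^ l * γ c : 𝓞 K)) : K) ≠ 0 := by exact_mod_cast hy0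
    have hB0 : (P j : Ideal (𝓞 K)) ^ l ≠ ⊥ := pow_ne_zero _ hPj
    have h2l : (1 : ℝ) ≤ 2 * Real.exp (5 * l) := by
      have := Real.one_le_exp (show (0 : ℝ) ≤ 5 * l by positivity)
      linarith
    have hbd := disc_bound_sub hn (((a ^ l * γ c' : 𝓞 K) : K) / ((b ^ l * γ c : 𝓞 K) : K))
      ((P j : Ideal (𝓞 K)) ^ l) hB0 (by
      intro t ht
      have h1 : (a ^ l * γ c') * t ∈ Ideal.span {b ^ l * γ c} * (P i : Ideal (𝓞 K)) ^ l := by
        rw [← hspan]
        exact Ideal.mul_mem_mul (Ideal.mem_span_singleton_self _) ht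
      have h2 := Ideal.mul_le_left h1
      rw [Ideal.mem_span_singleton] at h2
      obtain ⟨c0, hc0⟩ := h2
      refine ⟨c0, ?_⟩
      have h3 : (((a ^ l * γ c' : 𝓞 K)) : K) * (t : K) = (((b ^ l * γ c : 𝓞 K)) : K) * (c0 : K) := by
        exact_mod_cast congrArg (algebraMap (𝓞 K) K) hc0
      rw [div_mul_eq_mul_div, h3, mul_div_cancel_left₀ _ hyK]) h2l hsize
    have h1 : (Ideal.absNorm ((P j : Ideal (𝓞 K)) ^ l) : ℝ) ^ (2 * (n - 1)) ≤
        Y ^ (2 * l * (n - 1)) := by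
      rw [map_pow]
      push_cast
      rw [← pow_mul]
      have : l * (2 * (n - 1)) = 2 * l * (n - 1) := by ring
      rw [this]
      exact pow_le_pow_left₀ (Nat.cast_nonneg _) (hY j) _
    have h2 : (0 : ℝ) ≤ (2 * Real.exp (5 * l)) ^ (n * (n - 1)) := by positivity
    have h3 := mul_le_mul_of_nonneg_right h1 h2
    linarith
  have key := pack hn N hN (ι × {c : ClassGroup (𝓞 K) // c ^ l = 1})
    (fun i => A i.2 * P i.1) (by
      rintro ⟨p, c⟩ ⟨q, c'⟩ a b ha hb hab hw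
      simp only [Submonoid.coe_mul] at hab
      have e1 : Ideal.span {a ^ l * γ c'} * (P q : Ideal (𝓞 K)) ^ l =
          Ideal.span {b ^ l * γ c} * (P p : Ideal (𝓞 K)) ^ l := by
        have e2 := congrArg (fun I => I ^ l) hab
        simp only [mul_pow, Ideal.span_singleton_pow, hA2] at e2
        rw [← Ideal.span_singleton_mul_span_singleton, ← Ideal.span_singleton_mul_span_singleton,
          mul_assoc, mul_assoc]
        exact e2
      have hpq : p = q := by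
        by_contra hne
        rcases le_total (Ideal.absNorm (P p : Ideal (𝓞 K))) (Ideal.absNorm (P q : Ideal (𝓞 K)))
          with h | h
        · exact key0 p q c c' a b ha hb hne hw e1 h
        · exact key0 q p c' c b a hb ha (Ne.symm hne)
            (fun w => by rw [abs_sub_comm]; exact hw w) e1.symm h
      subst hpq
      have hc : c = c' := by
        have hP0 : (P p : Ideal (𝓞 K)) ≠ 0 := nonZeroDivisors.coe_ne_zero _
        have e1 : Ideal.span {a} * (A c' : Ideal (𝓞 K)) =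
            Ideal.span {b} * (A c : Ideal (𝓞 K)) := by
          rw [← mul_assoc, ← mul_assoc] at hab
          exact mul_right_cancel₀ hP0 hab
        have e2 : ClassGroup.mk0 (A c') = ClassGroup.mk0 (A c) := by
          rw [ClassGroup.mk0_eq_mk0_iff]
          exact ⟨a, b, ha, hb, e1⟩
        rw [hA1, hA1] at e2
        exact Subtype.ext e2.symm
      rw [hc])
  rw [Fintype.card_prod] at key
  rw [Nat.card_eq_fintype_card]
  push_cast at key
  exact key

end Pool.Agent.H46LT
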