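import Mathlib

/-! Valuations of elements of a subfield at two primes lying over the same unramified prime. -/

set_option autoImplicit false

namespace Pool.Agent.H46LT

open NumberField Finset IntermediateField UniqueFactorizationMonoid IsDedekindDomain
open scoped Classical nonZeroDivisors

variable {K : Type} [Field K] [NumberField K]

/-- the number of times a prime ideal divides an ideal -/
noncomputable def cnt (P I : Ideal (𝓞 K)) : ℕ := (normalizedFactors I).count P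

theorem cnt_mul (P : Ideal (𝓞 K)) {I J : Ideal (𝓞 K)} (hI : I ≠ ⊥) (hJ : J ≠ ⊥) :
    cnt P (I * J) = cnt P I + cnt P J := by
  unfold cnt
  rw [normalizedFactors_mul hI hJ, Multiset.count_add]

theorem cnt_pow (P : Ideal (𝓞 K)) (I : Ideal (𝓞 K)) (l : ℕ) :
    cnt P (I ^ l) = l * cnt P I := by
  unfold cnt
  rw [normalizedFactors_pow, Multiset.count_nsmul]

/-- the adic valuation of a quotient -/
theorem val_div (w : HeightOneSpectrum (𝓞 K)) {x y : 𝓞 K} (hx : x ≠ 0) (hy : y ≠ 0) :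
    w.valuation K ((x : K) / (y : K)) =
      WithZero.exp ((cnt w.asIdeal (Ideal.span {y}) : ℤ) - cnt w.asIdeal (Ideal.span {x})) := by
  have h : ∀ t : 𝓞 K, t ≠ 0 → w.valuation K (t : K) =
      WithZero.exp (-(cnt w.asIdeal (Ideal.span {t}) : ℤ)) := by
    intro t ht
    rw [HeightOneSpectrum.valuation_of_algebraMap,
      HeightOneSpectrum.intValuation_eq_exp_neg_multiplicity w ht]
    congr 3
    have hs : Ideal.span {t} ≠ (0 : Ideal (𝓞 K)) := by
      rw [Ne, Ideal.zero_eq_bot, Ideal.span_singleton_eq_bot]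
      exact ht
    apply multiplicity_eq_of_emultiplicity_eq_some
    rw [emultiplicity_eq_count_normalizedFactors w.irreducible hs]
    unfold cnt
    rw [normalize_eq]
  rw [map_div₀, h x hx, h y hy, ← WithZero.exp_sub]
  congr 1
  ring

/-- two primes over the same prime of a subfield `E`, unramified over `ℚ`, have the same
valuations on `E` -/
theorem cnt_eq_of_mem (E : IntermediateField ℚ K) {p : ℕ} (hp : p.Prime)
    (hpD : ¬ (p : ℤ) ∣ discr K) {P P' : Ideal (𝓞 K)} (hP : P.IsPrime) (hP' : P'.IsPrime)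
    (hpP : (p : 𝓞 K) ∈ P) (hpP' : (p : 𝓞 K) ∈ P')
    (hcomap : P.comap (algebraMap (𝓞 E) (𝓞 K)) = P'.comap (algebraMap (𝓞 E) (𝓞 K)))
    {x y : 𝓞 K} (hx : x ≠ 0) (hy : y ≠ 0) (hz : (x : K) / (y : K) ∈ E) :
    (cnt P (Ideal.span {y}) : ℤ) - cnt P (Ideal.span {x}) =
      cnt P' (Ideal.span {y}) - cnt P' (Ideal.span {x}) := by
  have hpZ : Prime (p : ℤ) := Nat.prime_iff_prime_int.mp hp
  have hp0 : (p : 𝓞 K) ≠ 0 := by exact_mod_cast hp.ne_zero
  have hne : P ≠ ⊥ := by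
    rintro rfl
    exact hp0 (by simpa using hpP)
  have hne' : P' ≠ ⊥ := by
    rintro rfl
    exact hp0 (by simpa using hpP')
  set Q := P.comap (algebraMap (𝓞 E) (𝓞 K)) with hQ
  have hpE0 : (p : 𝓞 E) ≠ 0 := by exact_mod_cast hp.ne_zero
  have hpQ : (p : 𝓞 E) ∈ Q := by
    rw [hQ, Ideal.mem_comap, map_natCast]
    exact hpP
  have hQne : Q ≠ ⊥ := by
    intro h
    rw [h] at hpQ
    exact hpE0 (by simpa using hpQ)
  have hQp : Q.IsPrime := Ideal.IsPrime.comap _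
  let w : HeightOneSpectrum (𝓞 K) := ⟨P, hP, hne⟩
  let w' : HeightOneSpectrum (𝓞 K) := ⟨P', hP', hne'⟩
  let v : HeightOneSpectrum (𝓞 E) := ⟨Q, hQp, hQne⟩
  have hl1 : w.asIdeal.LiesOver v.asIdeal := ⟨hQ⟩
  have hl2 : w'.asIdeal.LiesOver v.asIdeal := ⟨hcomap⟩
  have hun := (not_dvd_discr_iff_forall_mem K (𝓞 K) hpZ).mp hpD
  have hu1 : Algebra.IsUnramifiedAt ℤ P := hun P hP (by exact_mod_cast hpP)
  have hu2 : Algebra.IsUnramifiedAt ℤ P' := hun P' hP' (by exact_mod_cast hpP')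
  have he1 : v.asIdeal.ramificationIdx' w.asIdeal = 1 := by
    have h1 : Algebra.IsUnramifiedAt (𝓞 E) P := Algebra.IsUnramifiedAt.of_restrictScalars ℤ P
    rw [Ideal.ramificationIdx'_eq_ramificationIdx v.asIdeal w.asIdeal hQne]
    exact Ideal.ramificationIdx_eq_one P (𝓞 E)
  have he2 : v.asIdeal.ramificationIdx' w'.asIdeal = 1 := by
    have h1 : Algebra.IsUnramifiedAt (𝓞 E) P' := Algebra.IsUnramifiedAt.of_restrictScalars ℤ P'
    rw [Ideal.ramificationIdx'_eq_ramificationIdx v.asIdeal w'.asIdeal hQne]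
    exact Ideal.ramificationIdx_eq_one P' (𝓞 E)
  have k1 := HeightOneSpectrum.valuation_liesOver (K := E) K v w ⟨(x : K) / (y : K), hz⟩
  have k2 := HeightOneSpectrum.valuation_liesOver (K := E) K v w' ⟨(x : K) / (y : K), hz⟩
  rw [he1, pow_one] at k1
  rw [he2, pow_one] at k2
  have k3 : w.valuation K ((x : K) / (y : K)) = w'.valuation K ((x : K) / (y : K)) := by
    exact k1.symm.trans k2
  rw [val_div w hx hy, val_div w' hx hy, WithZero.exp_inj] at k3
  exact k3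

theorem cnt_prime {P Q : Ideal (𝓞 K)} (hQ : Prime Q) : cnt P Q = if P = Q then 1 else 0 := by
  unfold cnt
  rw [normalizedFactors_irreducible hQ.irreducible, normalize_eq, Multiset.count_singleton]

theorem cnt_one (P : Ideal (𝓞 K)) : cnt P 1 = 0 := by
  unfold cnt
  rw [normalizedFactors_one]
  simp

theorem cnt_prod (S : Finset (Ideal (𝓞 K))) (hS : ∀ P ∈ S, Prime P) (f : Ideal (𝓞 K) → ℕ)
    (P : Ideal (𝓞 K)) : cnt P (∏ Q ∈ S, Q ^ f Q) = if P ∈ S then f P else 0 := by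
  induction S using Finset.induction_on with
  | empty =>
    rw [Finset.prod_empty, cnt_one]
    simp
  | insert a s ha ih =>
    have h1 : ∀ Q ∈ s, Prime Q := fun Q hQ => hS Q (Finset.mem_insert_of_mem hQ)
    have ha' : Prime a := hS a (Finset.mem_insert_self _ _)
    rw [Finset.prod_insert ha, cnt_mul P (pow_ne_zero _ ha'.ne_zero)
      (Finset.prod_ne_zero_iff.mpr fun Q hQ => pow_ne_zero _ (h1 Q hQ).ne_zero), cnt_pow, ih h1,
      cnt_prime ha']
    by_cases h2 : P = a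
    · subst h2
      simp [ha]
    · simp [h2]

/-- an ideal supported at the primes over `p` whose exponents are pairwise different -/
theorem exists_distinguishing {n : ℕ} (hn : Module.finrank ℚ K = n) {p : ℕ} (hp : p.Prime) :
    ∃ A : (Ideal (𝓞 K))⁰, Ideal.absNorm (A : Ideal (𝓞 K)) ^ 2 ≤ p ^ (n * (n - 1)) ∧
      (∀ P P' : Ideal (𝓞 K), P.IsPrime → P'.IsPrime → (p : 𝓞 K) ∈ P → (p : 𝓞 K) ∈ P' →
        cnt P (A : Ideal (𝓞 K)) = cnt P' (A : Ideal (𝓞 K)) → P = P') ∧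
      (∀ P : Ideal (𝓞 K), (p : 𝓞 K) ∉ P → cnt P (A : Ideal (𝓞 K)) = 0) := by
  have hp0 : (p : 𝓞 K) ≠ 0 := by exact_mod_cast hp.ne_zero
  have hs0 : Ideal.span {(p : 𝓞 K)} ≠ (0 : Ideal (𝓞 K)) := by
    rw [Ne, Ideal.zero_eq_bot, Ideal.span_singleton_eq_bot]
    exact hp0
  set S : Finset (Ideal (𝓞 K)) := (normalizedFactors (Ideal.span {(p : 𝓞 K)})).toFinset with hS
  have hSprime : ∀ P ∈ S, Prime P := by
    intro P hP
    rw [hS, Multiset.mem_toFinset] at hP
    exact prime_of_normalized_factor P hP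
  have hmemS : ∀ P : Ideal (𝓞 K), P ∈ S ↔ P.IsPrime ∧ (p : 𝓞 K) ∈ P := by
    intro P
    rw [hS, Multiset.mem_toFinset, mem_normalizedFactors_iff hs0]
    constructor
    · rintro ⟨h1, h2⟩
      exact ⟨Ideal.isPrime_of_prime h1, by
        rw [Ideal.dvd_iff_le, Ideal.span_singleton_le_iff_mem] at h2; exact h2⟩
    · rintro ⟨h1, h2⟩
      have hne : P ≠ ⊥ := by
        rintro rfl
        exact hp0 (by simpa using h2)
      exact ⟨Ideal.prime_of_isPrime hne h1, by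
        rw [Ideal.dvd_iff_le, Ideal.span_singleton_le_iff_mem]; exact h2⟩
  set g := S.card with hg
  have hdvd : ∀ P ∈ S, P ∣ Ideal.span {(p : 𝓞 K)} := by
    intro P hP
    rw [Ideal.dvd_iff_le, Ideal.span_singleton_le_iff_mem]
    exact ((hmemS P).mp hP).2
  have hnormp : Ideal.absNorm (Ideal.span {(p : 𝓞 K)}) = p ^ n := by
    rw [Ideal.absNorm_span_natCast, RingOfIntegers.rank, hn]
  -- the norm of the product of the primes
  have hprod_dvd : ∏ P ∈ S, P ∣ Ideal.span {(p : 𝓞 K)} :=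
    Finset.prod_primes_dvd _ hSprime hdvd
  have hpn : 0 < p ^ n := pow_pos hp.pos n
  have hNle : Ideal.absNorm (∏ P ∈ S, P) ≤ p ^ n := by
    have h1 := Ideal.absNorm_dvd_absNorm_of_le (Ideal.le_of_dvd hprod_dvd)
    rw [hnormp] at h1
    exact Nat.le_of_dvd hpn h1
  have hge : ∀ P ∈ S, p ≤ Ideal.absNorm P := by
    intro P hP
    have h1 := Ideal.absNorm_dvd_absNorm_of_le (Ideal.le_of_dvd (hdvd P hP))
    rw [hnormp] at h1
    obtain ⟨k, _, hk⟩ := (Nat.dvd_prime_pow hp).mp h1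
    rw [hk]
    have hk0 : k ≠ 0 := by
      rintro rfl
      rw [pow_zero, Ideal.absNorm_eq_one_iff] at hk
      exact ((hmemS P).mp hP).1.ne_top hk
    exact Nat.le_self_pow hk0 p
  have hgn : g ≤ n := by
    have h1 : p ^ g ≤ p ^ n := by
      calc p ^ g = ∏ P ∈ S, p := by rw [Finset.prod_const]
        _ ≤ ∏ P ∈ S, Ideal.absNorm P := Finset.prod_le_prod' hge
        _ = Ideal.absNorm (∏ P ∈ S, P) := (map_prod _ _ _).symm
        _ ≤ p ^ n := hNle
    exact (Nat.pow_le_pow_iff_right hp.one_lt).mp h1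
  let e : Ideal (𝓞 K) → ℕ := fun P => if h : P ∈ S then (S.equivFin ⟨P, h⟩ : ℕ) else 0
  have he_lt : ∀ P ∈ S, e P < g := by
    intro P hP
    simp only [e, hP, dif_pos]
    exact (S.equivFin ⟨P, hP⟩).2
  have he_inj : ∀ P ∈ S, ∀ P' ∈ S, e P = e P' → P = P' := by
    intro P hP P' hP' h
    simp only [e, hP, hP', dif_pos] at h
    have h2 := S.equivFin.injective (Fin.ext h)
    exact congrArg Subtype.val h2
  set A1 : Ideal (𝓞 K) := ∏ P ∈ S, P ^ e P with hA1
  set A2 : Ideal (𝓞 K) := ∏ P ∈ S, P ^ (g - 1 - e P) with hA2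
  have hA10 : A1 ≠ 0 := Finset.prod_ne_zero_iff.mpr fun P hP => pow_ne_zero _ (hSprime P hP).ne_zero
  have hA20 : A2 ≠ 0 := Finset.prod_ne_zero_iff.mpr fun P hP => pow_ne_zero _ (hSprime P hP).ne_zero
  have hmul : A1 * A2 = (∏ P ∈ S, P) ^ (g - 1) := by
    rw [hA1, hA2, ← Finset.prod_mul_distrib, ← Finset.prod_pow]
    refine Finset.prod_congr rfl fun P hP => ?_
    rw [← pow_add]
    congr 1
    have := he_lt P hP
    omega
  have hNmul : Ideal.absNorm A1 * Ideal.absNorm A2 ≤ p ^ (n * (n - 1)) := by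
    rw [← map_mul, hmul, map_pow, pow_mul]
    calc Ideal.absNorm (∏ P ∈ S, P) ^ (g - 1) ≤ (p ^ n) ^ (g - 1) :=
          Nat.pow_le_pow_left hNle _
      _ ≤ (p ^ n) ^ (n - 1) := Nat.pow_le_pow_right hpn (by omega)
  have hfin : ∀ (f : Ideal (𝓞 K) → ℕ) (A : Ideal (𝓞 K)) (hA : A ≠ 0),
      A = ∏ P ∈ S, P ^ f P → (∀ P ∈ S, ∀ P' ∈ S, f P = f P' → P = P') →
      Ideal.absNorm A ^ 2 ≤ p ^ (n * (n - 1)) →
      ∃ A : (Ideal (𝓞 K))⁰, Ideal.absNorm (A : Ideal (𝓞 K)) ^ 2 ≤ p ^ (n * (n - 1)) ∧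
      (∀ P P' : Ideal (𝓞 K), P.IsPrime → P'.IsPrime → (p : 𝓞 K) ∈ P → (p : 𝓞 K) ∈ P' →
        cnt P (A : Ideal (𝓞 K)) = cnt P' (A : Ideal (𝓞 K)) → P = P') ∧
      (∀ P : Ideal (𝓞 K), (p : 𝓞 K) ∉ P → cnt P (A : Ideal (𝓞 K)) = 0) := by
    intro f A hA hAf hinj hN
    refine ⟨⟨A, mem_nonZeroDivisors_of_ne_zero hA⟩, hN, ?_, ?_⟩
    · intro P P' hP hP' hpP hpP' hc
      have h1 : P ∈ S := (hmemS P).mpr ⟨hP, hpP⟩
      have h2 : P' ∈ S := (hmemS P').mpr ⟨hP', hpP'⟩
      change cnt P A = cnt P' A at hc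
      rw [hAf, cnt_prod S hSprime, cnt_prod S hSprime, if_pos h1, if_pos h2] at hc
      exact hinj P h1 P' h2 hc
    · intro P hP
      change cnt P A = 0
      rw [hAf, cnt_prod S hSprime, if_neg]
      intro h
      exact hP ((hmemS P).mp h).2
  rcases le_total (Ideal.absNorm A1) (Ideal.absNorm A2) with h | h
  · exact hfin e A1 hA10 hA1 he_inj (by
      rw [sq]; exact (Nat.mul_le_mul_left _ h).trans hNmul)
  · exact hfin (fun P => g - 1 - e P) A2 hA20 hA2 (by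
      intro P hP P' hP' h3
      apply he_inj P hP P' hP'
      have h4 := he_lt P hP
      have h5 := he_lt P' hP'
      omega) (by
      rw [sq]; exact (Nat.mul_le_mul_right _ h).trans hNmul)

end Pool.Agent.H46LT
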