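import Pool.Agent.H46LT.Sum
import Pool.Agent.H46LT.Loc

/-! The main inequality: primes with two prime factors over one prime of each subfield of small
discriminant. -/

set_option autoImplicit false

namespace Pool.Agent.H46LT

open NumberField Finset IntermediateField
open scoped Classical nonZeroDivisors

/-- `p` has two different prime factors in `K` over one and the same prime of `E` -/
def SplitsOver {K : Type} [Field K] [NumberField K] (E : IntermediateField ℚ K) (p : ℕ) : Prop :=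
  ∃ P P' : Ideal (𝓞 K), P.IsPrime ∧ P'.IsPrime ∧ (p : 𝓞 K) ∈ P ∧ (p : 𝓞 K) ∈ P' ∧ P ≠ P' ∧
    P.comap (algebraMap (𝓞 E) (𝓞 K)) = P'.comap (algebraMap (𝓞 E) (𝓞 K))

theorem master (n : ℕ) (hn2 : 2 ≤ n) : ∃ C : ℝ, 0 < C ∧
    ∀ (K : Type) [Field K] [NumberField K], Module.finrank ℚ K = n → ∀ l : ℕ, 1 ≤ l →
    ∀ (Z : ℝ) (S : Finset ℕ), 0 ≤ Z →
    (∀ p ∈ S, p.Prime ∧ ¬ (p : ℤ) ∣ discr K ∧ (p : ℝ) ≤ Z) →
    (∀ p ∈ S, ∀ E : IntermediateField ℚ K,
      |(discr E : ℝ)| ≤ Z ^ (l * n * (n - 1) ^ 2) * (2 * Real.exp (5 * l)) ^ (n * (n - 1)) →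
      SplitsOver E p) →
    ((S.card : ℝ) + 1) * (Nat.card {c : ClassGroup (𝓞 K) // c ^ l = 1} : ℝ) ≤
      C * √|(discr K : ℝ)| * (Real.log |(discr K : ℝ)|) ^ (n - 1) := by
  obtain ⟨C, hC0, hC⟩ := engine n hn2
  refine ⟨C, hC0, ?_⟩
  intro K _ _ hn l hl Z S hZ hS hsplit
  choose A hA1 hA2 hA3 using fun p : {p // p ∈ S} => exists_distinguishing hn (hS p.1 p.2).1
  set Y : ℝ := √(Z ^ (n * (n - 1))) with hY
  have hZn : 0 ≤ Z ^ (n * (n - 1)) := pow_nonneg hZ _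
  have hYpow : Y ^ (2 * l * (n - 1)) = Z ^ (l * n * (n - 1) ^ 2) := by
    have e : 2 * l * (n - 1) = 2 * (l * (n - 1)) := by ring
    rw [e, pow_mul, hY, Real.sq_sqrt hZn, ← pow_mul]
    congr 1
    ring
  have key := hC K hn l hl {p // p ∈ S} A Y (by
    intro i
    rw [hY]
    apply Real.le_sqrt_of_sq_le
    calc (Ideal.absNorm (A i : Ideal (𝓞 K)) : ℝ) ^ 2 ≤ (i.1 : ℝ) ^ (n * (n - 1)) := by
          exact_mod_cast hA1 i
      _ ≤ Z ^ (n * (n - 1)) := pow_le_pow_left₀ (by positivity) (hS i.1 i.2).2.2 _) (by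
    intro i j hij x y hx hy hspan
    rw [hYpow]
    by_contra hcon
    push Not at hcon
    obtain ⟨P, P', hP, hP', hpP, hpP', hne, hcomap⟩ := hsplit i.1 i.2 _ hcon
    have hi := hS i.1 i.2
    have hj := hS j.1 j.2
    have hmem : (x : K) / (y : K) ∈ ℚ⟮(x : K) / (y : K)⟯ :=
      IntermediateField.mem_adjoin_simple_self ℚ _
    have h1 := cnt_eq_of_mem _ hi.1 hi.2.1 hP hP' hpP hpP' hcomap hx hy hmem
    have hcop : Nat.Coprime i.1 j.1 :=
      (Nat.coprime_primes hi.1 hj.1).mpr fun h => hij (Subtype.ext h)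
    have hnot : ∀ R : Ideal (𝓞 K), R.IsPrime → ((i.1 : ℕ) : 𝓞 K) ∈ R →
        ((j.1 : ℕ) : 𝓞 K) ∉ R := by
      intro R hR h2 h3
      have h4 := Nat.isCoprime_iff_coprime.mpr hcop
      obtain ⟨a, b, hab⟩ := h4
      apply hR.ne_top
      rw [Ideal.eq_top_iff_one]
      have h5 : (1 : 𝓞 K) = (a : 𝓞 K) * ((i.1 : ℕ) : 𝓞 K) + (b : 𝓞 K) * ((j.1 : ℕ) : 𝓞 K) := by
        have := congrArg (fun t : ℤ => (t : 𝓞 K)) hab
        push_cast at this
        exact this.symm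
      rw [h5]
      exact R.add_mem (R.mul_mem_left _ h2) (R.mul_mem_left _ h3)
    have hx0 : Ideal.span {x} ≠ ⊥ := by rwa [Ne, Ideal.span_singleton_eq_bot]
    have hy0 : Ideal.span {y} ≠ ⊥ := by rwa [Ne, Ideal.span_singleton_eq_bot]
    have hAi : (A i : Ideal (𝓞 K)) ^ l ≠ ⊥ := pow_ne_zero _ (nonZeroDivisors.coe_ne_zero _)
    have hAj : (A j : Ideal (𝓞 K)) ^ l ≠ ⊥ := pow_ne_zero _ (nonZeroDivisors.coe_ne_zero _)
    have hc : ∀ R : Ideal (𝓞 K), R.IsPrime → ((i.1 : ℕ) : 𝓞 K) ∈ R →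
        cnt R (Ideal.span {x}) = cnt R (Ideal.span {y}) + l * cnt R (A i : Ideal (𝓞 K)) := by
      intro R hR h2
      have h3 := congrArg (cnt R) hspan
      rw [cnt_mul R hx0 hAj, cnt_mul R hy0 hAi, cnt_pow, cnt_pow,
        hA3 j R (hnot R hR h2), mul_zero, add_zero] at h3
      exact h3
    have h2 := hc P hP hpP
    have h3 := hc P' hP' hpP'
    rw [h2, h3] at h1
    push_cast at h1
    have hl0 : (l : ℤ) ≠ 0 := by exact_mod_cast (by omega : l ≠ 0)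
    have h4 : (l : ℤ) * cnt P (A i : Ideal (𝓞 K)) = l * cnt P' (A i : Ideal (𝓞 K)) := by
      linarith
    have h5 := mul_left_cancel₀ hl0 h4
    exact hne (hA2 i P P' hP hP' hpP hpP' (by exact_mod_cast h5)))
  rwa [Fintype.card_coe] at key

end Pool.Agent.H46LT
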