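import Mathlib
import Pool.Agent.H46LT.Master

/-! Decomposition groups at unramified primes. -/

set_option autoImplicit false

namespace Pool.Agent.H46LT

open NumberField Finset IntermediateField
open scoped Classical nonZeroDivisors Pointwise

variable {K : Type} [Field K] [NumberField K]

attribute [local instance] Ideal.Quotient.field in
/-- the decomposition group of an unramified prime is cyclic -/
theorem stab_cyclic [IsGalois ℚ K] {p : ℕ} (hp : p.Prime) (hpD : ¬ (p : ℤ) ∣ discr K)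
    {P : Ideal (𝓞 K)} (hP : P.IsPrime) (hpP : (p : 𝓞 K) ∈ P) :
    IsCyclic (MulAction.stabilizer Gal(K/ℚ) P) := by
  have hpZ : Prime (p : ℤ) := Nat.prime_iff_prime_int.mp hp
  have hun := (not_dvd_discr_iff_forall_mem K (𝓞 K) hpZ).mp hpD
  have hu1 : Algebra.IsUnramifiedAt ℤ P := hun P hP (by exact_mod_cast hpP)
  have hmax : (Ideal.span {(p : ℤ)}).IsMaximal :=
    PrincipalIdealRing.isMaximal_of_irreducible hpZ.irreducible
  have hlies : P.LiesOver (Ideal.span {(p : ℤ)}) :=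
    (Ideal.liesOver_span_iff hP.ne_top hpZ).mpr (by exact_mod_cast hpP)
  have hPmax : P.IsMaximal := Ideal.IsMaximal.of_liesOver_isMaximal P (Ideal.span {(p : ℤ)})
  have h1 := Ideal.card_inertia_eq_ramificationIdxIn (G := Gal(K/ℚ)) (Ideal.span {(p : ℤ)}) P
  rw [Ideal.ramificationIdxIn_eq_ramificationIdx (Ideal.span {(p : ℤ)}) P Gal(K/ℚ),
    Ideal.ramificationIdx_eq_one P ℤ] at h1
  have h2 : P.inertia Gal(K/ℚ) = ⊥ := by
    exact Subgroup.card_eq_one.mp h1
  have hinj : Function.Injective (Ideal.Quotient.stabilizerHom P (Ideal.span {(p : ℤ)}) Gal(K/ℚ)) := by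
    rw [← MonoidHom.ker_eq_bot_iff, Ideal.Quotient.ker_stabilizerHom, eq_bot_iff]
    intro σ hσ
    have h3 : (σ : Gal(K/ℚ)) ∈ P.inertia Gal(K/ℚ) := fun x => hσ x
    rw [h2, Subgroup.mem_bot] at h3
    rw [Subgroup.mem_bot]
    exact Subtype.ext h3
  have hfin : Finite (𝓞 K ⧸ P) := by
    apply Ideal.finiteQuotientOfFreeOfNeBot P
    rintro rfl
    have : (p : 𝓞 K) = 0 := by simpa using hpP
    exact hp.ne_zero (by exact_mod_cast this)
  have hcyc : IsCyclic ((𝓞 K ⧸ P) ≃ₐ[ℤ ⧸ Ideal.span {(p : ℤ)}] (𝓞 K ⧸ P)) := inferInstance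
  exact isCyclic_of_injective _ hinj

/-- the automorphisms fixing all primes over `p` -/
def coreStab (K : Type) [Field K] [NumberField K] (p : ℕ) : Subgroup Gal(K/ℚ) where
  carrier := {τ | ∀ P : Ideal (𝓞 K), P.IsPrime → (p : 𝓞 K) ∈ P → τ • P = P}
  one_mem' := fun P _ _ => one_smul _ P
  mul_mem' := by
    intro a b ha hb P hP hpP
    rw [mul_smul, hb P hP hpP, ha P hP hpP]
  inv_mem' := by
    intro a ha P hP hpP
    rw [inv_smul_eq_iff, ha P hP hpP]

theorem smul_natCast (τ : Gal(K/ℚ)) (p : ℕ) : τ • (p : 𝓞 K) = (p : 𝓞 K) := by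
  exact map_natCast (MulSemiringAction.toRingHom Gal(K/ℚ) (𝓞 K) τ) p

theorem mem_smul_natCast (τ : Gal(K/ℚ)) (p : ℕ) {P : Ideal (𝓞 K)} (h : (p : 𝓞 K) ∈ P) :
    (p : 𝓞 K) ∈ τ • P := by
  have := Ideal.smul_mem_pointwise_smul τ _ _ h
  rwa [smul_natCast] at this

theorem coreStab_normal (p : ℕ) : (coreStab K p).Normal := by
  constructor
  intro τ hτ σ P hP hpP
  rw [mul_smul, mul_smul]
  have h1 : (σ⁻¹ • P).IsPrime := Ideal.IsPrime.smul _
  rw [hτ (σ⁻¹ • P) h1 (mem_smul_natCast _ p hpP), smul_inv_smul]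

theorem coreStab_cyclic [IsGalois ℚ K] {p : ℕ} (hp : p.Prime) (hpD : ¬ (p : ℤ) ∣ discr K) :
    IsCyclic (coreStab K p) := by
  have hpZ : Prime (p : ℤ) := Nat.prime_iff_prime_int.mp hp
  have hmax : (Ideal.span {(p : ℤ)}).IsMaximal :=
    PrincipalIdealRing.isMaximal_of_irreducible hpZ.irreducible
  obtain ⟨P, hP, hl⟩ := (inferInstance : Nonempty ((Ideal.span {(p : ℤ)}).primesOver (𝓞 K)))
  have hpP : (p : 𝓞 K) ∈ P := by
    have := (Ideal.liesOver_span_iff hP.ne_top hpZ).mp hl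
    exact_mod_cast this
  have := stab_cyclic hp hpD hP hpP
  have hle : coreStab K p ≤ MulAction.stabilizer Gal(K/ℚ) P := fun τ hτ => hτ P hP hpP
  exact Subgroup.isCyclic_of_le hle

/-- if no two primes over `p` agree on `E` then the fixed field of `coreStab` lies in `E` -/
theorem fixedField_coreStab_le [IsGalois ℚ K] {p : ℕ} (E : IntermediateField ℚ K)
    (h : ¬ SplitsOver E p) : IntermediateField.fixedField (coreStab K p) ≤ E := by
  have h1 : E.fixingSubgroup ≤ coreStab K p := by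
    intro τ hτ P hP hpP
    by_contra hne
    apply h
    refine ⟨τ • P, P, Ideal.IsPrime.smul _, hP, mem_smul_natCast _ p hpP, hpP, hne, ?_⟩
    ext x
    rw [Ideal.mem_comap, Ideal.mem_comap, Ideal.mem_pointwise_smul_iff_inv_smul_mem]
    have h2 : τ⁻¹ • (algebraMap (𝓞 E) (𝓞 K) x) = algebraMap (𝓞 E) (𝓞 K) x := by
      apply RingOfIntegers.ext
      have h3 : τ⁻¹ ∈ E.fixingSubgroup := inv_mem hτ
      exact h3 (x : E)
    rw [h2]
  calc IntermediateField.fixedField (coreStab K p) ≤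
        IntermediateField.fixedField E.fixingSubgroup := IntermediateField.fixedField_antitone h1
    _ = E := IsGalois.fixedField_fixingSubgroup E

/-- discriminants of nested subfields -/
theorem discr_le_of_le {E F : IntermediateField ℚ K} (h : E ≤ F) :
    |(discr E : ℝ)| ≤ |(discr F : ℝ)| := by
  let i : Algebra E F := (IntermediateField.inclusion h).toAlgebra
  have h1 := discr_dvd_discr E F
  have h2 : (discr E).natAbs ≤ (discr F).natAbs :=
    Nat.le_of_dvd (Int.natAbs_pos.mpr (discr_ne_zero F)) (Int.natAbs_dvd_natAbs.mpr h1)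
  have h3 : ∀ z : ℤ, |(z : ℝ)| = (z.natAbs : ℝ) := by
    intro z
    rw [Nat.cast_natAbs]
    push_cast
    rfl
  rw [h3, h3]
  exact_mod_cast h2

end Pool.Agent.H46LT
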