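import Pool.Agent.H46LT.Ind

/-! The inductive argument for Galois fields: the induction. -/

set_option autoImplicit false

namespace Pool.Agent.H46LT

open NumberField Finset IntermediateField Pool.Agent.H46CN Pool.Agent.TH847.LS Filter
open scoped Classical nonZeroDivisors Pointwise

/-- the case in which every obstructing prime has `N` in its decomposition groups -/
theorem case_A (n : ℕ) (hn2 : 2 ≤ n) : ∃ A : ℕ, 1 ≤ A ∧ ∃ C : ℝ, 0 < C ∧
    ∀ (K : Type) [Field K] [NumberField K] [IsGalois ℚ K], Module.finrank ℚ K = n →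
    ∀ l : ℕ, 1 ≤ l → ∀ (Z : ℝ), 0 ≤ Z → ∀ N : Subgroup Gal(K/ℚ), IsCyclic N →
    rootGroup N ≠ ⊤ →
    (∀ p : ℕ, p.Prime → ¬ (p : ℤ) ∣ discr K → (p : ℝ) ≤ Z → ∀ E : IntermediateField ℚ K,
      |(discr E : ℝ)| ≤ Z ^ (l * n * (n - 1) ^ 2) * (2 * Real.exp (5 * l)) ^ (n * (n - 1)) →
      ¬ SplitsOver E p → N ≤ coreStab K p) →
    ∀ M : ℕ, ((M ^ A : ℕ) : ℝ) ≤ Z →
    2 ^ (n + 2) * √|(discr (IntermediateField.fixedField N) : ℝ)| ≤ M →
    ((M : ℝ) - 2 * Real.log |(discr K : ℝ)|) * tors K l ≤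
      C * √|(discr K : ℝ)| * (Real.log |(discr K : ℝ)|) ^ (n - 1) := by
  obtain ⟨A, hA1, hA⟩ := count_fixed n
  obtain ⟨C, hC0, hC⟩ := master n hn2
  refine ⟨A, hA1, C, hC0, ?_⟩
  intro K _ _ _ hn l hl Z hZ N hcyc hroot hbad M hMZ hMd
  set k := IntermediateField.fixedField (rootGroup N) with hk
  have hkN : k ≤ IntermediateField.fixedField N :=
    IntermediateField.fixedField_antitone (le_rootGroup N hcyc)
  have hdk := discr_le_of_le hkN
  have h1 := hA k (finrank_fixedField_ge _ hroot) (finrank_fixedField_le hn k) M (by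
    refine le_trans ?_ hMd
    gcongr)
  set D := (discr K).natAbs with hD
  have hD0 : D ≠ 0 := Int.natAbs_ne_zero.mpr (discr_ne_zero K)
  set S := (goodP D Z).filter (fun p => ¬ FullySplit k p) with hS
  have hmem : ∀ p ∈ S, p.Prime ∧ ¬ (p : ℤ) ∣ discr K ∧ (p : ℝ) ≤ Z := by
    intro p hp
    rw [hS, mem_filter, mem_goodP hZ] at hp
    refine ⟨hp.1.1, ?_, hp.1.2.2⟩
    intro h
    apply hp.1.2.1
    rw [hD]
    exact Int.natCast_dvd.mp h
  have key := hC K hn l hl Z S hZ hmem (by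
    intro p hp E hE
    by_contra hcon
    have hp1 := hmem p hp
    have h2 := hbad p hp1.1 hp1.2.1 hp1.2.2 E hE hcon
    rw [hS, mem_filter] at hp
    exact hp.2 (fullySplit_key hp1.1 hp1.2.1 N h2))
  have h2 : M ≤ S.card + D.primeFactors.card := by
    refine h1.trans ((Finset.card_le_card ?_).trans (Finset.card_union_le _ _))
    intro p hp
    rw [mem_filter, mem_Icc] at hp
    rw [mem_union]
    by_cases hpD : p ∣ D
    · right
      exact Nat.mem_primeFactors.mpr ⟨hp.2.1, hpD, hD0⟩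
    · left
      rw [hS, mem_filter, mem_goodP hZ]
      refine ⟨⟨hp.2.1, hpD, ?_⟩, hp.2.2⟩
      refine le_trans ?_ hMZ
      exact_mod_cast hp.1.2
  have h3 := card_primeFactors_le hD0
  have h4 : (M : ℝ) ≤ S.card + D.primeFactors.card := by exact_mod_cast h2
  have h5 : (M : ℝ) - 2 * Real.log |(discr K : ℝ)| ≤ S.card + 1 := by
    rw [natAbs_cast, ← hD]
    linarith
  have hT : 0 ≤ tors K l := by unfold tors; positivity
  calc ((M : ℝ) - 2 * Real.log |(discr K : ℝ)|) * tors K l ≤ (S.card + 1) * tors K l := by gcongr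
    _ ≤ _ := key

/-- growth comparison -/
theorem ev_large (k : ℕ) (β B : ℝ) (hβ : 0 < β) : ∃ D₀ : ℝ, 3 ≤ D₀ ∧ ∀ x : ℝ, D₀ ≤ x →
    B ≤ x ^ (β / 2) ∧ 8 * Real.log x ≤ x ^ β ∧ (Real.log x) ^ k ≤ x ^ (β / 2) := by
  have hβ2 : 0 < β / 2 := by linarith
  have h1 : ∀ᶠ x : ℝ in atTop, B ≤ x ^ (β / 2) :=
    (tendsto_rpow_atTop hβ2).eventually_ge_atTop B
  have h2 : ∀ᶠ x : ℝ in atTop, 8 * Real.log x ≤ x ^ β := by
    have := (isLittleO_log_rpow_atTop hβ).bound (show (0 : ℝ) < 1 / 8 by norm_num)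
    filter_upwards [this, eventually_ge_atTop 1] with x hx hx1
    rw [Real.norm_of_nonneg (Real.log_nonneg hx1), Real.norm_of_nonneg (by positivity)] at hx
    linarith
  have h3 : ∀ᶠ x : ℝ in atTop, (Real.log x) ^ k ≤ x ^ (β / 2) := by
    have := (isLittleO_log_rpow_rpow_atTop (k : ℝ) hβ2).bound (show (0 : ℝ) < 1 by norm_num)
    filter_upwards [this, eventually_ge_atTop 1] with x hx hx1
    have hl := Real.log_nonneg hx1
    rw [Real.rpow_natCast, Real.norm_of_nonneg (by positivity),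
      Real.norm_of_nonneg (by positivity), one_mul] at hx
    exact hx
  obtain ⟨D₁, hD₁⟩ := eventually_atTop.mp (h1.and (h2.and h3))
  exact ⟨max D₁ 3, le_max_right _ _, fun x hx => hD₁ x ((le_max_left _ _).trans hx)⟩

/-- the inductive statement -/
def Claim (n l m : ℕ) : Prop := ∃ c δ C : ℝ, 0 < c ∧ c ≤ 1 / 2 ∧ 0 < δ ∧ δ ≤ 1 / 2 ∧ 0 < C ∧
  ∀ (K : Type) [Field K] [NumberField K] [IsGalois ℚ K], Module.finrank ℚ K = n →
    (∀ N : Subgroup Gal(K/ℚ), N.Normal → IsCyclic N → N ≠ ⊥ → rootGroup N ≠ ⊤) →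
    ∀ N : Subgroup Gal(K/ℚ), N.Normal → IsCyclic N → N ≠ ⊥ → Nat.card N ≤ m →
    |(discr (IntermediateField.fixedField N) : ℝ)| ≤ |(discr K : ℝ)| ^ c →
    tors K l ≤ C * |(discr K : ℝ)| ^ (1 / 2 - δ)

theorem claim_zero (n l : ℕ) : Claim n l 0 := by
  refine ⟨1 / 2, 1 / 2, 1, by norm_num, le_rfl, by norm_num, le_rfl, by norm_num, ?_⟩
  intro K _ _ _ hn _ N _ _ _ hcard
  have : 0 < Nat.card N := Nat.card_pos
  omega

theorem discr_fixed_bot {K : Type} [Field K] [NumberField K] :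
    (discr (IntermediateField.fixedField (⊥ : Subgroup Gal(K/ℚ))) : ℤ) = discr K := by
  have h3 : IntermediateField.fixedField (⊥ : Subgroup Gal(K/ℚ)) = ⊤ :=
    IntermediateField.fixedField_bot
  rw [h3]
  exact discr_eq_discr_of_algEquiv _ IntermediateField.topEquiv

/-- a numerical estimate -/
theorem num_B {x c z c' C₂ E0 d₁ d₂ : ℝ} {a n : ℕ} (hx1 : 1 ≤ x) (hC : 0 ≤ C₂) (hE : 0 ≤ E0)
    (h1 : 0 ≤ d₁) (h1' : d₁ ≤ x ^ c) (h2 : 0 ≤ d₂) (h2' : d₂ ≤ (x ^ z) ^ a * E0)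
    (g4 : C₂ * E0 ^ (n ^ 2) ≤ x ^ (c' / 2)) (hexp : (c + z * a) * n ^ 2 ≤ c' / 2) :
    C₂ * (d₁ * d₂) ^ (n ^ 2) ≤ x ^ c' := by
  have hxp : 0 < x := by linarith
  have e1 : x ^ c * (x ^ z) ^ a = x ^ (c + z * a) := by
    rw [← Real.rpow_natCast, ← Real.rpow_mul hxp.le, ← Real.rpow_add hxp]
  have e2 : (x ^ c * (x ^ z) ^ a) ^ (n ^ 2) ≤ x ^ (c' / 2) := by
    rw [e1, ← Real.rpow_natCast, ← Real.rpow_mul hxp.le]
    apply Real.rpow_le_rpow_of_exponent_le hx1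
    push_cast
    exact hexp
  have e3 : 0 ≤ (x ^ c * (x ^ z) ^ a) ^ (n ^ 2) := by positivity
  calc C₂ * (d₁ * d₂) ^ (n ^ 2) ≤ C₂ * (x ^ c * ((x ^ z) ^ a * E0)) ^ (n ^ 2) := by gcongr
    _ = (C₂ * E0 ^ (n ^ 2)) * (x ^ c * (x ^ z) ^ a) ^ (n ^ 2) := by ring
    _ ≤ x ^ (c' / 2) * x ^ (c' / 2) := by gcongr
    _ = x ^ c' := by rw [← Real.rpow_add hxp]; congr 1; ring

/-- a smaller subgroup -/
theorem smaller_sub {K : Type} [Field K] [NumberField K] [IsGalois ℚ K] {p : ℕ}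
    (N : Subgroup Gal(K/ℚ)) (hNn : N.Normal) (hNc : IsCyclic N) {c' : ℝ} (hc'2 : c' ≤ 1 / 2)
    (hx3 : 3 ≤ |(discr K : ℝ)|)
    (hd : |(discr (IntermediateField.fixedField (N ⊓ coreStab K p)) : ℝ)| ≤
      |(discr K : ℝ)| ^ c') (hnot : ¬ N ≤ coreStab K p) :
    (N ⊓ coreStab K p).Normal ∧ IsCyclic ↥(N ⊓ coreStab K p) ∧ N ⊓ coreStab K p ≠ ⊥ ∧
      Nat.card ↥(N ⊓ coreStab K p) < Nat.card N := by
  set x : ℝ := |(discr K : ℝ)| with hx
  have hxp : 0 < x := by linarith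
  have hcn' : (coreStab K p).Normal := coreStab_normal p
  refine ⟨Subgroup.normal_inf_normal N (coreStab K p), Subgroup.isCyclic_of_le inf_le_left, ?_, ?_⟩
  · intro h0
    rw [h0, discr_fixed_bot, ← hx] at hd
    have h1 : x ^ c' ≤ x ^ (1 / 2 : ℝ) := Real.rpow_le_rpow_of_exponent_le (by linarith) hc'2
    rw [← Real.sqrt_eq_rpow] at h1
    have h2 : x ≤ √x := hd.trans h1
    have h3 : √x * √x = x := Real.mul_self_sqrt hxp.le
    have h4 : 0 < √x := Real.sqrt_pos.mpr hxp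
    nlinarith
  · by_contra hcon
    push Not at hcon
    apply hnot
    have h1 : N ⊓ coreStab K p = N := Subgroup.eq_of_le_of_card_ge inf_le_left hcon
    rw [← h1]
    exact inf_le_right

/-- the final estimate when many primes are good -/
theorem num_A {x y M CA T β L : ℝ} (hx : 1 ≤ x) (hy0 : 0 < y)
    (hyh : x ^ (β / 2) * x ^ (β / 2) = y) (hT : 0 ≤ T) (hCA : 0 ≤ CA)
    (h1 : y / 4 ≤ M) (h2 : M * T ≤ CA * √x * L) (h3 : L ≤ x ^ (β / 2)) :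
    T ≤ 4 * CA * x ^ (1 / 2 - β / 2) := by
  have hxp : 0 < x := by linarith
  have h2 : y / 4 * T ≤ CA * √x * x ^ (β / 2) := by
    calc y / 4 * T ≤ M * T := by gcongr
      _ ≤ CA * √x * L := h2
      _ ≤ CA * √x * x ^ (β / 2) := by gcongr
  have e1 : x ^ (1 / 2 - β / 2) * x ^ (β / 2) = √x := by
    rw [← Real.rpow_add hxp, Real.sqrt_eq_rpow]
    congr 1
    ring
  have h4 : (y / 4) * T ≤ (y / 4) * (4 * CA * x ^ (1 / 2 - β / 2)) := by
    refine h2.trans (le_of_eq ?_)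
    rw [← e1, ← hyh]
    ring
  exact le_of_mul_le_mul_left h4 (by positivity)

/-- the choice of the counting parameter -/
theorem num_M {x z β c d : ℝ} {A n : ℕ} (hA : 1 ≤ A) (hβ : β = z / A) (hx1 : 1 ≤ x)
    (hcβ : c ≤ β) (hd : d ≤ x ^ c) (g1 : 2 ^ (n + 3) ≤ x ^ (β / 2)) (g2 : 8 * Real.log x ≤ x ^ β) :
    ∃ M : ℕ, ((M ^ A : ℕ) : ℝ) ≤ x ^ z ∧ 2 ^ (n + 2) * √d ≤ M ∧
      x ^ β / 4 ≤ (M : ℝ) - 2 * Real.log x := by
  have hxp : 0 < x := by linarith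
  have hAr : (1 : ℝ) ≤ A := by exact_mod_cast hA
  set y : ℝ := x ^ β with hy
  have hy0 : 0 < y := Real.rpow_pos_of_pos hxp _
  have hyh : x ^ (β / 2) * x ^ (β / 2) = y := by
    rw [← Real.rpow_add hxp, hy]; congr 1; ring
  have hyA : y ^ A = x ^ z := by
    rw [hy, ← Real.rpow_natCast, ← Real.rpow_mul hxp.le, hβ]
    congr 1
    field_simp
  have hMy : (⌊y⌋₊ : ℝ) ≤ y := Nat.floor_le hy0.le
  have hMy' : y < ⌊y⌋₊ + 1 := Nat.lt_floor_add_one y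
  have hh : (8 : ℝ) ≤ x ^ (β / 2) := by
    refine le_trans ?_ g1
    calc (8 : ℝ) = 2 ^ 3 := by norm_num
      _ ≤ 2 ^ (n + 3) := pow_le_pow_right₀ (by norm_num) (by omega)
  have hy2 : 2 ≤ y := by rw [← hyh]; nlinarith
  have hMhalf : y / 2 ≤ ⌊y⌋₊ := by linarith
  have hsqrt : √d ≤ x ^ (β / 2) := by
    rw [Real.sqrt_le_left (by positivity), sq, hyh, hy]
    refine hd.trans ?_
    exact Real.rpow_le_rpow_of_exponent_le hx1 hcβ
  refine ⟨⌊y⌋₊, ?_, ?_, by linarith⟩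
  · push_cast
    rw [← hyA]
    exact pow_le_pow_left₀ (by positivity) hMy A
  · refine le_trans ?_ hMhalf
    rw [← hyh]
    have e1 : (2 : ℝ) ^ (n + 3) = 2 * 2 ^ (n + 2) := by ring
    calc 2 ^ (n + 2) * √d ≤ 2 ^ (n + 2) * x ^ (β / 2) := by gcongr
      _ = (2 ^ (n + 3) * x ^ (β / 2)) / 2 := by rw [e1]; ring
      _ ≤ (x ^ (β / 2) * x ^ (β / 2)) / 2 := by gcongr

/-- weakening a bound -/
theorem num_W {x T C₁ C₂ δ₁ δ : ℝ} (hx1 : 1 ≤ x) (h1 : 0 ≤ C₁) (h2 : 0 ≤ C₂) (hδ : δ ≤ δ₁)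
    (h : T ≤ C₁ * x ^ (1 / 2 - δ₁)) : T ≤ (C₁ + C₂) * x ^ (1 / 2 - δ) := by
  have hxp : 0 < x := by linarith
  have h5 : x ^ (1 / 2 - δ₁) ≤ x ^ (1 / 2 - δ) :=
    Real.rpow_le_rpow_of_exponent_le hx1 (by linarith)
  have h6 : 0 ≤ C₂ * x ^ (1 / 2 - δ) := by positivity
  calc T ≤ C₁ * x ^ (1 / 2 - δ₁) := h
    _ ≤ C₁ * x ^ (1 / 2 - δ) := by gcongr
    _ ≤ (C₁ + C₂) * x ^ (1 / 2 - δ) := by linarith

/-- the choice of parameters -/
theorem num_P (n a A : ℕ) (hn2 : 2 ≤ n) (ha : 1 ≤ a) (hA : 1 ≤ A) {c' : ℝ} (hc'0 : 0 < c')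
    (hc'2 : c' ≤ 1 / 2) : ∃ z c : ℝ, 0 < z ∧ 0 < c ∧ c ≤ 1 / 2 ∧ c ≤ z / A ∧
      (c + z * a) * n ^ 2 ≤ c' / 2 := by
  have har : (1 : ℝ) ≤ a := by exact_mod_cast ha
  have hnr : (2 : ℝ) ≤ n := by exact_mod_cast hn2
  have hAr : (1 : ℝ) ≤ A := by exact_mod_cast hA
  set z : ℝ := c' / (4 * a * n ^ 2) with hz
  have hz0 : 0 < z := by positivity
  set β : ℝ := z / A with hβ
  have hβ0 : 0 < β := by positivity
  set c : ℝ := min β (c' / (4 * n ^ 2)) with hc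
  have hc0 : 0 < c := lt_min hβ0 (by positivity)
  have hcn : c * n ^ 2 ≤ c' / 4 := by
    have h1 : c ≤ c' / (4 * n ^ 2) := min_le_right _ _
    calc c * n ^ 2 ≤ c' / (4 * n ^ 2) * n ^ 2 := by gcongr
      _ = c' / 4 := by field_simp
  have hc2 : c ≤ 1 / 2 := by
    have h1 : (1 : ℝ) ≤ n ^ 2 := one_le_pow₀ (by linarith)
    nlinarith
  have hzan : z * a * n ^ 2 = c' / 4 := by
    rw [hz]
    field_simp
  refine ⟨z, c, hz0, hc0, hc2, min_le_left _ _, ?_⟩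
  have : (c + z * a) * (n : ℝ) ^ 2 = c * n ^ 2 + z * a * n ^ 2 := by ring
  rw [this, hzan]
  linarith

theorem claim_step (n l m : ℕ) (hn2 : 2 ≤ n) (hl : 1 ≤ l) (h : Claim n l m) :
    Claim n l (m + 1) := by
  obtain ⟨c', δ', C', hc'0, hc'2, hδ'0, hδ'2, hC'0, hC'⟩ := h
  obtain ⟨A, hA1, CA, hCA0, hCA⟩ := case_A n hn2
  obtain ⟨C₂, hC₂1, hC₂⟩ := discr_inf_le n
  set a : ℕ := l * n * (n - 1) ^ 2 with ha
  have ha0 : 0 < a := Nat.mul_pos (Nat.mul_pos (by omega) (by omega)) (pow_pos (by omega) 2)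
  have hAr : (1 : ℝ) ≤ A := by exact_mod_cast hA1
  set E0 : ℝ := (2 * Real.exp (5 * l)) ^ (n * (n - 1)) with hE0
  have hE00 : 0 ≤ E0 := by positivity
  obtain ⟨z, c, hz0, hc0, hc2, hcβ, hexp⟩ := num_P n a A hn2 ha0 hA1 hc'0 hc'2
  obtain ⟨β, hβ⟩ : ∃ β : ℝ, β = z / A := ⟨_, rfl⟩
  have hβ0 : 0 < β := by rw [hβ]; positivity
  rw [← hβ] at hcβ
  obtain ⟨D₀, hD₀3, hD₀⟩ := ev_large (n - 1) β (2 ^ (n + 3)) hβ0
  obtain ⟨D₁, hD₁3, hD₁⟩ := ev_large 0 c' (C₂ * E0 ^ (n ^ 2)) hc'0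
  obtain ⟨C, hC0, hC⟩ := large_suffices n hn2 l hl (max D₀ D₁) (4 * CA + C') (min (β / 2) δ')
    (by positivity) ((min_le_right _ _).trans hδ'2)
  refine ⟨c, min (β / 2) δ', C, hc0, hc2, lt_min (by positivity) hδ'0,
    (min_le_right _ _).trans hδ'2, hC0, ?_⟩
  intro K _ _ _ hn hroot N hNn hNc hNb hNm hNd
  refine hC K hn ?_
  intro hDlarge
  set x : ℝ := |(discr K : ℝ)| with hx
  have hx0 : D₀ ≤ x := (le_max_left _ _).trans hDlarge
  have hx1 : D₁ ≤ x := (le_max_right _ _).trans hDlarge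
  have hx3 : 3 ≤ x := hD₀3.trans hx0
  have hx1' : 1 ≤ x := by linarith
  obtain ⟨g1, g2, g3⟩ := hD₀ x hx0
  obtain ⟨g4, -, -⟩ := hD₁ x hx1
  have hZ0 : 0 ≤ x ^ z := Real.rpow_nonneg (by linarith) _
  by_cases hbad : ∀ p : ℕ, p.Prime → ¬ (p : ℤ) ∣ discr K → (p : ℝ) ≤ x ^ z →
      ∀ E : IntermediateField ℚ K, |(discr E : ℝ)| ≤ (x ^ z) ^ a * E0 → ¬ SplitsOver E p →
      N ≤ coreStab K p
  · -- many primes are good
    obtain ⟨M, hMZ, hMd, h1⟩ := num_M hA1 hβ hx1' hcβ hNd g1 g2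
    have key := hCA K hn l hl (x ^ z) hZ0 N hNc (hroot N hNn hNc hNb) hbad M hMZ hMd
    rw [← hx] at key
    have hT : 0 ≤ tors K l := by unfold tors; positivity
    have hyh : x ^ (β / 2) * x ^ (β / 2) = x ^ β := by
      rw [← Real.rpow_add (by linarith)]; congr 1; ring
    have h3 : tors K l ≤ 4 * CA * x ^ (1 / 2 - β / 2) :=
      num_A hx1' (Real.rpow_pos_of_pos (by linarith) _) hyh hT hCA0.le h1 key g3
    exact num_W hx1' (by positivity) hC'0.le (min_le_left _ _) h3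
  · -- a smaller subgroup
    push Not at hbad
    obtain ⟨p, hp, hpD, hpZ, E, hE, hsp, hnot⟩ := hbad
    have hdE : |(discr (IntermediateField.fixedField (coreStab K p)) : ℝ)| ≤ (x ^ z) ^ a * E0 :=
      (discr_le_of_le (fixedField_coreStab_le E hsp)).trans hE
    have hd'' : |(discr (IntermediateField.fixedField (N ⊓ coreStab K p)) : ℝ)| ≤ x ^ c' :=
      (hC₂ K hn N (coreStab K p)).trans (num_B hx1' (by linarith) hE00 (abs_nonneg _) hNd
        (abs_nonneg _) hdE g4 hexp)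
    obtain ⟨hN'n, hN'c, hN'b, hlt⟩ := smaller_sub N hNn hNc hc'2 hx3 hd'' hnot
    have hcard : Nat.card ↥(N ⊓ coreStab K p) ≤ m := by omega
    have h1 := hC' K hn hroot _ hN'n hN'c hN'b hcard hd''
    rw [← hx] at h1
    have h2 := num_W (C₂ := 4 * CA) hx1' hC'0.le (by positivity) (min_le_right (β / 2) δ') h1
    rw [add_comm C'] at h2
    exact h2

theorem claim_all (n l m : ℕ) (hn2 : 2 ≤ n) (hl : 1 ≤ l) : Claim n l m := by
  induction m with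
  | zero => exact claim_zero n l
  | succ m ih => exact claim_step n l m hn2 hl ih

/-- power saving for Galois fields whose group has property (P) -/
theorem galois_saving (n l : ℕ) (hn2 : 2 ≤ n) (hl : 1 ≤ l) : ∃ δ C : ℝ, 0 < δ ∧ 0 < C ∧
    ∀ (K : Type) [Field K] [NumberField K] [IsGalois ℚ K], Module.finrank ℚ K = n →
    (∀ N : Subgroup Gal(K/ℚ), N.Normal → IsCyclic N → N ≠ ⊥ → rootGroup N ≠ ⊤) →
    tors K l ≤ C * |(discr K : ℝ)| ^ (1 / 2 - δ) := by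
  obtain ⟨c, δ', C', hc0, hc2, hδ'0, hδ'2, hC'0, hC'⟩ := claim_all n l n hn2 hl
  obtain ⟨CS, hCS0, hCS⟩ := saving_galois n hn2
  set a : ℕ := l * n * (n - 1) ^ 2 with ha
  have ha0 : 0 < a := Nat.mul_pos (Nat.mul_pos (by omega) (by omega)) (pow_pos (by omega) 2)
  have har : (1 : ℝ) ≤ a := by exact_mod_cast ha0
  have haR : ((l : ℝ) * n * ((n : ℝ) - 1) ^ 2) = a := by
    rw [ha]
    push_cast [Nat.cast_sub (show 1 ≤ n by omega)]
    ring
  set β : ℝ := c / a with hβ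
  have hβ0 : 0 < β := by positivity
  have hβ2 : β ≤ 1 / 2 := (div_le_self hc0.le har).trans hc2
  obtain ⟨D₀, hD₀3, hD₀⟩ := ev_large (n + 1) β 0 hβ0
  set δ : ℝ := min (β / 2) δ' with hδ
  have hδ0 : 0 < δ := lt_min (by positivity) hδ'0
  have hδ2 : δ ≤ 1 / 2 := (min_le_right _ _).trans hδ'2
  obtain ⟨C, hC0, hC⟩ := large_suffices n hn2 l hl D₀ (CS + C') δ (by positivity) hδ2
  refine ⟨δ, C, hδ0, hC0, ?_⟩
  intro K _ _ _ hn hroot
  refine hC K hn ?_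
  intro hDlarge
  set x : ℝ := |(discr K : ℝ)| with hx
  have hx3 : 3 ≤ x := hD₀3.trans hDlarge
  have hxp : 0 < x := by linarith
  have hx1' : 1 ≤ x := by linarith
  obtain ⟨-, -, g3⟩ := hD₀ x hDlarge
  by_cases hex : ∃ N : Subgroup Gal(K/ℚ), N.Normal ∧ IsCyclic N ∧ N ≠ ⊥ ∧
      |(discr (IntermediateField.fixedField N) : ℝ)| ≤ x ^ c
  · obtain ⟨N, hNn, hNc, hNb, hNd⟩ := hex
    have hcard : Nat.card N ≤ n := by
      rw [← hn, ← IsGalois.card_aut_eq_finrank ℚ K]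
      exact Subgroup.card_le_card_group N
    have h1 := hC' K hn hroot N hNn hNc hNb hcard hNd
    rw [← hx] at h1
    refine h1.trans ?_
    have h5 : x ^ (1 / 2 - δ') ≤ x ^ (1 / 2 - δ) :=
      Real.rpow_le_rpow_of_exponent_le hx1' (by linarith [min_le_right (β / 2) δ'])
    have h6 : 0 ≤ CS * x ^ (1 / 2 - δ) := by positivity
    calc C' * x ^ (1 / 2 - δ') ≤ C' * x ^ (1 / 2 - δ) := by gcongr
      _ ≤ (CS + C') * x ^ (1 / 2 - δ) := by linarith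
  · push Not at hex
    have hXx : x ^ c ≤ x := by
      calc x ^ c ≤ x ^ (1 : ℝ) := Real.rpow_le_rpow_of_exponent_le hx1' (by linarith)
        _ = x := Real.rpow_one x
    have key := hCS K hn l hl (x ^ c) (Real.one_le_rpow hx1' hc0.le) (by
      intro N hNn hNc
      by_cases hNb : N = ⊥
      · rw [hNb, discr_fixed_bot, ← hx]
        exact hXx
      · exact (hex N hNn hNc hNb).le)
    rw [← hx, haR] at key
    have e1 : (x ^ c) ^ (-(1 / (a : ℝ))) = x ^ (-β) := by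
      rw [← Real.rpow_mul hxp.le, hβ]
      congr 1
      ring
    rw [e1] at key
    have e2 : √x * x ^ (β / 2) * x ^ (-β) = x ^ (1 / 2 - β / 2) := by
      rw [Real.sqrt_eq_rpow, ← Real.rpow_add hxp, ← Real.rpow_add hxp]
      congr 1
      ring
    have h1 : tors K l ≤ CS * x ^ (1 / 2 - β / 2) := by
      calc tors K l ≤ CS * √x * (Real.log x) ^ (n + 1) * x ^ (-β) := key
        _ ≤ CS * √x * x ^ (β / 2) * x ^ (-β) := by gcongr
        _ = CS * (√x * x ^ (β / 2) * x ^ (-β)) := by ring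
        _ = CS * x ^ (1 / 2 - β / 2) := by rw [e2]
    refine h1.trans ?_
    have h5 : x ^ (1 / 2 - β / 2) ≤ x ^ (1 / 2 - δ) :=
      Real.rpow_le_rpow_of_exponent_le hx1' (by linarith [min_le_left (β / 2) δ'])
    have h6 : 0 ≤ C' * x ^ (1 / 2 - δ) := by positivity
    calc CS * x ^ (1 / 2 - β / 2) ≤ CS * x ^ (1 / 2 - δ) := by gcongr
      _ ≤ (CS + C') * x ^ (1 / 2 - δ) := by linarith

end Pool.Agent.H46LT
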