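import Pool.Agent.H46LT.Str
import Pool.Agent.H46LT.Ind2

/-! The general inequality for subfields of Galois fields. -/

set_option autoImplicit false

namespace Pool.Agent.H46LT

open NumberField Finset IntermediateField Pool.Agent.H46CN Pool.Agent.TH847.LS Filter
open scoped Classical nonZeroDivisors Pointwise

section defs
variable {L : Type} [Field L] [NumberField L]

/-- the elements of the root set have two fixed points on the cosets of a subgroup over `N` -/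
def Good (K : IntermediateField ℚ L) (N : Subgroup Gal(L/ℚ)) : Prop :=
  ∃ V : Subgroup Gal(L/ℚ), N ≤ V ∧ ∀ x ∈ RootSet K N, ∃ y₁ y₂ : Gal(L/ℚ),
    y₁⁻¹ * y₂ ∉ V ∧ y₁⁻¹ * x * y₁ ∈ V ∧ y₂⁻¹ * x * y₂ ∈ V

theorem rootSet_anti (K : IntermediateField ℚ L) {N N' : Subgroup Gal(L/ℚ)} (h : N ≤ N') :
    RootSet K N' ⊆ RootSet K N := fun _ hx y ν hν => hx y ν (h hν)

/-- a prime that does not split over a small field has its generators in the root set -/
theorem exists_gen [IsGalois ℚ L] {p : ℕ} (hp : p.Prime) (hpD : ¬ (p : ℤ) ∣ discr L) :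
    ∃ P : Ideal (𝓞 L), P.IsPrime ∧ (p : 𝓞 L) ∈ P ∧ ∃ x : Gal(L/ℚ),
      MulAction.stabilizer Gal(L/ℚ) P ≤ Subgroup.zpowers x := by
  have hpZ : Prime (p : ℤ) := Nat.prime_iff_prime_int.mp hp
  have hmax : (Ideal.span {(p : ℤ)}).IsMaximal :=
    PrincipalIdealRing.isMaximal_of_irreducible hpZ.irreducible
  obtain ⟨P, hP, hl⟩ := (inferInstance : Nonempty ((Ideal.span {(p : ℤ)}).primesOver (𝓞 L)))
  have hpP : (p : 𝓞 L) ∈ P := by
    have := (Ideal.liesOver_span_iff hP.ne_top hpZ).mp hl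
    exact_mod_cast this
  have hcyc := stab_cyclic hp hpD hP hpP
  obtain ⟨g, hg⟩ := hcyc.exists_generator
  refine ⟨P, hP, hpP, (g : Gal(L/ℚ)), ?_⟩
  intro x hx
  obtain ⟨k, hk⟩ := hg ⟨x, hx⟩
  refine ⟨k, ?_⟩
  have := congrArg (fun t : MulAction.stabilizer Gal(L/ℚ) P => (t : Gal(L/ℚ))) hk
  simpa using this

theorem discr_le_big (K : IntermediateField ℚ L) : |(discr K : ℝ)| ≤ |(discr L : ℝ)| := by
  have := discr_le_of_le (le_top : K ≤ ⊤)
  have h2 : discr (⊤ : IntermediateField ℚ L) = discr L :=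
    discr_eq_discr_of_algEquiv _ IntermediateField.topEquiv
  rwa [h2] at this

end defs

/-- the number of primes -/
theorem primes_ge {M A : ℕ} (hM : 1600 ≤ M) (hA : 2 ≤ A) :
    M ≤ ((Finset.Icc 1 (M ^ A)).filter (fun p => p.Prime ∧ True)).card := by
  have hMr : (1600 : ℝ) ≤ M := by exact_mod_cast hM
  have h1 := ten_le (m := M ^ 2) (by nlinarith)
  have h3 : Nat.primeCounting (M ^ 2) = ((Finset.Icc 1 (M ^ 2)).filter Nat.Prime).card := by
    rw [Nat.primeCounting, Nat.primeCounting', Nat.count_eq_card_filter_range]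
    congr 1
    ext p
    simp only [mem_filter, mem_range, mem_Icc]
    constructor
    · rintro ⟨h4, h5⟩
      exact ⟨⟨h5.one_lt.le, by omega⟩, h5⟩
    · rintro ⟨⟨h4, h5⟩, h6⟩
      exact ⟨by omega, h6⟩
  have h4 : ((Finset.Icc 1 (M ^ 2)).filter Nat.Prime).card ≤
      ((Finset.Icc 1 (M ^ A)).filter (fun p => p.Prime ∧ True)).card := by
    apply Finset.card_le_card
    intro p hp
    rw [mem_filter, mem_Icc] at hp ⊢
    exact ⟨⟨hp.1.1, hp.1.2.trans (Nat.pow_le_pow_right (by omega) hA)⟩, hp.2, trivial⟩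
  refine le_trans ?_ h4
  rw [← h3]
  have h5 : Real.log M ≤ M / 20 := by
    have e1 : (M : ℝ) = √M * √M := (Real.mul_self_sqrt (by linarith)).symm
    have e2 : (40 : ℝ) ≤ √M := Real.le_sqrt_of_sq_le (by linarith)
    have e3 := Real.log_le_sub_one_of_pos (show (0 : ℝ) < √M by linarith)
    rw [Real.log_sqrt (by linarith)] at e3
    nlinarith
  have h6 : (M : ℝ) * M ≤ M * (Nat.primeCounting (M ^ 2) : ℝ) := by
    push_cast at h1
    rw [Real.log_pow] at h1
    push_cast at h1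
    have h7 : (0 : ℝ) ≤ Nat.primeCounting (M ^ 2) := by positivity
    have h8 : (Nat.primeCounting (M ^ 2) : ℝ) * Real.log M ≤
        (Nat.primeCounting (M ^ 2) : ℝ) * (M / 20) := by gcongr
    nlinarith
  have h7 : (M : ℝ) ≤ (Nat.primeCounting (M ^ 2) : ℝ) := le_of_mul_le_mul_left h6 (by linarith)
  exact_mod_cast h7

/-- uniform counting for fixed fields -/
theorem count_fixed2 (n : ℕ) : ∃ A : ℕ, 2 ≤ A ∧
    ∀ (K : Type) [Field K] [NumberField K], 2 ≤ Module.finrank ℚ K → Module.finrank ℚ K ≤ n →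
    ∀ N : ℕ, 2 ^ (n + 2) * √|(discr K : ℝ)| ≤ N →
    N ≤ ((Finset.Icc 1 (N ^ A)).filter (fun p => p.Prime ∧ ¬ TwoSplit K p)).card := by
  have h : ∀ d : ℕ, ∃ A : ℕ, 1 ≤ A ∧ (2 ≤ d → ∀ (K : Type) [Field K] [NumberField K],
      Module.finrank ℚ K = d → ∀ N : ℕ,
      2 ^ (d + 2) * √|(discr K : ℝ)| ≤ N →
      N ≤ ((Finset.Icc 1 (N ^ A)).filter (fun p => p.Prime ∧ ¬ TwoSplit K p)).card) := by
    intro d
    by_cases hd : 2 ≤ d
    · obtain ⟨A, hA1, hA⟩ := nonsplit_count2 d hd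
      exact ⟨A, hA1, fun _ => hA⟩
    · exact ⟨1, le_rfl, fun h => absurd h hd⟩
  choose A hA1 hA using h
  refine ⟨∑ d ∈ Finset.range (n + 1), A d + 2, by omega, ?_⟩
  · intro K _ _ h2 hn N hN
    have hN' : 2 ^ (Module.finrank ℚ K + 2) * √|(discr K : ℝ)| ≤ N := by
      refine le_trans ?_ hN
      have : (2 : ℝ) ^ (Module.finrank ℚ K + 2) ≤ 2 ^ (n + 2) :=
        pow_le_pow_right₀ (by norm_num) (by omega)
      gcongr
    have h1 := hA _ h2 K rfl N hN'
    refine h1.trans (Finset.card_le_card ?_)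
    intro p hp
    rw [mem_filter, mem_Icc] at hp ⊢
    refine ⟨⟨hp.1.1, hp.1.2.trans ?_⟩, hp.2⟩
    have hN1 : 1 ≤ N := by
      rcases Nat.eq_zero_or_pos N with h0 | h0
      · rw [h0, zero_pow (by have := hA1 (Module.finrank ℚ K); omega)] at hp
        omega
      · exact h0
    have hs : A (Module.finrank ℚ K) ≤ ∑ d ∈ Finset.range (n + 1), A d :=
      Finset.single_le_sum (f := A) (fun _ _ => Nat.zero_le _) (mem_range.mpr (by omega))
    exact Nat.pow_le_pow_right hN1 (by omega)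

/-- the saving from a class of primes -/
theorem caseA_core (n : ℕ) (hn2 : 2 ≤ n) : ∃ C : ℝ, 0 < C ∧
    ∀ (L : Type) [Field L] [NumberField L] [IsGalois ℚ L] (K : IntermediateField ℚ L),
    Module.finrank ℚ K = n → ∀ l : ℕ, 1 ≤ l → ∀ (Z : ℝ), 0 ≤ Z → ∀ W : ℕ → Prop,
    (∀ p : ℕ, p.Prime → ¬ (p : ℤ) ∣ discr L → W p → ∀ E : IntermediateField ℚ K,
      |(discr E : ℝ)| ≤ Z ^ (l * n * (n - 1) ^ 2) * (2 * Real.exp (5 * l)) ^ (n * (n - 1)) →
      SplitsOver E p) →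
    ∀ M A : ℕ, ((M ^ A : ℕ) : ℝ) ≤ Z →
    M ≤ ((Finset.Icc 1 (M ^ A)).filter (fun p => p.Prime ∧ W p)).card →
    ((M : ℝ) - 2 * Real.log |(discr L : ℝ)|) * tors K l ≤
      C * √|(discr K : ℝ)| * (Real.log |(discr K : ℝ)|) ^ (n - 1) := by
  obtain ⟨C, hC0, hC⟩ := master n hn2
  refine ⟨C, hC0, ?_⟩
  intro L _ _ _ K hn l hl Z hZ W hW M A hMZ hM
  set D := (discr L).natAbs with hD
  have hD0 : D ≠ 0 := Int.natAbs_ne_zero.mpr (discr_ne_zero L)
  set S := (goodP D Z).filter (fun p => W p) with hS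
  have hmem : ∀ p ∈ S, p.Prime ∧ ¬ (p : ℤ) ∣ discr L ∧ (p : ℝ) ≤ Z ∧ W p := by
    intro p hp
    rw [hS, mem_filter, mem_goodP hZ] at hp
    refine ⟨hp.1.1, ?_, hp.1.2.2, hp.2⟩
    intro h
    apply hp.1.2.1
    rw [hD]
    exact Int.natCast_dvd.mp h
  have key := hC K hn l hl Z S hZ (fun p hp => by
    obtain ⟨h1, h2, h3, -⟩ := hmem p hp
    exact ⟨h1, fun h => h2 (h.trans (discr_dvd_discr K L)), h3⟩) (by
    intro p hp E hE
    obtain ⟨h1, h2, h3, h4⟩ := hmem p hp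
    exact hW p h1 h2 h4 E hE)
  have h2 : M ≤ S.card + D.primeFactors.card := by
    refine hM.trans ((Finset.card_le_card ?_).trans (Finset.card_union_le _ _))
    intro p hp
    rw [mem_filter, mem_Icc] at hp
    rw [mem_union]
    by_cases hpD : p ∣ D
    · right
      exact Nat.mem_primeFactors.mpr ⟨hp.2.1, hpD, hD0⟩
    · left
      rw [hS, mem_filter, mem_goodP hZ]
      refine ⟨⟨hp.2.1, hpD, ?_⟩, hp.2.2⟩
      refine le_trans ?_ hMZ
      exact_mod_cast hp.1.2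
  have h3 := card_primeFactors_le hD0
  have h4 : (M : ℝ) ≤ S.card + D.primeFactors.card := by exact_mod_cast h2
  have h5 : (M : ℝ) - 2 * Real.log |(discr L : ℝ)| ≤ S.card + 1 := by
    rw [natAbs_cast, ← hD]
    linarith
  have hT : 0 ≤ tors K l := by unfold tors; positivity
  calc ((M : ℝ) - 2 * Real.log |(discr L : ℝ)|) * tors K l ≤ (S.card + 1) * tors K l := by gcongr
    _ ≤ _ := key

/-- the case in which all small subfields of `K` are fixed by `N` -/
theorem caseA2 (n g : ℕ) (hn2 : 2 ≤ n) : ∃ A : ℕ, 2 ≤ A ∧ ∃ C : ℝ, 0 < C ∧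
    ∀ (L : Type) [Field L] [NumberField L] [IsGalois ℚ L] (K : IntermediateField ℚ L),
    Module.finrank ℚ L = g → Module.finrank ℚ K = n → ∀ l : ℕ, 1 ≤ l → ∀ (Z : ℝ), 0 ≤ Z →
    ∀ N : Subgroup Gal(L/ℚ), Good K N →
    (∀ E : IntermediateField ℚ K,
      |(discr E : ℝ)| ≤ Z ^ (l * n * (n - 1) ^ 2) * (2 * Real.exp (5 * l)) ^ (n * (n - 1)) →
      N ≤ (IntermediateField.lift E).fixingSubgroup.normalCore) →
    ∀ M : ℕ, 1600 ≤ M → ((M ^ A : ℕ) : ℝ) ≤ Z →
    2 ^ (g + 2) * √|(discr (IntermediateField.fixedField N) : ℝ)| ≤ M →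
    ((M : ℝ) - 2 * Real.log |(discr L : ℝ)|) * tors K l ≤
      C * √|(discr K : ℝ)| * (Real.log |(discr K : ℝ)|) ^ (n - 1) := by
  obtain ⟨A, hA2, hA⟩ := count_fixed2 g
  obtain ⟨C, hC0, hC⟩ := caseA_core n hn2
  refine ⟨A, hA2, C, hC0, ?_⟩
  intro L _ _ _ K hg hn l hl Z hZ N hgood hsmall M hM hMZ hMd
  obtain ⟨V, hNV, hV⟩ := hgood
  by_cases hVt : V = ⊤
  · have hcnt := primes_ge hM hA2
    refine hC L K hn l hl Z hZ (fun _ => True) ?_ M A hMZ (by convert hcnt)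
    intro p hp hpD _ E hE
    by_contra hcon
    obtain ⟨P, hP, hpP, x, hx⟩ := exists_gen hp hpD
    have h1 := rootSet_anti K (hsmall E hE) (mem_rootSet K E hcon P hP hpP x hx)
    obtain ⟨y₁, y₂, hy, -, -⟩ := hV x h1
    rw [hVt] at hy
    exact hy trivial
  · have hle : IntermediateField.fixedField V ≤ IntermediateField.fixedField N :=
      IntermediateField.fixedField_antitone hNV
    have hdk := discr_le_of_le hle
    have hcnt := hA _ (finrank_fixedField_ge V hVt) (finrank_fixedField_le hg _) M (by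
        refine le_trans ?_ hMd
        gcongr)
    refine hC L K hn l hl Z hZ (fun p => ¬ TwoSplit (IntermediateField.fixedField V) p) ?_ M A hMZ
      (by convert hcnt)
    intro p hp hpD hW E hE
    by_contra hcon
    apply hW
    obtain ⟨P, hP, hpP, x, hx⟩ := exists_gen hp hpD
    have h1 := rootSet_anti K (hsmall E hE) (mem_rootSet K E hcon P hP hpP x hx)
    obtain ⟨y₁, y₂, hy, hy1, hy2⟩ := hV x h1
    exact twoSplit_of_fixed hp P hP hpP x hx V y₁ y₂ hy hy1 hy2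

end Pool.Agent.H46LT
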