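import Pool.Agent.H46LT.Gen

/-! The induction for subfields of Galois fields. -/

set_option autoImplicit false

namespace Pool.Agent.H46LT

open NumberField Finset IntermediateField Filter
open scoped Classical nonZeroDivisors Pointwise

/-- growth comparison -/
theorem ev_large3 (k : ℕ) (β B B₂ : ℝ) (hβ : 0 < β) (hB₂ : 0 < B₂) : ∃ D₀ : ℝ, 3 ≤ D₀ ∧
    ∀ x : ℝ, D₀ ≤ x →
    B ≤ x ^ (β / 2) ∧ B₂ * Real.log x ≤ x ^ β ∧ (Real.log x) ^ k ≤ x ^ (β / 2) := by
  have h2 : ∀ᶠ x : ℝ in atTop, B₂ * Real.log x ≤ x ^ β := by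
    have := (isLittleO_log_rpow_atTop hβ).bound (show (0 : ℝ) < 1 / B₂ by positivity)
    filter_upwards [this, eventually_ge_atTop 1] with x hx hx1
    rw [Real.norm_of_nonneg (Real.log_nonneg hx1), Real.norm_of_nonneg (by positivity)] at hx
    calc B₂ * Real.log x ≤ B₂ * (1 / B₂ * x ^ β) := by gcongr
      _ = x ^ β := by field_simp
  obtain ⟨D₁, hD₁⟩ := eventually_atTop.mp h2
  obtain ⟨D₂, hD₂3, hD₂⟩ := ev_large k β B hβ
  refine ⟨max D₁ D₂, hD₂3.trans (le_max_right _ _), fun x hx => ?_⟩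
  obtain ⟨g1, -, g3⟩ := hD₂ x ((le_max_right _ _).trans hx)
  exact ⟨g1, hD₁ x ((le_max_left _ _).trans hx), g3⟩

/-- the choice of the counting parameter -/
theorem num_M2 {x z β c d lL CL : ℝ} {A n : ℕ} (hA : 1 ≤ A) (hβ : β = z / A) (hx1 : 1 ≤ x)
    (hcβ : c ≤ β) (hd : d ≤ x ^ c) (g1 : 2 ^ (n + 3) + 3200 ≤ x ^ (β / 2))
    (hlL : lL ≤ CL * Real.log x) (g2 : 8 * CL * Real.log x ≤ x ^ β) :
    ∃ M : ℕ, 1600 ≤ M ∧ ((M ^ A : ℕ) : ℝ) ≤ x ^ z ∧ 2 ^ (n + 2) * √d ≤ M ∧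
      x ^ β / 4 ≤ (M : ℝ) - 2 * lL := by
  have hxp : 0 < x := by linarith
  have hAr : (1 : ℝ) ≤ A := by exact_mod_cast hA
  set y : ℝ := x ^ β with hy
  have hy0 : 0 < y := Real.rpow_pos_of_pos hxp _
  have hyh : x ^ (β / 2) * x ^ (β / 2) = y := by
    rw [← Real.rpow_add hxp, hy]; congr 1; ring
  have hyA : y ^ A = x ^ z := by
    rw [hy, ← Real.rpow_natCast, ← Real.rpow_mul hxp.le, hβ]
    congr 1
    field_simp
  have hMy : (⌊y⌋₊ : ℝ) ≤ y := Nat.floor_le hy0.le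
  have hMy' : y < ⌊y⌋₊ + 1 := Nat.lt_floor_add_one y
  have h2n : (0 : ℝ) < 2 ^ (n + 3) := by positivity
  have hh : (3200 : ℝ) ≤ x ^ (β / 2) := by linarith
  have hy2 : 3201 ≤ y := by rw [← hyh]; nlinarith
  have hMhalf : y / 2 ≤ ⌊y⌋₊ := by linarith
  have hsqrt : √d ≤ x ^ (β / 2) := by
    rw [Real.sqrt_le_left (by positivity), sq, hyh, hy]
    refine hd.trans ?_
    exact Real.rpow_le_rpow_of_exponent_le hx1 hcβ
  refine ⟨⌊y⌋₊, ?_, ?_, ?_, by linarith⟩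
  · rw [Nat.le_floor_iff hy0.le]
    push_cast
    linarith
  · push_cast
    rw [← hyA]
    exact pow_le_pow_left₀ (by positivity) hMy A
  · refine le_trans ?_ hMhalf
    rw [← hyh]
    have e1 : (2 : ℝ) ^ (n + 3) = 2 * 2 ^ (n + 2) := by ring
    calc 2 ^ (n + 2) * √d ≤ 2 ^ (n + 2) * x ^ (β / 2) := by gcongr
      _ = (2 ^ (n + 3) * x ^ (β / 2)) / 2 := by rw [e1]; ring
      _ ≤ (x ^ (β / 2) * x ^ (β / 2)) / 2 := by
          have : (2 : ℝ) ^ (n + 3) ≤ x ^ (β / 2) := by linarith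
          gcongr

/-- the inductive statement -/
def Claim2 (g n l m : ℕ) (η : ℝ) : Prop :=
  ∃ c δ C : ℝ, 0 < c ∧ c ≤ 1 / 2 ∧ 0 < δ ∧ δ ≤ 1 / 2 ∧ 0 < C ∧
  ∀ (L : Type) [Field L] [NumberField L] [IsGalois ℚ L] (K : IntermediateField ℚ L),
    Module.finrank ℚ L = g → Module.finrank ℚ K = n → K.fixingSubgroup.normalCore = ⊥ →
    ∀ N : Subgroup Gal(L/ℚ), N.Normal → Nat.card N ≤ m →
    |(discr (IntermediateField.fixedField N) : ℝ)| ≤ |(discr K : ℝ)| ^ c →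
    (∀ N' : Subgroup Gal(L/ℚ), N'.Normal → N' ≤ N → N' ≠ ⊥ →
      |(discr (IntermediateField.fixedField N') : ℝ)| ≤ |(discr K : ℝ)| ^ η → Good K N') →
    tors K l ≤ C * |(discr K : ℝ)| ^ (1 / 2 - δ)

theorem claim2_zero (g n l : ℕ) (η : ℝ) : Claim2 g n l 0 η := by
  refine ⟨1 / 2, 1 / 2, 1, by norm_num, le_rfl, by norm_num, le_rfl, by norm_num, ?_⟩
  intro L _ _ _ K _ _ _ N _ hcard
  have : 0 < Nat.card N := Nat.card_pos
  omega

/-- the trivial subgroup never has a fixed field of small discriminant -/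
theorem ne_bot_of_small {L : Type} [Field L] [NumberField L] (K : IntermediateField ℚ L)
    {c : ℝ} (hc : c ≤ 1 / 2) (hx3 : 3 ≤ |(discr K : ℝ)|) (N : Subgroup Gal(L/ℚ))
    (hd : |(discr (IntermediateField.fixedField N) : ℝ)| ≤ |(discr K : ℝ)| ^ c) : N ≠ ⊥ := by
  intro h0
  rw [h0, discr_fixed_bot] at hd
  set x : ℝ := |(discr K : ℝ)| with hx
  have hxL : x ≤ |(discr L : ℝ)| := discr_le_big K
  have h1 : x ^ c ≤ x ^ (1 / 2 : ℝ) := Real.rpow_le_rpow_of_exponent_le (by linarith) hc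
  rw [← Real.sqrt_eq_rpow] at h1
  have h2 : x ≤ √x := hxL.trans (hd.trans h1)
  have h3 : √x * √x = x := Real.mul_self_sqrt (by linarith)
  have h4 : 0 < √x := Real.sqrt_pos.mpr (by linarith)
  nlinarith

/-- the discriminant of the Galois closure in terms of that of `K` -/
theorem log_discr_le {L : Type} [Field L] [NumberField L] [IsGalois ℚ L]
    (K : IntermediateField ℚ L) (hcore : K.fixingSubgroup.normalCore = ⊥) {C : ℝ} {e : ℕ}
    (hC : 1 ≤ C) (hx3 : 3 ≤ |(discr K : ℝ)|)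
    (h : |(discr (IntermediateField.fixedField K.fixingSubgroup.normalCore) : ℝ)| ≤
      (C * |(discr (IntermediateField.fixedField K.fixingSubgroup) : ℝ)|) ^ e) :
    Real.log |(discr L : ℝ)| ≤ (e * (Real.log C + 1)) * Real.log |(discr K : ℝ)| := by
  rw [hcore, discr_fixed_bot, IsGalois.fixedField_fixingSubgroup] at h
  set x : ℝ := |(discr K : ℝ)| with hx
  have hlx : 1 ≤ Real.log x := by
    rw [Real.le_log_iff_exp_le (by linarith)]
    have := Real.exp_one_lt_d9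
    linarith
  have hlC : 0 ≤ Real.log C := Real.log_nonneg hC
  have h0 : (0 : ℝ) < |(discr L : ℝ)| := lt_of_lt_of_le one_pos (one_le_abs_discr L)
  calc Real.log |(discr L : ℝ)| ≤ Real.log ((C * x) ^ e) := Real.log_le_log h0 h
    _ = e * (Real.log C + Real.log x) := by
        rw [Real.log_pow, Real.log_mul (by linarith) (by linarith)]
    _ ≤ e * ((Real.log C + 1) * Real.log x) := by
        gcongr
        nlinarith
    _ = _ := by ring

/-- a smaller subgroup, from a small subfield that is not fixed -/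
theorem smaller_sub2 {L : Type} [Field L] [NumberField L] (N N₂ : Subgroup Gal(L/ℚ))
    (hnot : ¬ N ≤ N₂) : Nat.card ↥(N ⊓ N₂) < Nat.card N := by
  by_contra hcon
  push Not at hcon
  apply hnot
  have h1 : N ⊓ N₂ = N := Subgroup.eq_of_le_of_card_ge inf_le_left hcon
  rw [← h1]
  exact inf_le_right

theorem discr_lift {L : Type} [Field L] [NumberField L] (K : IntermediateField ℚ L)
    (E : IntermediateField ℚ K) : discr (IntermediateField.lift E) = discr E :=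
  (discr_eq_discr_of_algEquiv _ (IntermediateField.liftAlgEquiv E)).symm

theorem claim2_step (g n l m : ℕ) (η : ℝ) (hη : 0 < η) (hg2 : 2 ≤ g) (hn2 : 2 ≤ n) (hl : 1 ≤ l)
    (h : Claim2 g n l m η) : Claim2 g n l (m + 1) η := by
  obtain ⟨c', δ', C', hc'0, hc'2, hδ'0, hδ'2, hC'0, hC'⟩ := h
  obtain ⟨A, hA2, CA, hCA0, hCA⟩ := caseA2 n g hn2
  obtain ⟨C₂, hC₂1, hC₂⟩ := discr_inf_le g
  obtain ⟨C₁, hC₁1, e, he1, hC₁⟩ := discr_core_le g (by omega)
  set a : ℕ := l * n * (n - 1) ^ 2 with ha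
  have ha0 : 0 < a := Nat.mul_pos (Nat.mul_pos (by omega) (by omega)) (pow_pos (by omega) 2)
  set E0 : ℝ := (2 * Real.exp (5 * l)) ^ (n * (n - 1)) with hE0
  have hE00 : 0 ≤ E0 := by positivity
  obtain ⟨c'', hc''⟩ : ∃ c'' : ℝ, c'' = min c' η := ⟨_, rfl⟩
  have hc''0 : 0 < c'' := by rw [hc'']; exact lt_min hc'0 hη
  have hc''c' : c'' ≤ c' := by rw [hc'']; exact min_le_left _ _
  have hc''η : c'' ≤ η := by rw [hc'']; exact min_le_right _ _
  have hc''2 : c'' ≤ 1 / 2 := hc''c'.trans hc'2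
  obtain ⟨z, c, hz0, hc0, hc2, hcβ, hexp⟩ := num_P g (a * e) A hg2 (Nat.mul_pos ha0 he1)
    (by omega) hc''0 hc''2
  obtain ⟨β, hβ⟩ : ∃ β : ℝ, β = z / A := ⟨_, rfl⟩
  have hAr : (1 : ℝ) ≤ A := by exact_mod_cast (by omega : 1 ≤ A)
  have hβ0 : 0 < β := by rw [hβ]; positivity
  rw [← hβ] at hcβ
  have hcc'' : c ≤ c'' := by
    have hgr : (1 : ℝ) ≤ (g : ℝ) ^ 2 := one_le_pow₀ (by exact_mod_cast (by omega : 1 ≤ g))
    have hza : 0 ≤ z * (a * e : ℕ) := by positivity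
    nlinarith
  obtain ⟨CL, hCL⟩ : ∃ CL : ℝ, CL = e * (Real.log C₁ + 1) := ⟨_, rfl⟩
  have hCL0 : 0 < CL := by
    have : 0 ≤ Real.log C₁ := Real.log_nonneg hC₁1
    have her : (1 : ℝ) ≤ e := by exact_mod_cast he1
    rw [hCL]; positivity
  obtain ⟨D₀, hD₀3, hD₀⟩ := ev_large3 (n - 1) β (2 ^ (g + 3) + 3200) (8 * CL) hβ0 (by positivity)
  obtain ⟨D₁, hD₁3, hD₁⟩ := ev_large 0 c'' (C₂ * ((C₁ * E0) ^ e) ^ (g ^ 2)) hc''0
  obtain ⟨C, hC0, hC⟩ := large_suffices n hn2 l hl (max D₀ D₁) (4 * CA + C') (min (β / 2) δ')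
    (by positivity) ((min_le_right _ _).trans hδ'2)
  refine ⟨c, min (β / 2) δ', C, hc0, hc2, lt_min (by positivity) hδ'0,
    (min_le_right _ _).trans hδ'2, hC0, ?_⟩
  intro L _ _ _ K hg hn hcore N hNn hNm hNd hgood
  refine hC K hn ?_
  intro hDlarge
  set x : ℝ := |(discr K : ℝ)| with hx
  have hx0 : D₀ ≤ x := (le_max_left _ _).trans hDlarge
  have hx1 : D₁ ≤ x := (le_max_right _ _).trans hDlarge
  have hx3 : 3 ≤ x := hD₀3.trans hx0
  have hx1' : 1 ≤ x := by linarith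
  obtain ⟨g1, g2, g3⟩ := hD₀ x hx0
  obtain ⟨g4, -, -⟩ := hD₁ x hx1
  have hZ0 : 0 ≤ x ^ z := Real.rpow_nonneg (by linarith) _
  have hNb : N ≠ ⊥ := ne_bot_of_small K hc2 hx3 N hNd
  have hlog : Real.log |(discr L : ℝ)| ≤ CL * Real.log x := by
    rw [hCL]
    exact log_discr_le K hcore hC₁1 hx3 (hC₁ L hg K.fixingSubgroup)
  by_cases hsm : ∀ E : IntermediateField ℚ K, |(discr E : ℝ)| ≤ (x ^ z) ^ a * E0 →
      N ≤ (IntermediateField.lift E).fixingSubgroup.normalCore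
  · -- all small subfields are fixed
    obtain ⟨M, hM, hMZ, hMd, h1⟩ := num_M2 (lL := Real.log |(discr L : ℝ)|) (by omega : 1 ≤ A)
      hβ hx1' hcβ hNd g1 hlog g2
    have hgN : Good K N := hgood N hNn le_rfl hNb
      (hNd.trans (Real.rpow_le_rpow_of_exponent_le hx1' (hcc''.trans hc''η)))
    have key := hCA L K hg hn l hl (x ^ z) hZ0 N hgN hsm M hM hMZ hMd
    rw [← hx] at key
    have hT : 0 ≤ tors K l := by unfold tors; positivity
    have hyh : x ^ (β / 2) * x ^ (β / 2) = x ^ β := by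
      rw [← Real.rpow_add (by linarith)]; congr 1; ring
    have h3 : tors K l ≤ 4 * CA * x ^ (1 / 2 - β / 2) :=
      num_A hx1' (Real.rpow_pos_of_pos (by linarith) _) hyh hT hCA0.le h1 key g3
    exact num_W hx1' (by positivity) hC'0.le (min_le_left _ _) h3
  · -- a smaller subgroup
    push Not at hsm
    obtain ⟨E, hE, hnot⟩ := hsm
    set N₂ := (IntermediateField.lift E).fixingSubgroup.normalCore with hN₂
    have hdE : |(discr (IntermediateField.fixedField N₂) : ℝ)| ≤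
        (x ^ z) ^ (a * e) * (C₁ * E0) ^ e := by
      have h1 := hC₁ L hg (IntermediateField.lift E).fixingSubgroup
      rw [← hN₂, IsGalois.fixedField_fixingSubgroup, discr_lift] at h1
      calc |(discr (IntermediateField.fixedField N₂) : ℝ)| ≤ (C₁ * |(discr E : ℝ)|) ^ e := h1
        _ ≤ (C₁ * ((x ^ z) ^ a * E0)) ^ e := by gcongr
        _ = (x ^ z) ^ (a * e) * (C₁ * E0) ^ e := by rw [pow_mul]; ring
    have hd'' : |(discr (IntermediateField.fixedField (N ⊓ N₂)) : ℝ)| ≤ x ^ c'' :=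
      (hC₂ L hg N N₂).trans (num_B hx1' (by linarith) (by positivity) (abs_nonneg _) hNd
        (abs_nonneg _) hdE g4 hexp)
    have hnorm2 : N₂.Normal := Subgroup.normalCore_normal _
    have hcard : Nat.card ↥(N ⊓ N₂) ≤ m := by
      have := smaller_sub2 N N₂ hnot
      omega
    have h1 := hC' L K hg hn hcore (N ⊓ N₂) (Subgroup.normal_inf_normal N N₂) hcard
      (hd''.trans (Real.rpow_le_rpow_of_exponent_le hx1' hc''c'))
      (fun N' h1 h2 h3 h4 => hgood N' h1 (h2.trans inf_le_left) h3 h4)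
    rw [← hx] at h1
    have h2 := num_W (C₂ := 4 * CA) hx1' hC'0.le (by positivity) (min_le_right (β / 2) δ') h1
    rw [add_comm C'] at h2
    exact h2

theorem claim2_all (g n l m : ℕ) (η : ℝ) (hη : 0 < η) (hg2 : 2 ≤ g) (hn2 : 2 ≤ n) (hl : 1 ≤ l) :
    Claim2 g n l m η := by
  induction m with
  | zero => exact claim2_zero g n l η
  | succ m ih => exact claim2_step g n l m η hη hg2 hn2 hl ih

end Pool.Agent.H46LT
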