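import Pool.Agent.H46LT.Gen2

/-! The general criterion with uniform constants. -/

set_option autoImplicit false

namespace Pool.Agent.H46LT

open NumberField Finset IntermediateField
open scoped Classical nonZeroDivisors Pointwise

/-- the final statement for bounded degree of the Galois closure -/
theorem bounded_closure (n l : ℕ) (hn2 : 2 ≤ n) (hl : 1 ≤ l) (η : ℝ) (hη : 0 < η) (B : ℕ) :
    ∃ c δ C : ℝ, 0 < c ∧ 0 < δ ∧ δ ≤ 1 / 2 ∧ 0 < C ∧
    ∀ (L : Type) [Field L] [NumberField L] [IsGalois ℚ L] (K : IntermediateField ℚ L),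
    Module.finrank ℚ L ≤ B → Module.finrank ℚ K = n → K.fixingSubgroup.normalCore = ⊥ →
    ∀ N : Subgroup Gal(L/ℚ), N.Normal →
    |(discr (IntermediateField.fixedField N) : ℝ)| ≤ |(discr K : ℝ)| ^ c →
    (∀ N' : Subgroup Gal(L/ℚ), N'.Normal → N' ≤ N → N' ≠ ⊥ →
      |(discr (IntermediateField.fixedField N') : ℝ)| ≤ |(discr K : ℝ)| ^ η → Good K N') →
    tors K l ≤ C * |(discr K : ℝ)| ^ (1 / 2 - δ) := by
  induction B with
  | zero =>
    refine ⟨1, 1 / 2, 1, one_pos, by norm_num, le_rfl, one_pos, ?_⟩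
    intro L _ _ _ K hg
    have : 0 < Module.finrank ℚ L := Module.finrank_pos
    omega
  | succ B ih =>
    obtain ⟨c₁, δ₁, C₁, hc₁, hδ₁, hδ₁', hC₁, h₁⟩ := ih
    by_cases hB : 2 ≤ B + 1
    · obtain ⟨c₂, δ₂, C₂, hc₂, -, hδ₂, hδ₂', hC₂, h₂⟩ :=
        claim2_all (B + 1) n l (B + 1) η hη hB hn2 hl
      refine ⟨min c₁ c₂, min δ₁ δ₂, C₁ + C₂, lt_min hc₁ hc₂, lt_min hδ₁ hδ₂,
        (min_le_left _ _).trans hδ₁', by positivity, ?_⟩
      intro L _ _ _ K hg hn hcore N hN hNd hgood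
      have hx1 : 1 ≤ |(discr K : ℝ)| := one_le_abs_discr K
      rcases Nat.lt_or_ge (Module.finrank ℚ L) (B + 1) with hlt | hge
      · exact num_W hx1 hC₁.le hC₂.le (min_le_left _ _) (h₁ L K (by omega) hn hcore N hN
          (hNd.trans (Real.rpow_le_rpow_of_exponent_le hx1 (min_le_left _ _))) hgood)
      · have hcard : Nat.card N ≤ B + 1 := by
          refine (Subgroup.card_le_card_group N).trans ?_
          rw [IsGalois.card_aut_eq_finrank ℚ L]
          exact hg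
        have := num_W hx1 hC₂.le hC₁.le (min_le_right δ₁ δ₂) (h₂ L K (by omega) hn hcore N hN
          hcard (hNd.trans (Real.rpow_le_rpow_of_exponent_le hx1 (min_le_right _ _))) hgood)
        rw [add_comm C₂] at this
        exact this
    · refine ⟨c₁, δ₁, C₁, hc₁, hδ₁, hδ₁', hC₁, ?_⟩
      intro L _ _ _ K hg hn
      have h1 := finrank_fixedField_le (K := L) rfl K
      omega

/-- if `L` is the normal closure of `K` then the core is trivial -/
theorem core_eq_bot {L : Type} [Field L] [NumberField L] [IsGalois ℚ L]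
    (K : IntermediateField ℚ L) (h : IntermediateField.normalClosure ℚ K L = ⊤) :
    K.fixingSubgroup.normalCore = ⊥ := by
  rw [eq_bot_iff]
  intro σ hσ
  rw [Subgroup.mem_bot]
  have h1 : IntermediateField.normalClosure ℚ K L ≤
      IntermediateField.fixedField (Subgroup.zpowers σ) := by
    rw [IntermediateField.normalClosure, iSup_le_iff]
    intro f z hz
    obtain ⟨a, rfl⟩ := hz
    rw [IntermediateField.mem_fixedField_iff]
    intro τ hτ
    obtain ⟨k, rfl⟩ := hτ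
    -- extend `f` to `L`
    obtain ⟨y, hy⟩ : ∃ y : Gal(L/ℚ), ∀ a : K, y (a : L) = f a := by
      have hK : IsScalarTower ℚ K L := inferInstance
      refine ⟨AlgEquiv.ofBijective (f.liftNormal L) (AlgHom.normal_bijective ℚ L L _), ?_⟩
      intro a
      have := AlgHom.liftNormal_commutes f L a
      simpa using this
    have h3 : y⁻¹ * σ ^ k * y ∈ K.fixingSubgroup := by
      have h4 : σ ^ k ∈ K.fixingSubgroup.normalCore := Subgroup.zpow_mem _ hσ k
      have := h4 y⁻¹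
      rwa [inv_inv] at this
    have h4 := (IntermediateField.mem_fixingSubgroup_iff _ _).mp h3 (a : L) a.2
    have h5 : (σ ^ k) (y (a : L)) = y (a : L) := by
      have h6 : y ((y⁻¹ * σ ^ k * y) (a : L)) = y (a : L) := by rw [h4]
      have h7 : y ((y⁻¹ * σ ^ k * y) (a : L)) = (σ ^ k) (y (a : L)) := by
        change (y * (y⁻¹ * σ ^ k * y)) (a : L) = (σ ^ k * y) (a : L)
        congr 1
        group
      rw [h7] at h6
      exact h6
    change (σ ^ k) (f a) = f a
    rw [← hy a]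
    exact h5
  rw [h] at h1
  ext z
  have h2 : z ∈ IntermediateField.fixedField (Subgroup.zpowers σ) := h1 trivial
  rw [IntermediateField.mem_fixedField_iff] at h2
  have h3 := h2 σ (Subgroup.mem_zpowers σ)
  rw [h3]
  rfl

/-- the general criterion -/
theorem criterion (n l : ℕ) (hn2 : 2 ≤ n) (hl : 1 ≤ l) (η : ℝ) (hη : 0 < η) :
    ∃ c δ C : ℝ, 0 < c ∧ 0 < δ ∧ 0 < C ∧
    ∀ (L : Type) [Field L] [NumberField L] [IsGalois ℚ L] (K : IntermediateField ℚ L),
    Module.finrank ℚ K = n → IntermediateField.normalClosure ℚ K L = ⊤ →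
    ∀ N₀ : Subgroup Gal(L/ℚ), N₀.Normal →
    |(discr (IntermediateField.fixedField N₀) : ℝ)| ≤ |(discr K : ℝ)| ^ c →
    (∀ N : Subgroup Gal(L/ℚ), N.Normal → N ≤ N₀ → N ≠ ⊥ →
      |(discr (IntermediateField.fixedField N) : ℝ)| ≤ |(discr K : ℝ)| ^ η →
      ∃ V : Subgroup Gal(L/ℚ), N ≤ V ∧ ∀ x ∈ RootSet K N,
        2 ≤ Nat.card (MulAction.fixedBy (Gal(L/ℚ) ⧸ V) x)) →
    tors K l ≤ C * |(discr K : ℝ)| ^ (1 / 2 - δ) := by
  obtain ⟨c, δ, C, hc, hδ, -, hC, h⟩ := bounded_closure n l hn2 hl η hη n.factorial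
  refine ⟨c, δ, C, hc, hδ, hC, ?_⟩
  intro L _ _ _ K hn hcl N₀ hN₀ hd hcond
  have hcore := core_eq_bot K hcl
  refine h L K ?_ hn hcore N₀ hN₀ hd ?_
  · have h1 := card_le_factorial K.fixingSubgroup hcore
    have h2 : K.fixingSubgroup.index = n := by
      rw [← hn, ← IntermediateField.finrank_eq_fixingSubgroup_index]
    rw [h2, IsGalois.card_aut_eq_finrank ℚ L] at h1
    exact h1
  · intro N hN hNN hNb hNd
    obtain ⟨V, hNV, hV⟩ := hcond N hN hNN hNb hNd
    refine ⟨V, hNV, fun x hx => ?_⟩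
    have h1 := hV x hx
    have h2 : 1 < Nat.card (MulAction.fixedBy (Gal(L/ℚ) ⧸ V) x) := h1
    rw [Finite.one_lt_card_iff_nontrivial] at h2
    obtain ⟨⟨a, ha⟩, ⟨b, hb⟩, hab⟩ := h2
    obtain ⟨y₁, rfl⟩ := QuotientGroup.mk_surjective a
    obtain ⟨y₂, rfl⟩ := QuotientGroup.mk_surjective b
    have hfix : ∀ y : Gal(L/ℚ), (y : Gal(L/ℚ) ⧸ V) ∈ MulAction.fixedBy (Gal(L/ℚ) ⧸ V) x →
        y⁻¹ * x * y ∈ V := by
      intro y hy
      rw [MulAction.mem_fixedBy] at hy
      have h3 : ((x * y : Gal(L/ℚ)) : Gal(L/ℚ) ⧸ V) = (y : Gal(L/ℚ) ⧸ V) := hy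
      rw [eq_comm, QuotientGroup.eq] at h3
      rwa [← mul_assoc] at h3
    refine ⟨y₁, y₂, ?_, hfix y₁ ha, hfix y₂ hb⟩
    intro hin
    apply hab
    apply Subtype.ext
    exact QuotientGroup.eq.mpr hin

end Pool.Agent.H46LT
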