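import Pool.Agent.H46LT.Gal
import Pool.Agent.H46LT.Count

/-! Savings for the torsion of the class group. -/

set_option autoImplicit false

namespace Pool.Agent.H46LT

open NumberField Finset IntermediateField
open scoped Classical nonZeroDivisors

/-- the exponential factor is small -/
theorem exp_bound {n l : ℕ} (hn2 : 2 ≤ n) (hl : 1 ≤ l) {Z X : ℝ} (hZ0 : 0 < Z) (hX : 0 < X)
    (hZ : (300 * Z) ^ (l * n * (n - 1) ^ 2) ≤ X) :
    Z ^ (l * n * (n - 1) ^ 2) * (2 * Real.exp (5 * l)) ^ (n * (n - 1)) < X := by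
  have h1 : 2 * Real.exp (5 * l) < 300 ^ (l * (n - 1)) := by
    have e1 : Real.exp 5 < 149 := by
      have h2 : Real.exp 5 = Real.exp 1 ^ 5 := by
        rw [← Real.exp_nat_mul]; norm_num
      rw [h2]
      calc Real.exp 1 ^ 5 < 2.7182818286 ^ 5 :=
            pow_lt_pow_left₀ Real.exp_one_lt_d9 (Real.exp_pos 1).le (by norm_num)
        _ < 149 := by norm_num
    have e2 : Real.exp (5 * l) = Real.exp 5 ^ l := by
      rw [← Real.exp_nat_mul]; ring_nf
    have e3 : (2 : ℝ) ≤ 2 ^ l := by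
      calc (2 : ℝ) = 2 ^ 1 := by norm_num
        _ ≤ 2 ^ l := pow_le_pow_right₀ (by norm_num) hl
    calc 2 * Real.exp (5 * l) ≤ 2 ^ l * Real.exp 5 ^ l := by rw [e2]; gcongr
      _ = (2 * Real.exp 5) ^ l := by rw [mul_pow]
      _ < 300 ^ l := pow_lt_pow_left₀ (by linarith) (by positivity) (by omega)
      _ ≤ 300 ^ (l * (n - 1)) := pow_le_pow_right₀ (by norm_num)
          (Nat.le_mul_of_pos_right _ (by omega))
  have hnn : n * (n - 1) ≠ 0 := by
    have : 0 < n * (n - 1) := Nat.mul_pos (by omega) (by omega)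
    omega
  calc Z ^ (l * n * (n - 1) ^ 2) * (2 * Real.exp (5 * l)) ^ (n * (n - 1))
      < Z ^ (l * n * (n - 1) ^ 2) * (300 ^ (l * (n - 1))) ^ (n * (n - 1)) := by
        have := pow_lt_pow_left₀ h1 (by positivity) hnn
        have hZp : 0 < Z ^ (l * n * (n - 1) ^ 2) := by positivity
        exact mul_lt_mul_of_pos_left this hZp
    _ = (300 * Z) ^ (l * n * (n - 1) ^ 2) := by
        rw [mul_pow, ← pow_mul, mul_comm]
        congr 2
        ring
    _ ≤ X := hZ

theorem natAbs_cast (z : ℤ) : |(z : ℝ)| = (z.natAbs : ℝ) := by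
  rw [Nat.cast_natAbs]
  push_cast
  rfl

/-- the general saving -/
theorem saving (n : ℕ) (hn2 : 2 ≤ n) : ∃ C : ℝ, 0 < C ∧
    ∀ (K : Type) [Field K] [NumberField K], Module.finrank ℚ K = n → ∀ l : ℕ, 1 ≤ l →
    ∀ X : ℝ, 1 ≤ X → X ≤ |(discr K : ℝ)| →
    (∀ E : IntermediateField ℚ K, |(discr E : ℝ)| < X → ∀ p : ℕ, p.Prime →
      ¬ (p : ℤ) ∣ discr K → SplitsOver E p) →
    (Nat.card {c : ClassGroup (𝓞 K) // c ^ l = 1} : ℝ) ≤
      C * √|(discr K : ℝ)| * (Real.log |(discr K : ℝ)|) ^ (n + 1) *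
        X ^ (-(1 / (l * n * (n - 1) ^ 2) : ℝ)) := by
  obtain ⟨C, hC0, hC⟩ := master n hn2
  refine ⟨18000 * C, by positivity, ?_⟩
  intro K _ _ hn l hl X hX1 hXD hsplit
  set D := (discr K).natAbs with hD
  rw [natAbs_cast] at hXD ⊢
  rw [← hD] at hXD ⊢
  have hD2 : 2 < D := by
    have := abs_discr_gt_two (K := K) (by rw [hn]; omega)
    rw [Int.abs_eq_natAbs] at this
    exact_mod_cast this
  have hDr : (3 : ℝ) ≤ D := by exact_mod_cast hD2
  have hlD : 1 ≤ Real.log D := by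
    rw [Real.le_log_iff_exp_le (by linarith)]
    have := Real.exp_one_lt_d9
    linarith
  set a : ℕ := l * n * (n - 1) ^ 2 with ha
  have ha0 : 0 < a := Nat.mul_pos (Nat.mul_pos (by omega) (by omega)) (pow_pos (by omega) 2)
  have har : (0 : ℝ) < a := by exact_mod_cast ha0
  have haR : ((l : ℝ) * n * ((n : ℝ) - 1) ^ 2) = a := by
    rw [ha]
    push_cast [Nat.cast_sub (show 1 ≤ n by omega)]
    ring
  rw [haR]
  have hX0 : 0 < X := by linarith
  have hXinv : X ^ (-(1 / (a : ℝ))) = (X ^ (1 / (a : ℝ)))⁻¹ := by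
    rw [Real.rpow_neg hX0.le]
  rw [hXinv]
  set x : ℝ := X ^ (1 / (a : ℝ)) with hx
  have hx0 : 0 < x := Real.rpow_pos_of_pos hX0 _
  have hx1 : 1 ≤ x := Real.one_le_rpow hX1 (by positivity)
  have hxa : x ^ a = X := by
    rw [hx, ← Real.rpow_natCast, ← Real.rpow_mul hX0.le, one_div_mul_cancel har.ne',
      Real.rpow_one]
  have hxX : x ≤ X := by
    rw [← hxa]
    exact le_self_pow₀ hx1 (by omega)
  set T : ℝ := (Nat.card {c : ClassGroup (𝓞 K) // c ^ l = 1} : ℝ) with hT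
  have hT0 : 0 ≤ T := by positivity
  set B : ℝ := √(D : ℝ) * (Real.log D) ^ (n - 1) with hB
  have hB0 : 0 ≤ B := by positivity
  have hBn : √(D : ℝ) * (Real.log D) ^ (n + 1) = B * (Real.log D) ^ 2 := by
    rw [hB, mul_assoc, ← pow_add]
    congr 2
    omega
  have hgoal : 18000 * C * √(D : ℝ) * (Real.log D) ^ (n + 1) * x⁻¹ =
      (18000 * C * (B * (Real.log D) ^ 2)) / x := by
    rw [← hBn]
    field_simp
  rw [hgoal, le_div_iff₀ hx0]
  by_cases hZ : 300 ≤ x
  · set Z : ℝ := x / 300 with hZdef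
    have hZ1 : 1 ≤ Z := by rw [hZdef]; linarith
    have hZD : Z ≤ D := by
      rw [hZdef]; linarith
    have hbound := exp_bound hn2 hl (show 0 < Z by linarith) hX0 (by
      rw [← ha, hZdef, show 300 * (x / 300) = x by ring, hxa])
    have hmem : ∀ p ∈ goodP D Z, p.Prime ∧ ¬ (p : ℤ) ∣ discr K ∧ (p : ℝ) ≤ Z := by
      intro p hp
      rw [mem_goodP (by linarith)] at hp
      refine ⟨hp.1, ?_, hp.2.2⟩
      intro h
      apply hp.2.1
      rw [hD]
      exact Int.natCast_dvd.mp h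
    have key := hC K hn l hl Z (goodP D Z) (by linarith) hmem (by
      intro p hp E hE
      exact hsplit E (lt_of_le_of_lt hE hbound) p (hmem p hp).1 (hmem p hp).2.1)
    rw [natAbs_cast, ← hD, ← hT] at key
    have hcount := count_primes (show 3 ≤ D by omega) hZ1 hZD
    set s : ℝ := ((goodP D Z).card : ℝ) with hs
    have hs0 : 0 ≤ s := by positivity
    have hl2 : 0 ≤ 60 * (Real.log D) ^ 2 := by positivity
    calc T * x = 300 * (T * Z) := by rw [hZdef]; ring
      _ ≤ 300 * (T * (60 * (Real.log D) ^ 2 * (s + 1))) := by gcongr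
      _ = 300 * (60 * (Real.log D) ^ 2) * ((s + 1) * T) := by ring
      _ ≤ 300 * (60 * (Real.log D) ^ 2) * (C * √(D : ℝ) * (Real.log D) ^ (n - 1)) := by gcongr
      _ = 18000 * C * (B * (Real.log D) ^ 2) := by rw [hB]; ring
  · push Not at hZ
    have key := hC K hn l hl 0 ∅ le_rfl (by simp) (by simp)
    rw [natAbs_cast, ← hD, ← hT] at key
    simp only [Finset.card_empty, Nat.cast_zero, zero_add, one_mul] at key
    have h1 : T ≤ C * B := by rw [hB]; linarith
    have h2 : (1 : ℝ) ≤ (Real.log D) ^ 2 := one_le_pow₀ hlD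
    calc T * x ≤ (C * B) * 300 := by gcongr
      _ ≤ (C * (B * (Real.log D) ^ 2)) * 18000 := by
          have h3 : B ≤ B * (Real.log D) ^ 2 := le_mul_of_one_le_right hB0 h2
          have h4 : C * B ≤ C * (B * (Real.log D) ^ 2) := by gcongr
          have h5 : 0 ≤ C * B := by positivity
          nlinarith
      _ = _ := by ring

/-- the saving for Galois fields -/
theorem saving_galois (n : ℕ) (hn2 : 2 ≤ n) : ∃ C : ℝ, 0 < C ∧
    ∀ (K : Type) [Field K] [NumberField K] [IsGalois ℚ K], Module.finrank ℚ K = n →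
    ∀ l : ℕ, 1 ≤ l → ∀ X : ℝ, 1 ≤ X →
    (∀ N : Subgroup Gal(K/ℚ), N.Normal → IsCyclic N →
      X ≤ |(discr (IntermediateField.fixedField N) : ℝ)|) →
    (Nat.card {c : ClassGroup (𝓞 K) // c ^ l = 1} : ℝ) ≤
      C * √|(discr K : ℝ)| * (Real.log |(discr K : ℝ)|) ^ (n + 1) *
        X ^ (-(1 / (l * n * (n - 1) ^ 2) : ℝ)) := by
  obtain ⟨C, hC0, hC⟩ := saving n hn2
  refine ⟨C, hC0, ?_⟩
  intro K _ _ _ hn l hl X hX1 hXN
  refine hC K hn l hl X hX1 ?_ ?_
  · have h1 := hXN ⊥ inferInstance inferInstance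
    have h2 : (discr (IntermediateField.fixedField (⊥ : Subgroup Gal(K/ℚ))) : ℤ) = discr K := by
      have h3 : IntermediateField.fixedField (⊥ : Subgroup Gal(K/ℚ)) = ⊤ :=
        IntermediateField.fixedField_bot
      rw [h3]
      exact discr_eq_discr_of_algEquiv _ IntermediateField.topEquiv
    rw [h2] at h1
    exact h1
  · intro E hE p hp hpD
    by_contra hcon
    have h1 := hXN (coreStab K p) (coreStab_normal p) (coreStab_cyclic hp hpD)
    have h2 := discr_le_of_le (fixedField_coreStab_le E hcon)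
    linarith

end Pool.Agent.H46LT
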