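import Pool.Agent.H46LT.Split
import Pool.Agent.H46LT.Comp
import Pool.Agent.H46LT.Save

/-! The inductive argument for Galois fields. -/

set_option autoImplicit false

namespace Pool.Agent.H46LT

open NumberField Finset IntermediateField Pool.Agent.H46CN Pool.Agent.TH847.LS Filter
open scoped Classical nonZeroDivisors Pointwise

/-- the subgroup generated by the elements whose powers exhaust `N` -/
def rootGroup {G : Type} [Group G] (N : Subgroup G) : Subgroup G :=
  Subgroup.closure {g : G | N ≤ Subgroup.zpowers g}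

theorem le_rootGroup {G : Type} [Group G] (N : Subgroup G) (hN : IsCyclic N) :
    N ≤ rootGroup N := by
  obtain ⟨g, hg⟩ := hN.exists_generator
  have h1 : N ≤ Subgroup.zpowers (g : G) := by
    intro x hx
    obtain ⟨k, hk⟩ := hg ⟨x, hx⟩
    refine ⟨k, ?_⟩
    have := congrArg (fun t : N => (t : G)) hk
    simpa using this
  refine h1.trans ?_
  rw [Subgroup.zpowers_le]
  exact Subgroup.subset_closure h1

section field
variable {K : Type} [Field K] [NumberField K]

theorem fullySplit_key [IsGalois ℚ K] {p : ℕ} (hp : p.Prime) (hpD : ¬ (p : ℤ) ∣ discr K)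
    (N : Subgroup Gal(K/ℚ)) (h : N ≤ coreStab K p) :
    FullySplit (IntermediateField.fixedField (rootGroup N)) p := by
  refine fullySplit_of_stab hp hpD _ ?_
  intro P hP hpP
  have hcyc := stab_cyclic hp hpD hP hpP
  obtain ⟨g, hg⟩ := hcyc.exists_generator
  have h1 : MulAction.stabilizer Gal(K/ℚ) P ≤ Subgroup.zpowers (g : Gal(K/ℚ)) := by
    intro x hx
    obtain ⟨k, hk⟩ := hg ⟨x, hx⟩
    refine ⟨k, ?_⟩
    have := congrArg (fun t : MulAction.stabilizer Gal(K/ℚ) P => (t : Gal(K/ℚ))) hk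
    simpa using this
  refine h1.trans ?_
  rw [Subgroup.zpowers_le]
  refine Subgroup.subset_closure ?_
  refine le_trans ?_ h1
  intro τ hτ
  exact h hτ P hP hpP

theorem finrank_fixedField_ge [IsGalois ℚ K] (Δ : Subgroup Gal(K/ℚ)) (hΔ : Δ ≠ ⊤) :
    2 ≤ Module.finrank ℚ (IntermediateField.fixedField Δ) := by
  by_contra hcon
  have hpos : 0 < Module.finrank ℚ (IntermediateField.fixedField Δ) := Module.finrank_pos
  have h1 : Module.finrank ℚ (IntermediateField.fixedField Δ) = 1 := by omega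
  have h2 := IntermediateField.finrank_eq_one_iff.mp h1
  apply hΔ
  rw [← IntermediateField.fixingSubgroup_fixedField Δ, h2, IntermediateField.fixingSubgroup_bot]

theorem finrank_fixedField_le {n : ℕ} (hn : Module.finrank ℚ K = n) (E : IntermediateField ℚ K) :
    Module.finrank ℚ E ≤ n := by
  rw [← hn]
  exact Submodule.finrank_le (Subalgebra.toSubmodule E.toSubalgebra)

end field

/-- uniform counting for fixed fields -/
theorem count_fixed (n : ℕ) : ∃ A : ℕ, 1 ≤ A ∧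
    ∀ (K : Type) [Field K] [NumberField K], 2 ≤ Module.finrank ℚ K → Module.finrank ℚ K ≤ n →
    ∀ N : ℕ, 2 ^ (n + 2) * √|(discr K : ℝ)| ≤ N →
    N ≤ ((Finset.Icc 1 (N ^ A)).filter (fun p => p.Prime ∧ ¬ FullySplit K p)).card := by
  have h : ∀ d : ℕ, ∃ A : ℕ, 1 ≤ A ∧ (2 ≤ d → ∀ (K : Type) [Field K] [NumberField K],
      Module.finrank ℚ K = d → ∀ N : ℕ,
      2 ^ (d + 2) * √|(discr K : ℝ)| ≤ N →
      N ≤ ((Finset.Icc 1 (N ^ A)).filter (fun p => p.Prime ∧ ¬ FullySplit K p)).card) := by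
    intro d
    by_cases hd : 2 ≤ d
    · obtain ⟨A, hA1, hA⟩ := nonsplit_count d hd
      exact ⟨A, hA1, fun _ => hA⟩
    · exact ⟨1, le_rfl, fun h => absurd h hd⟩
  choose A hA1 hA using h
  refine ⟨∑ d ∈ Finset.range (n + 1), A d, ?_, ?_⟩
  · exact (hA1 0).trans (Finset.single_le_sum (f := A) (fun _ _ => Nat.zero_le _)
      (mem_range.mpr (by omega)))
  · intro K _ _ h2 hn N hN
    have hN' : 2 ^ (Module.finrank ℚ K + 2) * √|(discr K : ℝ)| ≤ N := by
      refine le_trans ?_ hN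
      have : (2 : ℝ) ^ (Module.finrank ℚ K + 2) ≤ 2 ^ (n + 2) :=
        pow_le_pow_right₀ (by norm_num) (by omega)
      gcongr
    have h1 := hA _ h2 K rfl N hN'
    refine h1.trans (Finset.card_le_card ?_)
    intro p hp
    rw [mem_filter, mem_Icc] at hp ⊢
    refine ⟨⟨hp.1.1, hp.1.2.trans ?_⟩, hp.2⟩
    have hN1 : 1 ≤ N := by
      rcases Nat.eq_zero_or_pos N with h0 | h0
      · rw [h0, zero_pow (by have := hA1 (Module.finrank ℚ K); omega)] at hp
        omega
      · exact h0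
    exact Nat.pow_le_pow_right hN1 (Finset.single_le_sum (f := A) (fun _ _ => Nat.zero_le _)
      (mem_range.mpr (by omega)))

/-- the size of the torsion -/
noncomputable def tors (K : Type) [Field K] [NumberField K] (l : ℕ) : ℝ :=
  (Nat.card {c : ClassGroup (𝓞 K) // c ^ l = 1} : ℝ)

/-- the trivial bound -/
theorem tors_trivial (n : ℕ) (hn2 : 2 ≤ n) : ∃ C : ℝ, 0 < C ∧
    ∀ (K : Type) [Field K] [NumberField K], Module.finrank ℚ K = n → ∀ l : ℕ, 1 ≤ l →
    tors K l ≤ C * √|(discr K : ℝ)| * (Real.log |(discr K : ℝ)|) ^ (n - 1) := by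
  obtain ⟨C, hC0, hC⟩ := master n hn2
  refine ⟨C, hC0, ?_⟩
  intro K _ _ hn l hl
  have key := hC K hn l hl 0 ∅ le_rfl (by simp) (by simp)
  simp only [Finset.card_empty, Nat.cast_zero, zero_add, one_mul] at key
  exact key

/-- it suffices to treat large discriminants -/
theorem large_suffices (n : ℕ) (hn2 : 2 ≤ n) (l : ℕ) (hl : 1 ≤ l) (D₀ C₀ δ : ℝ) (hC₀ : 0 ≤ C₀)
    (hδ : δ ≤ 1 / 2) :
    ∃ C : ℝ, 0 < C ∧ ∀ (K : Type) [Field K] [NumberField K], Module.finrank ℚ K = n →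
    (D₀ ≤ |(discr K : ℝ)| → tors K l ≤ C₀ * |(discr K : ℝ)| ^ (1 / 2 - δ)) →
    tors K l ≤ C * |(discr K : ℝ)| ^ (1 / 2 - δ) := by
  obtain ⟨C, hC0, hC⟩ := tors_trivial n hn2
  set D₁ : ℝ := max D₀ 1 with hD₁
  have hD₁1 : 1 ≤ D₁ := le_max_right _ _
  have hl1 : 0 ≤ Real.log D₁ := Real.log_nonneg hD₁1
  refine ⟨C * √D₁ * (Real.log D₁) ^ (n - 1) + C₀ + 1, by positivity, ?_⟩
  intro K _ _ hn h
  have h1 : (1 : ℝ) ≤ |(discr K : ℝ)| := one_le_abs_discr K
  have hp : (1 : ℝ) ≤ |(discr K : ℝ)| ^ (1 / 2 - δ) := Real.one_le_rpow h1 (by linarith)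
  have hlog : 0 ≤ Real.log |(discr K : ℝ)| := Real.log_nonneg h1
  by_cases hD : D₀ ≤ |(discr K : ℝ)|
  · refine (h hD).trans ?_
    have : 0 ≤ C * √D₁ * (Real.log D₁) ^ (n - 1) := by positivity
    gcongr
    linarith
  · push Not at hD
    have hDD : |(discr K : ℝ)| ≤ D₁ := hD.le.trans (le_max_left _ _)
    have h2 := hC K hn l hl
    have h3 : Real.log |(discr K : ℝ)| ≤ Real.log D₁ := Real.log_le_log (by linarith) hDD
    calc tors K l ≤ C * √|(discr K : ℝ)| * (Real.log |(discr K : ℝ)|) ^ (n - 1) := h2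
      _ ≤ C * √D₁ * (Real.log D₁) ^ (n - 1) := by gcongr
      _ ≤ C * √D₁ * (Real.log D₁) ^ (n - 1) + C₀ + 1 := by linarith
      _ ≤ (C * √D₁ * (Real.log D₁) ^ (n - 1) + C₀ + 1) * |(discr K : ℝ)| ^ (1 / 2 - δ) :=
          le_mul_of_one_le_right (by positivity) hp

end Pool.Agent.H46LT
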