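import Pool.Agent.H46LT.Gal
import Pool.Agent.H46CN.NonSplit

/-! Primes whose decomposition groups lie in a subgroup split completely in its fixed field. -/

set_option autoImplicit false

namespace Pool.Agent.H46LT

open NumberField Finset IntermediateField Pool.Agent.H46CN Pool.Agent.TH847.LS
open scoped Classical nonZeroDivisors Pointwise

/-- unramified with all residue degrees one means totally split -/
theorem fullySplit_of_norm (L : Type) [Field L] [NumberField L] {p : ℕ} (hp : p.Prime)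
    (hpD : ¬ (p : ℤ) ∣ discr L)
    (h : ∀ Q : Ideal (𝓞 L), Q.IsPrime → (p : 𝓞 L) ∈ Q → Ideal.absNorm Q = p) :
    FullySplit L p := by
  have hpZ : Prime (p : ℤ) := Nat.prime_iff_prime_int.mp hp
  have hmax : (Ideal.span {(p : ℤ)}).IsMaximal :=
    PrincipalIdealRing.isMaximal_of_irreducible hpZ.irreducible
  have hfin : Finite ((Ideal.span {(p : ℤ)}).primesOver (𝓞 L)) := by
    exact IsDedekindDomain.primesOver_finite (Ideal.span {(p : ℤ)}) (𝓞 L)
  let hft : Fintype ((Ideal.span {(p : ℤ)}).primesOver (𝓞 L)) := Fintype.ofFinite _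
  have hsum := Ideal.sum_ramification_inertia_eq_finrank (Ideal.span {(p : ℤ)}) (𝓞 L)
  have hmem : ∀ Q : Ideal (𝓞 L), Q.IsPrime → Q.LiesOver (Ideal.span {(p : ℤ)}) → (p : 𝓞 L) ∈ Q := by
    intro Q hQ hl
    have := (Ideal.liesOver_span_iff hQ.ne_top hpZ).mp hl
    exact_mod_cast this
  have h1 : ∀ q : (Ideal.span {(p : ℤ)}).primesOver (𝓞 L),
      q.1.ramificationIdx ℤ * q.1.inertiaDeg ℤ = 1 := by
    intro q
    have hq : q.1.IsPrime := q.2.1
    have hl : q.1.LiesOver (Ideal.span {(p : ℤ)}) := q.2.2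
    have hqm := hmem q.1 hq hl
    have hun : Algebra.IsUnramifiedAt ℤ q.1 :=
      (not_dvd_discr_iff_forall_mem L (𝓞 L) hpZ).mp hpD q.1 hq (by exact_mod_cast hqm)
    have e1 : q.1.ramificationIdx ℤ = 1 := Ideal.ramificationIdx_eq_one q.1 ℤ
    have e2 : p ^ q.1.inertiaDeg ℤ = Ideal.absNorm q.1 := Ideal.pow_inertiaDeg p q.1
    rw [h q.1 hq hqm] at e2
    have e3 : q.1.inertiaDeg ℤ = 1 := by
      have : p ^ q.1.inertiaDeg ℤ = p ^ 1 := by rw [e2, pow_one]
      exact Nat.pow_right_injective hp.two_le this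
    rw [e1, e3]
  rw [Finset.sum_congr rfl (fun q _ => h1 q), Finset.sum_const, smul_eq_mul, mul_one,
    RingOfIntegers.rank] at hsum
  rw [FullySplit, ← hsum]
  refine Finset.card_le_card_of_injOn (fun q => q.1) ?_ ?_
  · intro q _
    have hq : q.1.IsPrime := q.2.1
    have hl : q.1.LiesOver (Ideal.span {(p : ℤ)}) := q.2.2
    have hqm := hmem q.1 hq hl
    have hN := h q.1 hq hqm
    rw [Finset.mem_coe, mem_filter, mem_PI]
    refine ⟨⟨⟨hN.le, ?_⟩, hq⟩, hN⟩
    intro h0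
    change q.1 = ⊥ at h0
    rw [h0, Ideal.absNorm_bot] at hN
    exact hp.ne_zero hN.symm
  · intro q _ q' _ hqq
    exact Subtype.ext hqq

variable {K : Type} [Field K] [NumberField K]

/-- a prime of the fixed field of `Δ` has norm `p` if the decomposition groups lie in `Δ` -/
theorem absNorm_of_stab [IsGalois ℚ K] {p : ℕ} (hp : p.Prime) (k : IntermediateField ℚ K)
    (h : ∀ P : Ideal (𝓞 K), P.IsPrime → (p : 𝓞 K) ∈ P →
      ∀ φ ∈ MulAction.stabilizer Gal(K/ℚ) P, ∀ x ∈ k, φ x = x)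
    (Q : Ideal (𝓞 k)) (hQ : Q.IsPrime) (hpQ : (p : 𝓞 k) ∈ Q) : Ideal.absNorm Q = p := by
  have hpZ : Prime (p : ℤ) := Nat.prime_iff_prime_int.mp hp
  have hQ0 : Q ≠ ⊥ := by
    rintro rfl
    have : (p : 𝓞 k) = 0 := by simpa using hpQ
    exact hp.ne_zero (by exact_mod_cast this)
  have hmaxQ : Q.IsMaximal := hQ.isMaximal hQ0
  obtain ⟨P, hP, hl⟩ := (inferInstance : Nonempty (Q.primesOver (𝓞 K)))
  have hover : Q = P.comap (algebraMap (𝓞 k) (𝓞 K)) := hl.over
  have hpP : (p : 𝓞 K) ∈ P := by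
    have : algebraMap (𝓞 k) (𝓞 K) (p : 𝓞 k) ∈ P := by
      rw [hover, Ideal.mem_comap] at hpQ
      exact hpQ
    rwa [map_natCast] at this
  have hP0 : P ≠ ⊥ := by
    rintro rfl
    have : (p : 𝓞 K) = 0 := by simpa using hpP
    exact hp.ne_zero (by exact_mod_cast this)
  have hfin : Finite (𝓞 K ⧸ P) := Ideal.finiteQuotientOfFreeOfNeBot P hP0
  have hfinQ : Finite (𝓞 k ⧸ Q) := Ideal.finiteQuotientOfFreeOfNeBot Q hQ0
  have hliesP : P.LiesOver (Ideal.span {(p : ℤ)}) :=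
    (Ideal.liesOver_span_iff hP.ne_top hpZ).mpr (by exact_mod_cast hpP)
  have hcard : Nat.card (ℤ ⧸ P.under ℤ) = p := by
    rw [← hliesP.over]
    have : Ideal.absNorm (Ideal.span {(p : ℤ)}) = p := by
      rw [Ideal.absNorm_span_singleton]; simp
    rwa [Ideal.absNorm_apply, Submodule.cardQuot_apply] at this
  set φ := arithFrobAt ℤ Gal(K/ℚ) P with hφ
  have hφs := h P hP hpP φ (IsArithFrobAt.arithFrobAt_mem_stabilizer ℤ Gal(K/ℚ) P)
  have hφF : ∀ x : 𝓞 K, φ • x - x ^ p ∈ P := by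
    intro x
    have h1 := IsArithFrobAt.arithFrobAt ℤ Gal(K/ℚ) P x
    rw [hcard] at h1
    exact h1
  have hfix : ∀ x : 𝓞 k, x ^ p - x ∈ Q := by
    intro x
    rw [hover, Ideal.mem_comap, map_sub, map_pow]
    have h1 := hφF (algebraMap (𝓞 k) (𝓞 K) x)
    have h2 : φ • (algebraMap (𝓞 k) (𝓞 K) x) = algebraMap (𝓞 k) (𝓞 K) x := by
      apply RingOfIntegers.ext
      exact hφs ((x : k) : K) (x : k).2
    rw [h2] at h1
    have h3 := P.neg_mem h1
    rwa [neg_sub] at h3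
  -- counting roots in the residue field
  let hF : Field (𝓞 k ⧸ Q) := Ideal.Quotient.field Q
  let hft : Fintype (𝓞 k ⧸ Q) := Fintype.ofFinite _
  have hroot : ∀ x : 𝓞 k ⧸ Q, x ^ p - x = 0 := by
    intro x
    obtain ⟨x, rfl⟩ := Ideal.Quotient.mk_surjective x
    have := Ideal.Quotient.eq_zero_iff_mem.mpr (hfix x)
    rwa [map_sub, map_pow] at this
  have hle : Fintype.card (𝓞 k ⧸ Q) ≤ p := by
    have hpoly : (Polynomial.X ^ p - Polynomial.X : Polynomial (𝓞 k ⧸ Q)) ≠ 0 :=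
      FiniteField.X_pow_card_sub_X_ne_zero _ hp.one_lt
    have hsub : (Finset.univ : Finset (𝓞 k ⧸ Q)).val ≤
        (Polynomial.X ^ p - Polynomial.X : Polynomial (𝓞 k ⧸ Q)).roots := by
      rw [Multiset.le_iff_subset Finset.univ.nodup]
      intro x _
      rw [Polynomial.mem_roots hpoly]
      simp only [Polynomial.IsRoot.def, Polynomial.eval_sub, Polynomial.eval_pow,
        Polynomial.eval_X]
      exact hroot x
    have h1 := Multiset.card_le_card hsub
    have h2 := Polynomial.card_roots' (Polynomial.X ^ p - Polynomial.X : Polynomial (𝓞 k ⧸ Q))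
    have h3 : (Polynomial.X ^ p - Polynomial.X : Polynomial (𝓞 k ⧸ Q)).natDegree = p :=
      FiniteField.X_pow_card_sub_X_natDegree_eq _ hp.one_lt
    rw [h3] at h2
    exact (h1.trans h2)
  have hcardQ : Ideal.absNorm Q = Fintype.card (𝓞 k ⧸ Q) := by
    rw [Ideal.absNorm_apply, Submodule.cardQuot_apply, Nat.card_eq_fintype_card]
  have hliesQ : Q.LiesOver (Ideal.span {(p : ℤ)}) :=
    (Ideal.liesOver_span_iff hQ.ne_top hpZ).mpr (by exact_mod_cast hpQ)
  have hpow : p ^ Q.inertiaDeg ℤ = Ideal.absNorm Q := Ideal.pow_inertiaDeg p Q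
  have hfpos : 0 < Q.inertiaDeg ℤ := Ideal.inertiaDeg_pos Q ℤ
  apply le_antisymm
  · rw [hcardQ]; exact hle
  · rw [← hpow]
    exact Nat.le_self_pow hfpos.ne' p

theorem fullySplit_of_stab [IsGalois ℚ K] {p : ℕ} (hp : p.Prime) (hpD : ¬ (p : ℤ) ∣ discr K)
    (Δ : Subgroup Gal(K/ℚ))
    (h : ∀ P : Ideal (𝓞 K), P.IsPrime → (p : 𝓞 K) ∈ P →
      MulAction.stabilizer Gal(K/ℚ) P ≤ Δ) :
    FullySplit (IntermediateField.fixedField Δ) p := by
  refine fullySplit_of_norm _ hp ?_ (absNorm_of_stab hp _ fun P hP hpP φ hφ x hx =>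
    (IntermediateField.mem_fixedField_iff Δ x).mp hx φ (h P hP hpP hφ))
  intro hdvd
  exact hpD (hdvd.trans (discr_dvd_discr (IntermediateField.fixedField Δ) K))

end Pool.Agent.H46LT
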