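import Pool.Agent.H46LT.Clo
import Pool.Agent.H46LT.Split
import Pool.Agent.H46CN.NonSplit2

/-! Structure of the obstructing primes in terms of the Galois closure. -/

set_option autoImplicit false

namespace Pool.Agent.H46LT

open NumberField Finset IntermediateField Pool.Agent.H46CN Pool.Agent.TH847.LS
open scoped Classical nonZeroDivisors Pointwise

variable {L : Type} [Field L] [NumberField L]

/-- the elements `x` such that on every conjugate of `K` every element of `N` agrees with some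
power of `x` -/
def RootSet (K : IntermediateField ℚ L) (N : Subgroup Gal(L/ℚ)) : Set Gal(L/ℚ) :=
  {x | ∀ y : Gal(L/ℚ), ∀ ν ∈ N, ∃ k : ℤ, ∀ a ∈ K, ν (y a) = (x ^ k) (y a)}

/-- two primes of `L` over the same prime of `K` are conjugate over `K` -/
theorem conj_over [IsGalois ℚ L] (K : IntermediateField ℚ L) (P Q : Ideal (𝓞 L)) (hP : P.IsPrime)
    (hQ : Q.IsPrime)
    (h : P.comap (algebraMap (𝓞 K) (𝓞 L)) = Q.comap (algebraMap (𝓞 K) (𝓞 L))) :
    ∃ σ : Gal(L/ℚ), (∀ a ∈ K, σ a = a) ∧ Q = σ • P := by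
  obtain ⟨g, hg⟩ := Algebra.IsInvariant.exists_smul_of_under_eq (𝓞 K) (𝓞 L) Gal(L/K) P Q h
  refine ⟨g.restrictScalars ℚ, fun a ha => g.commutes ⟨a, ha⟩, ?_⟩
  rw [hg]
  ext z
  rw [Ideal.mem_pointwise_smul_iff_inv_smul_mem, Ideal.mem_pointwise_smul_iff_inv_smul_mem]
  have : g⁻¹ • z = (AlgEquiv.restrictScalars ℚ g)⁻¹ • z := by
    apply RingOfIntegers.ext
    rfl
  rw [this]

/-- the structure of the obstructing primes -/
theorem mem_rootSet [IsGalois ℚ L] (K : IntermediateField ℚ L) {p : ℕ}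
    (E : IntermediateField ℚ K) (hE : ¬ SplitsOver E p) (P : Ideal (𝓞 L)) (hP : P.IsPrime)
    (hpP : (p : 𝓞 L) ∈ P) (x : Gal(L/ℚ))
    (hx : MulAction.stabilizer Gal(L/ℚ) P ≤ Subgroup.zpowers x) :
    x ∈ RootSet K (IntermediateField.lift E).fixingSubgroup.normalCore := by
  intro y ν hν
  set V := (IntermediateField.lift E).fixingSubgroup with hV
  set u := y⁻¹ * ν * y with hu
  have huV : u ∈ V := by
    have := hν y⁻¹
    rwa [inv_inv] at this
  set Q := y⁻¹ • P with hQ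
  have hQp : Q.IsPrime := Ideal.IsPrime.smul _
  have hpQ : (p : 𝓞 L) ∈ Q := mem_smul_natCast _ p hpP
  have huQp : (u⁻¹ • Q).IsPrime := Ideal.IsPrime.smul _
  have hpuQ : (p : 𝓞 L) ∈ u⁻¹ • Q := mem_smul_natCast _ p hpQ
  have hcast : ∀ R : Ideal (𝓞 L), (p : 𝓞 L) ∈ R →
      (p : 𝓞 K) ∈ R.comap (algebraMap (𝓞 K) (𝓞 L)) := by
    intro R hR
    rw [Ideal.mem_comap, map_natCast]
    exact hR
  have hfix : ∀ z : 𝓞 E, u • (algebraMap (𝓞 K) (𝓞 L) (algebraMap (𝓞 E) (𝓞 K) z)) =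
      algebraMap (𝓞 K) (𝓞 L) (algebraMap (𝓞 E) (𝓞 K) z) := by
    intro z
    apply RingOfIntegers.ext
    have h1 : (((z : E) : K) : L) ∈ IntermediateField.lift E :=
      (IntermediateField.mem_lift ((z : E) : K)).mpr (z : E).2
    have h2 := (IntermediateField.mem_fixingSubgroup_iff _ _).mp huV _ h1
    exact h2
  have hsame : Q.comap (algebraMap (𝓞 K) (𝓞 L)) =
      (u⁻¹ • Q).comap (algebraMap (𝓞 K) (𝓞 L)) := by
    by_contra hne
    apply hE
    refine ⟨Q.comap (algebraMap (𝓞 K) (𝓞 L)), (u⁻¹ • Q).comap (algebraMap (𝓞 K) (𝓞 L)),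
      Ideal.IsPrime.comap _, Ideal.IsPrime.comap _, hcast _ hpQ, hcast _ hpuQ, hne, ?_⟩
    have hmm : ∀ w : 𝓞 L, w ∈ u⁻¹ • Q ↔ u • w ∈ Q := by
      intro w
      rw [Ideal.mem_pointwise_smul_iff_inv_smul_mem, inv_inv]
    ext z
    rw [Ideal.mem_comap, Ideal.mem_comap, Ideal.mem_comap, Ideal.mem_comap, hmm, hfix z]
  obtain ⟨h, hhK, hhQ⟩ := conj_over K Q (u⁻¹ • Q) hQp huQp hsame
  have hstab : ν * y * h * y⁻¹ ∈ MulAction.stabilizer Gal(L/ℚ) P := by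
    rw [MulAction.mem_stabilizer_iff]
    have h1 : (u * h) • Q = Q := by
      rw [mul_smul, ← hhQ, smul_inv_smul]
    have h2 : ν * y * h * y⁻¹ = y * (u * h) * y⁻¹ := by rw [hu]; group
    rw [h2, mul_smul, mul_smul, ← hQ, h1, hQ, smul_inv_smul]
  obtain ⟨k, hk⟩ := hx hstab
  refine ⟨k, fun a ha => ?_⟩
  have hk' : x ^ k = ν * y * h * y⁻¹ := hk
  rw [hk']
  have h3 : (ν * y * h * y⁻¹) (y a) = (ν * y) (h ((y⁻¹ * y) a)) := rfl
  rw [h3, inv_mul_cancel]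
  have h4 : h ((1 : Gal(L/ℚ)) a) = a := hhK a ha
  rw [h4]
  rfl

/-- residue degree one below a prime whose decomposition group fixes the field -/
theorem absNorm_of_stab1 [IsGalois ℚ L] {p : ℕ} (hp : p.Prime) (k : IntermediateField ℚ L)
    (P : Ideal (𝓞 L)) (hP : P.IsPrime) (hpP : (p : 𝓞 L) ∈ P)
    (h : ∀ φ ∈ MulAction.stabilizer Gal(L/ℚ) P, ∀ x ∈ k, φ x = x) :
    Ideal.absNorm (P.comap (algebraMap (𝓞 k) (𝓞 L))) = p := by
  have hpZ : Prime (p : ℤ) := Nat.prime_iff_prime_int.mp hp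
  set Q := P.comap (algebraMap (𝓞 k) (𝓞 L)) with hover
  have hQ : Q.IsPrime := Ideal.IsPrime.comap _
  have hpQ : (p : 𝓞 k) ∈ Q := by
    rw [hover, Ideal.mem_comap, map_natCast]
    exact hpP
  have hQ0 : Q ≠ ⊥ := by
    intro h0
    rw [h0] at hpQ
    have : (p : 𝓞 k) = 0 := by simpa using hpQ
    exact hp.ne_zero (by exact_mod_cast this)
  have hmaxQ : Q.IsMaximal := hQ.isMaximal hQ0
  have hP0 : P ≠ ⊥ := by
    rintro rfl
    have : (p : 𝓞 L) = 0 := by simpa using hpP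
    exact hp.ne_zero (by exact_mod_cast this)
  have hfin : Finite (𝓞 L ⧸ P) := Ideal.finiteQuotientOfFreeOfNeBot P hP0
  have hfinQ : Finite (𝓞 k ⧸ Q) := Ideal.finiteQuotientOfFreeOfNeBot Q hQ0
  have hliesP : P.LiesOver (Ideal.span {(p : ℤ)}) :=
    (Ideal.liesOver_span_iff hP.ne_top hpZ).mpr (by exact_mod_cast hpP)
  have hcard : Nat.card (ℤ ⧸ P.under ℤ) = p := by
    rw [← hliesP.over]
    have : Ideal.absNorm (Ideal.span {(p : ℤ)}) = p := by
      rw [Ideal.absNorm_span_singleton]; simp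
    rwa [Ideal.absNorm_apply, Submodule.cardQuot_apply] at this
  set φ := arithFrobAt ℤ Gal(L/ℚ) P with hφ
  have hφs := h φ (IsArithFrobAt.arithFrobAt_mem_stabilizer ℤ Gal(L/ℚ) P)
  have hφF : ∀ x : 𝓞 L, φ • x - x ^ p ∈ P := by
    intro x
    have h1 := IsArithFrobAt.arithFrobAt ℤ Gal(L/ℚ) P x
    rw [hcard] at h1
    exact h1
  have hfix : ∀ x : 𝓞 k, x ^ p - x ∈ Q := by
    intro x
    rw [hover, Ideal.mem_comap, map_sub, map_pow]
    have h1 := hφF (algebraMap (𝓞 k) (𝓞 L) x)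
    have h2 : φ • (algebraMap (𝓞 k) (𝓞 L) x) = algebraMap (𝓞 k) (𝓞 L) x := by
      apply RingOfIntegers.ext
      exact hφs ((x : k) : L) (x : k).2
    rw [h2] at h1
    have h3 := P.neg_mem h1
    rwa [neg_sub] at h3
  let hF : Field (𝓞 k ⧸ Q) := Ideal.Quotient.field Q
  let hft : Fintype (𝓞 k ⧸ Q) := Fintype.ofFinite _
  have hroot : ∀ x : 𝓞 k ⧸ Q, x ^ p - x = 0 := by
    intro x
    obtain ⟨x, rfl⟩ := Ideal.Quotient.mk_surjective x
    have := Ideal.Quotient.eq_zero_iff_mem.mpr (hfix x)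
    rwa [map_sub, map_pow] at this
  have hle : Fintype.card (𝓞 k ⧸ Q) ≤ p := by
    have hpoly : (Polynomial.X ^ p - Polynomial.X : Polynomial (𝓞 k ⧸ Q)) ≠ 0 :=
      FiniteField.X_pow_card_sub_X_ne_zero _ hp.one_lt
    have hsub : (Finset.univ : Finset (𝓞 k ⧸ Q)).val ≤
        (Polynomial.X ^ p - Polynomial.X : Polynomial (𝓞 k ⧸ Q)).roots := by
      rw [Multiset.le_iff_subset Finset.univ.nodup]
      intro x _
      rw [Polynomial.mem_roots hpoly]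
      simp only [Polynomial.IsRoot.def, Polynomial.eval_sub, Polynomial.eval_pow,
        Polynomial.eval_X]
      exact hroot x
    have h1 := Multiset.card_le_card hsub
    have h2 := Polynomial.card_roots' (Polynomial.X ^ p - Polynomial.X : Polynomial (𝓞 k ⧸ Q))
    have h3 : (Polynomial.X ^ p - Polynomial.X : Polynomial (𝓞 k ⧸ Q)).natDegree = p :=
      FiniteField.X_pow_card_sub_X_natDegree_eq _ hp.one_lt
    rw [h3] at h2
    exact (h1.trans h2)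
  have hcardQ : Ideal.absNorm Q = Fintype.card (𝓞 k ⧸ Q) := by
    rw [Ideal.absNorm_apply, Submodule.cardQuot_apply, Nat.card_eq_fintype_card]
  have hliesQ : Q.LiesOver (Ideal.span {(p : ℤ)}) :=
    (Ideal.liesOver_span_iff hQ.ne_top hpZ).mpr (by exact_mod_cast hpQ)
  have hpow : p ^ Q.inertiaDeg ℤ = Ideal.absNorm Q := Ideal.pow_inertiaDeg p Q
  have hfpos : 0 < Q.inertiaDeg ℤ := Ideal.inertiaDeg_pos Q ℤ
  apply le_antisymm
  · rw [hcardQ]; exact hle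
  · rw [← hpow]
    exact Nat.le_self_pow hfpos.ne' p

/-- the decomposition group of a conjugate prime -/
theorem mem_stab_conj (P : Ideal (𝓞 L)) (y φ : Gal(L/ℚ))
    (h : φ ∈ MulAction.stabilizer Gal(L/ℚ) (y⁻¹ • P)) :
    y * φ * y⁻¹ ∈ MulAction.stabilizer Gal(L/ℚ) P := by
  rw [MulAction.mem_stabilizer_iff] at h ⊢
  rw [mul_smul, mul_smul, h, smul_inv_smul]

/-- two fixed points give two primes of degree one -/
theorem twoSplit_of_fixed [IsGalois ℚ L] {p : ℕ} (hp : p.Prime) (P : Ideal (𝓞 L))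
    (hP : P.IsPrime) (hpP : (p : 𝓞 L) ∈ P) (x : Gal(L/ℚ))
    (hx : MulAction.stabilizer Gal(L/ℚ) P ≤ Subgroup.zpowers x) (V : Subgroup Gal(L/ℚ))
    (y₁ y₂ : Gal(L/ℚ)) (hne : y₁⁻¹ * y₂ ∉ V) (h1 : y₁⁻¹ * x * y₁ ∈ V) (h2 : y₂⁻¹ * x * y₂ ∈ V) :
    TwoSplit (IntermediateField.fixedField V) p := by
  set k := IntermediateField.fixedField V with hk
  have hzp : ∀ y : Gal(L/ℚ), y⁻¹ * x * y ∈ V → ∀ j : ℤ, y⁻¹ * x ^ j * y ∈ V := by
    intro y hy j
    have : y⁻¹ * x ^ j * y = (y⁻¹ * x * y) ^ j := by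
      have h3 := conj_zpow (i := j) (a := y⁻¹) (b := x)
      rw [inv_inv] at h3
      exact h3.symm
    rw [this]
    exact V.zpow_mem hy j
  have hst : ∀ y : Gal(L/ℚ), y⁻¹ * x * y ∈ V →
      ∀ φ ∈ MulAction.stabilizer Gal(L/ℚ) (y⁻¹ • P), ∀ a ∈ k, φ a = a := by
    intro y hy φ hφ a ha
    obtain ⟨j, hj⟩ := hx (mem_stab_conj P y φ hφ)
    have hj' : x ^ j = y * φ * y⁻¹ := hj
    have h3 : φ = y⁻¹ * x ^ j * y := by rw [hj']; group
    have h4 : φ ∈ V := by rw [h3]; exact hzp y hy j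
    exact (IntermediateField.mem_fixedField_iff V a).mp ha φ h4
  have hprime : ∀ y : Gal(L/ℚ), (y⁻¹ • P).IsPrime := fun y => Ideal.IsPrime.smul _
  have hpmem : ∀ y : Gal(L/ℚ), (p : 𝓞 L) ∈ y⁻¹ • P := fun y => mem_smul_natCast _ p hpP
  have hnorm : ∀ y : Gal(L/ℚ), y⁻¹ * x * y ∈ V →
      Ideal.absNorm ((y⁻¹ • P).comap (algebraMap (𝓞 k) (𝓞 L))) = p := fun y hy =>
    absNorm_of_stab1 hp k _ (hprime y) (hpmem y) (hst y hy)
  have hmemf : ∀ y : Gal(L/ℚ), y⁻¹ * x * y ∈ V →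
      (y⁻¹ • P).comap (algebraMap (𝓞 k) (𝓞 L)) ∈
        (PI k p).filter (fun R => Ideal.absNorm R = p) := by
    intro y hy
    have hN := hnorm y hy
    rw [mem_filter, mem_PI]
    have := hprime y
    refine ⟨⟨⟨hN.le, ?_⟩, Ideal.IsPrime.comap _⟩, hN⟩
    intro h0
    rw [h0, Ideal.absNorm_bot] at hN
    exact hp.ne_zero hN.symm
  rw [TwoSplit]
  refine Finset.one_lt_card.mpr ⟨_, hmemf y₁ h1, _, hmemf y₂ h2, ?_⟩
  intro heq
  obtain ⟨v, hvk, hv⟩ := conj_over k (y₁⁻¹ • P) (y₂⁻¹ • P) (hprime y₁) (hprime y₂) heq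
  have hvV : v ∈ V := by
    rw [← IntermediateField.fixingSubgroup_fixedField V, IntermediateField.mem_fixingSubgroup_iff]
    exact hvk
  have hst2 : y₂ * v * y₁⁻¹ ∈ MulAction.stabilizer Gal(L/ℚ) P := by
    rw [MulAction.mem_stabilizer_iff, mul_smul, mul_smul, ← hv, smul_inv_smul]
  obtain ⟨j, hj⟩ := hx hst2
  have hj' : x ^ j = y₂ * v * y₁⁻¹ := hj
  apply hne
  have h5 : y₁⁻¹ * y₂ = (y₁⁻¹ * x ^ j * y₁) * v⁻¹ := by rw [hj']; group
  rw [h5]
  exact V.mul_mem (hzp y₁ h1 j) (V.inv_mem hvV)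

end Pool.Agent.H46LT
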