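import Pool.Agent.H46LT.EV3

/-! The weighted sum over ideals and the resulting inequality for torsion in class groups. -/

set_option autoImplicit false

namespace Pool.Agent.H46LT

open NumberField Finset Pool.Agent.TH847.LS Pool.Agent.TH847.LG NumberField.InfinitePlace
open IntermediateField
open scoped Classical nonZeroDivisors

/-- the Euler factor in terms of a power of a logarithm -/
theorem EE_le (n : ℕ) : ∃ C : ℝ, 0 < C ∧
    ∀ (K : Type) [Field K] [NumberField K] (N : ℕ), 1 ≤ N →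
    EE K n N ≤ C * (1 + Real.log N) ^ n := by
  obtain ⟨C1, hC10, hC1⟩ := sum_inv_card
  refine ⟨Real.exp (n * C1) * 2 ^ n, by positivity, ?_⟩
  intro K _ _ N hN
  have hNr : (1 : ℝ) ≤ N := by exact_mod_cast hN
  have hlN : 0 ≤ Real.log N := Real.log_nonneg hNr
  have hp : ∀ p ∈ TT K N, p.Prime := by
    intro p hp
    rw [mem_TT] at hp
    exact hp.1.2
  have h1 := hC1 (TT K N) hp
  have hcard : (TT K N).card ≤ N := by
    have hsub : TT K N ⊆ Finset.Icc 1 N := by
      intro p hp'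
      rw [Finset.mem_Icc]
      exact ⟨(hp p hp').one_lt.le, by rw [mem_TT] at hp'; exact hp'.1.1⟩
    calc (TT K N).card ≤ (Finset.Icc 1 N).card := Finset.card_le_card hsub
      _ = N := by simp
  have h2 : Real.log ((TT K N).card + 2) ≤ 2 * (1 + Real.log N) := by
    have h3 : ((TT K N).card : ℝ) + 2 ≤ 3 * N := by
      have : ((TT K N).card : ℝ) ≤ N := by exact_mod_cast hcard
      linarith
    have h4 : (0 : ℝ) < (TT K N).card + 2 := by positivity
    have h5 := Real.log_le_log h4 h3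
    rw [Real.log_mul (by norm_num) (by linarith)] at h5
    have h6 : Real.log 3 ≤ 2 := by
      rw [Real.log_le_iff_le_exp (by norm_num)]
      have := Real.add_one_le_exp (2 : ℝ)
      linarith
    linarith
  have h0 : 0 < Real.log ((TT K N).card + 2) :=
    Real.log_pos (by have : (0 : ℝ) ≤ (TT K N).card := by positivity
                     linarith)
  have h3 : ∑ p ∈ TT K N, 1 / (p : ℝ) ≤ Real.log (2 * (1 + Real.log N)) + C1 :=
    h1.trans (by gcongr)
  unfold EE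
  calc Real.exp (n * ∑ p ∈ TT K N, 1 / (p : ℝ))
      ≤ Real.exp (n * (Real.log (2 * (1 + Real.log N)) + C1)) := by gcongr
    _ = Real.exp (n * C1) * Real.exp (n * Real.log (2 * (1 + Real.log N))) := by
        rw [← Real.exp_add]; ring_nf
    _ = Real.exp (n * C1) * (2 * (1 + Real.log N)) ^ n := by
        rw [Real.exp_nat_mul (Real.log _), Real.exp_log (by linarith)]
    _ = _ := by rw [mul_pow]; ring

/-- the weighted sum over the ideals of small norm -/
theorem W_bound (n : ℕ) (hn2 : 2 ≤ n) : ∃ C : ℝ, 0 < C ∧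
    ∀ (K : Type) [Field K] [NumberField K], Module.finrank ℚ K = n →
    ∃ N : ℕ, 2 ^ n * √|(discr K : ℝ)| < N ∧
      ∑ J ∈ FI K N, (1 + Real.log ((N : ℝ) / Ideal.absNorm J)) ^ n ≤
        C * √|(discr K : ℝ)| * (Real.log |(discr K : ℝ)|) ^ (n - 1) := by
  obtain ⟨C, hC0, hC⟩ := EE_le n
  obtain ⟨C1, hC10, hC1⟩ := dyadic
  refine ⟨(2 * n : ℝ) ^ n * (C1 * ((2 + 6 * n) * Real.exp (3 * n)) * 2 ^ (n + 1) * C *
    (n + 4) ^ (n - 1)), by positivity, ?_⟩
  intro K _ _ hn
  set D := (discr K).natAbs with hD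
  have hDK : |(discr K : ℝ)| = (D : ℝ) := by
    rw [hD, Nat.cast_natAbs]
    push_cast
    rfl
  rw [hDK]
  have hD2 : 2 < D := by
    have := abs_discr_gt_two (K := K) (by rw [hn]; omega)
    rw [Int.abs_eq_natAbs] at this
    exact_mod_cast this
  have hDr : (3 : ℝ) ≤ D := by exact_mod_cast hD2
  have hs1 : 1 ≤ √(D : ℝ) := by
    rw [Real.one_le_sqrt]; linarith
  set X : ℝ := 2 ^ n * √(D : ℝ) with hX
  have hX1 : 1 ≤ X := by
    have : (1 : ℝ) ≤ 2 ^ n := one_le_pow₀ (by norm_num)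
    nlinarith
  set N := ⌊X⌋₊ + 1 with hN
  have hN1 : X < N := by
    rw [hN]; push_cast; exact Nat.lt_floor_add_one _
  have hN2 : (N : ℝ) ≤ 2 ^ (n + 1) * √(D : ℝ) := by
    rw [hN]; push_cast
    have := Nat.floor_le (show 0 ≤ X by linarith)
    rw [pow_succ]
    nlinarith
  have hN3 : 1 < N := by
    have : 1 ≤ ⌊X⌋₊ := Nat.le_floor (by exact_mod_cast hX1)
    omega
  have hlD : 1 ≤ Real.log D := by
    rw [Real.le_log_iff_exp_le (by linarith)]
    have := Real.exp_one_lt_d9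
    linarith
  have hNr : (0 : ℝ) < N := by exact_mod_cast (by omega : 0 < N)
  have hlN : 1 + Real.log N ≤ (n + 4) * Real.log D := by
    have h1 := Real.log_le_log hNr hN2
    rw [Real.log_mul (by positivity) (by positivity), Real.log_pow,
      Real.log_sqrt (by linarith)] at h1
    have h2 : Real.log 2 ≤ Real.log D := Real.log_le_log (by norm_num) (by linarith)
    push_cast at h1
    have h3 : (0 : ℝ) ≤ n := by positivity
    nlinarith
  have hlN0 : 0 ≤ Real.log N := Real.log_nonneg (by exact_mod_cast hN3.le)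
  refine ⟨N, hN1, ?_⟩
  have hn1 : 1 ≤ n := by omega
  have hW1 : ∑ J ∈ FI K N, (1 + Real.log ((N : ℝ) / Ideal.absNorm J)) ^ n ≤
      (2 * n : ℝ) ^ n * ∑ J ∈ FI K N, √((N : ℝ) / Ideal.absNorm J) := by
    rw [Finset.mul_sum]
    refine Finset.sum_le_sum fun J hJ => ?_
    rw [mem_FI] at hJ
    have h4 : (0 : ℝ) < Ideal.absNorm J := by exact_mod_cast absNorm_pos hJ.2
    refine log_pow_le hn1 ?_
    rw [le_div_iff₀ h4, one_mul]
    exact_mod_cast hJ.1
  have hE := hC K N (by omega)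
  have hdy := hC1 K n hn N (by omega)
  have hS : ∑ J ∈ FI K N, √((N : ℝ) / Ideal.absNorm J) ≤
      C1 * ((2 + 6 * n) * Real.exp (3 * n)) * N * C * (1 + Real.log N) ^ (n - 1) := by
    have h5 : (∑ J ∈ FI K N, √((N : ℝ) / Ideal.absNorm J)) * (1 + Real.log N) ≤
        (C1 * ((2 + 6 * n) * Real.exp (3 * n)) * N * C * (1 + Real.log N) ^ (n - 1)) *
          (1 + Real.log N) := by
      calc _ ≤ C1 * ((2 + 6 * n) * Real.exp (3 * n)) * N * EE K n N := hdy
        _ ≤ C1 * ((2 + 6 * n) * Real.exp (3 * n)) * N * (C * (1 + Real.log N) ^ n) := by gcongr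
        _ = _ := by
          obtain ⟨k, rfl⟩ : ∃ k, n = k + 1 := ⟨n - 1, by omega⟩
          simp only [Nat.add_sub_cancel]
          ring
    exact le_of_mul_le_mul_right h5 (by linarith)
  calc ∑ J ∈ FI K N, (1 + Real.log ((N : ℝ) / Ideal.absNorm J)) ^ n
      ≤ (2 * n : ℝ) ^ n * (C1 * ((2 + 6 * n) * Real.exp (3 * n)) * N * C *
          (1 + Real.log N) ^ (n - 1)) := hW1.trans (by gcongr)
    _ ≤ (2 * n : ℝ) ^ n * (C1 * ((2 + 6 * n) * Real.exp (3 * n)) *
          (2 ^ (n + 1) * √(D : ℝ)) * C * ((n + 4) * Real.log D) ^ (n - 1)) := by gcongr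
    _ = _ := by rw [mul_pow ((n : ℝ) + 4)]; ring

/-- the small ideals inequality in final form -/
theorem engine (n : ℕ) (hn2 : 2 ≤ n) : ∃ C : ℝ, 0 < C ∧
    ∀ (K : Type) [Field K] [NumberField K], Module.finrank ℚ K = n → ∀ l : ℕ, 1 ≤ l →
    ∀ (ι : Type) [Fintype ι] (P : ι → (Ideal (𝓞 K))⁰) (Y : ℝ),
    (∀ i, (Ideal.absNorm (P i : Ideal (𝓞 K)) : ℝ) ≤ Y) →
    (∀ i j, i ≠ j → ∀ x y : 𝓞 K, x ≠ 0 → y ≠ 0 →
      Ideal.span {x} * (P j : Ideal (𝓞 K)) ^ l = Ideal.span {y} * (P i : Ideal (𝓞 K)) ^ l →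
      Y ^ (2 * l * (n - 1)) * (2 * Real.exp (5 * l)) ^ (n * (n - 1)) <
        |(discr ↥(ℚ⟮(x : K) / (y : K)⟯) : ℝ)|) →
    ((Fintype.card ι : ℝ) + 1) * (Nat.card {c : ClassGroup (𝓞 K) // c ^ l = 1} : ℝ) ≤
      C * √|(discr K : ℝ)| * (Real.log |(discr K : ℝ)|) ^ (n - 1) := by
  obtain ⟨C, hC0, hC⟩ := W_bound n hn2
  refine ⟨2 * C, by positivity, ?_⟩
  intro K _ _ hn l hl ι _ P Y hY hgood
  obtain ⟨N, hN, hW⟩ := hC K hn
  have h1 := ev3 hn hl N hN ι P Y hY hgood
  have hTh : Nat.card {c : ClassGroup (𝓞 K) // c ^ l = 1} ≤ Nat.card (ClassGroup (𝓞 K)) :=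
    Nat.card_le_card_of_injective _ Subtype.val_injective
  have h2 := class_le_n hn N hN
  have h3 : (Nat.card {c : ClassGroup (𝓞 K) // c ^ l = 1} : ℝ) ≤
      Nat.card (ClassGroup (𝓞 K)) := by exact_mod_cast hTh
  linarith

end Pool.Agent.H46LT
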